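import Mathlib

/-!
Building blocks for the counterexample to `C^{1,alpha}` regularity of `C^1` free boundaries
with right-hand side `x₁ χ_D` (problem MP_056161_an).

`phi η = η (4 - log η)` maps the half disc `{Re η > 0, |η| < 1}` conformally; the imaginary
axis is mapped to the curve `x₁ = (π/2)|s|`, `x₂ = s (4 - log |s|)`.
-/

open Complex Set Metric Filter Topology

namespace Pool.Agent.R216.FB

noncomputable section

/-- `η ↦ η log η`. -/
def ml (η : ℂ) : ℂ := η * Complex.log η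

/-- The conformal map `η ↦ η (4 - log η)`. -/
def phi (η : ℂ) : ℂ := 4 * η - ml η

/-- The holomorphic potential. -/
def V (η : ℂ) : ℂ := -((Real.pi : ℂ) ^ 2 / 24) * (η ^ 2 * ((10 / 3) * η - ml η))

/-- Open half disc. -/
def H : Set ℂ := {η | 0 < η.re ∧ ‖η‖ < 1}

/-- Closed half disc. -/
def Hc : Set ℂ := {η | 0 ≤ η.re ∧ ‖η‖ ≤ 1}

lemma ml_zero : ml 0 = 0 := by simp [ml]

lemma norm_ml_le (η : ℂ) : ‖ml η‖ ≤ |‖η‖ * Real.log ‖η‖| + ‖η‖ * Real.pi := by
  unfold ml
  rw [norm_mul]
  have h1 : ‖Complex.log η‖ ≤ |Real.log ‖η‖| + Real.pi := by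
    calc ‖Complex.log η‖ ≤ |(Complex.log η).re| + |(Complex.log η).im| :=
          Complex.norm_le_abs_re_add_abs_im _
      _ ≤ |Real.log ‖η‖| + Real.pi := by
          rw [Complex.log_re, Complex.log_im]
          gcongr
          exact Complex.abs_arg_le_pi η
  calc ‖η‖ * ‖Complex.log η‖ ≤ ‖η‖ * (|Real.log ‖η‖| + Real.pi) := by gcongr
    _ = |‖η‖ * Real.log ‖η‖| + ‖η‖ * Real.pi := by
        rw [abs_mul, abs_of_nonneg (norm_nonneg η)]; ring

lemma continuousAt_ml_zero : ContinuousAt ml 0 := by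
  rw [ContinuousAt, ml_zero]
  refine squeeze_zero_norm norm_ml_le ?_
  have h1 : Continuous fun η : ℂ => |‖η‖ * Real.log ‖η‖| + ‖η‖ * Real.pi := by
    have := Real.continuous_mul_log.comp (continuous_norm (E := ℂ))
    exact (this.abs).add (continuous_norm.mul continuous_const)
  have h2 := h1.tendsto 0
  simpa using h2

lemma mem_slit {η : ℂ} (h0 : 0 ≤ η.re) (h : η ≠ 0) : η ∈ slitPlane := by
  rw [mem_slitPlane_iff]
  rcases h0.lt_or_eq with h1 | h1
  · exact Or.inl h1
  · right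
    intro h2
    exact h (Complex.ext h1.symm h2)

lemma hasDerivAt_ml {η : ℂ} (h : η ∈ slitPlane) : HasDerivAt ml (Complex.log η + 1) η := by
  have h1 := (hasDerivAt_id η).mul (Complex.hasDerivAt_log h)
  have h0 : η ≠ 0 := slitPlane_ne_zero h
  refine h1.congr_deriv ?_
  simp [h0]

lemma hasDerivAt_phi {η : ℂ} (h : η ∈ slitPlane) :
    HasDerivAt phi (3 - Complex.log η) η := by
  have h1 := ((hasDerivAt_id η).const_mul (4 : ℂ)).sub (hasDerivAt_ml h)
  refine h1.congr_deriv ?_
  ring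

lemma hasDerivAt_V {η : ℂ} (h : η ∈ slitPlane) :
    HasDerivAt V (-((Real.pi : ℂ) ^ 2 / 8) * η ^ 2 * (3 - Complex.log η)) η := by
  have h1 := (((hasDerivAt_id η).const_mul (10 / 3 : ℂ)).sub (hasDerivAt_ml h))
  have h2 := ((hasDerivAt_pow 2 η).mul h1).const_mul (-((Real.pi : ℂ) ^ 2 / 24))
  refine h2.congr_deriv ?_
  simp only [id, ml, Nat.cast_ofNat, Pi.sub_apply]
  ring

lemma continuousOn_ml : ContinuousOn ml Hc := by
  intro η hη
  by_cases h : η = 0
  · subst h; exact continuousAt_ml_zero.continuousWithinAt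
  · exact (hasDerivAt_ml (mem_slit hη.1 h)).continuousAt.continuousWithinAt

lemma continuousOn_phi : ContinuousOn phi Hc := by
  unfold phi
  exact (continuousOn_const.mul continuousOn_id).sub continuousOn_ml

lemma continuousOn_V : ContinuousOn V Hc := by
  unfold V
  exact continuousOn_const.mul ((continuousOn_id.pow 2).mul
    ((continuousOn_const.mul continuousOn_id).sub continuousOn_ml))

lemma log_norm_nonpos {η : ℂ} (h : ‖η‖ ≤ 1) : Real.log ‖η‖ ≤ 0 :=
  Real.log_nonpos (norm_nonneg _) h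

lemma convex_H : Convex ℝ H := by
  have h1 : Convex ℝ {η : ℂ | 0 < η.re} := by
    exact (convex_Ioi (0:ℝ)).is_linear_preimage Complex.reLm.isLinear
  have h2 : Convex ℝ (ball (0:ℂ) 1) := convex_ball _ _
  have h3 : H = {η : ℂ | 0 < η.re} ∩ ball (0:ℂ) 1 := by
    ext η; simp [H]
  rw [h3]; exact h1.inter h2

lemma isOpen_H : IsOpen H := by
  have h3 : H = {η : ℂ | 0 < η.re} ∩ ball (0:ℂ) 1 := by
    ext η; simp [H]
  rw [h3]
  exact (isOpen_lt continuous_const Complex.continuous_re).inter isOpen_ball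

lemma isCompact_Hc : IsCompact Hc := by
  have h3 : Hc = {η : ℂ | 0 ≤ η.re} ∩ closedBall (0:ℂ) 1 := by
    ext η; simp [Hc]
  rw [h3]
  exact (isCompact_closedBall _ _).inter_left (isClosed_le continuous_const Complex.continuous_re)

lemma H_subset_Hc : H ⊆ Hc := fun _ h => ⟨h.1.le, h.2.le⟩

lemma Hc_subset_closure : Hc ⊆ closure H := by
  intro η hη
  rw [mem_closure_iff_seq_limit]
  refine ⟨fun n : ℕ => (1 - 1 / ((n : ℝ) + 2) : ℝ) • η + (1 / (2 * ((n : ℝ) + 2)) : ℝ) • (1:ℂ), ?_, ?_⟩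
  · intro n
    have hn : (0:ℝ) < (n : ℝ) + 2 := by positivity
    have hn1 : 1 / ((n : ℝ) + 2) < 1 := by
      rw [div_lt_one hn]; linarith [(Nat.cast_nonneg n : (0:ℝ) ≤ n)]
    have hn0 : 0 < 1 / ((n : ℝ) + 2) := by positivity
    have hh : (1 / (2 * ((n : ℝ) + 2)) : ℝ) = (1 / ((n : ℝ) + 2)) / 2 := by
      field_simp
    show (1 - 1 / ((n : ℝ) + 2) : ℝ) • η + (1 / (2 * ((n : ℝ) + 2)) : ℝ) • (1:ℂ) ∈ H
    rw [hh]
    set e := 1 / ((n : ℝ) + 2)
    constructor
    · simp only [Complex.add_re, Complex.smul_re, smul_eq_mul, Complex.one_re]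
      have : 0 ≤ (1 - e) * η.re := mul_nonneg (by linarith) hη.1
      linarith
    · calc ‖(1 - e) • η + (e / 2) • (1:ℂ)‖ ≤ ‖(1 - e) • η‖ + ‖(e / 2) • (1:ℂ)‖ := norm_add_le _ _
        _ = (1 - e) * ‖η‖ + e / 2 := by
            rw [norm_smul, norm_smul, Real.norm_of_nonneg (by linarith),
              Real.norm_of_nonneg (by linarith), norm_one, mul_one]
        _ ≤ (1 - e) * 1 + e / 2 := by
            have : (1 - e) * ‖η‖ ≤ (1 - e) * 1 := mul_le_mul_of_nonneg_left hη.2 (by linarith)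
            linarith
        _ < 1 := by linarith
  · have h1 : Tendsto (fun n : ℕ => (1:ℝ) / ((n : ℝ) + 2)) atTop (𝓝 0) := by
      have := tendsto_one_div_add_atTop_nhds_zero_nat (𝕜 := ℝ)
      refine squeeze_zero (fun n => by positivity) (fun n => ?_) this
      apply one_div_le_one_div_of_le (by positivity) (by linarith)
    have h2 : Tendsto (fun n : ℕ => (1 / (2 * ((n : ℝ) + 2)) : ℝ)) atTop (𝓝 0) := by
      have := h1.div_const 2
      simp only [zero_div] at this
      refine this.congr (fun n => ?_)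
      field_simp
    have h3 : Tendsto (fun n : ℕ => (1 - 1 / ((n : ℝ) + 2) : ℝ) • η + (1 / (2 * ((n : ℝ) + 2)) : ℝ) • (1:ℂ))
        atTop (𝓝 ((1 - 0 : ℝ) • η + (0:ℝ) • (1:ℂ))) :=
      ((tendsto_const_nhds.sub h1).smul_const η).add (h2.smul_const (1:ℂ))
    simpa using h3

/-- Expansion estimate in the open half disc. -/
lemma expand_H {a b : ℂ} (ha : a ∈ H) (hb : b ∈ H) :
    3 * ‖a - b‖ ^ 2 ≤ ((starRingEnd ℂ) (a - b) * (phi a - phi b)).re := by
  set d := a - b with hd
  have hseg : ∀ t ∈ Icc (0:ℝ) 1, b + (t:ℂ) * d ∈ H := by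
    intro t ht
    have := convex_H hb ha (by linarith [ht.2] : (0:ℝ) ≤ 1 - t) ht.1 (by ring)
    convert this using 1
    simp only [Complex.real_smul, hd, Complex.ofReal_sub, Complex.ofReal_one]
    ring
  have hder : ∀ t ∈ Icc (0:ℝ) 1, HasDerivAt
      (fun t : ℝ => ((starRingEnd ℂ) d * phi (b + (t:ℂ) * d)).re)
      (((starRingEnd ℂ) d * ((3 - Complex.log (b + (t:ℂ) * d)) * d)).re) t := by
    intro t ht
    have h1 : b + (t:ℂ) * d ∈ slitPlane :=
      mem_slit (hseg t ht).1.le (by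
        intro h0
        have := (hseg t ht).1
        rw [h0] at this
        simp at this)
    have h2 : HasDerivAt (fun t : ℝ => b + (t:ℂ) * d) d t := by
      have h3 : HasDerivAt (fun t : ℝ => (t:ℂ)) 1 t := Complex.ofRealCLM.hasDerivAt
      simpa using (h3.mul_const d).const_add b
    have h4 := (hasDerivAt_phi h1).scomp t h2
    have h5 := (h4.const_mul ((starRingEnd ℂ) d))
    have h6 := (Complex.reCLM.hasFDerivAt.comp_hasDerivAt t h5)
    refine h6.congr_deriv ?_
    simp only [smul_eq_mul, Complex.reCLM_apply]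
    congr 1
    ring
  obtain ⟨c, hc, hceq⟩ := exists_hasDerivAt_eq_slope
    (fun t : ℝ => ((starRingEnd ℂ) d * phi (b + (t:ℂ) * d)).re)
    (fun t : ℝ => ((starRingEnd ℂ) d * ((3 - Complex.log (b + (t:ℂ) * d)) * d)).re)
    (zero_lt_one) (fun t ht => (hder t ht).continuousAt.continuousWithinAt)
    (fun t ht => hder t ⟨ht.1.le, ht.2.le⟩)
  simp only [Complex.ofReal_one, Complex.ofReal_zero, one_mul, zero_mul, add_zero, sub_zero,
    div_one] at hceq
  have e1 : b + d = a := by rw [hd]; ring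
  rw [e1] at hceq
  have e2 : ((starRingEnd ℂ) d * (phi a - phi b)).re
      = ((starRingEnd ℂ) d * phi a).re - ((starRingEnd ℂ) d * phi b).re := by
    rw [mul_sub, Complex.sub_re]
  rw [e2, ← hceq]
  have e3 : (starRingEnd ℂ) d * ((3 - Complex.log (b + (c:ℂ) * d)) * d)
      = ((‖d‖ ^ 2 : ℝ) : ℂ) * (3 - Complex.log (b + (c:ℂ) * d)) := by
    rw [show (starRingEnd ℂ) d * ((3 - Complex.log (b + (c:ℂ) * d)) * d)
      = (d * (starRingEnd ℂ) d) * (3 - Complex.log (b + (c:ℂ) * d)) by ring, Complex.mul_conj,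
      Complex.normSq_eq_norm_sq]
  rw [e3, Complex.re_ofReal_mul, Complex.sub_re, Complex.log_re]
  have h7 : Real.log ‖b + (c:ℂ) * d‖ ≤ 0 :=
    log_norm_nonpos (hseg c ⟨hc.1.le, hc.2.le⟩).2.le
  have h8 : (3:ℂ).re = 3 := by simp
  rw [h8]
  nlinarith [sq_nonneg ‖d‖]

/-- Expansion estimate in the closed half disc. -/
lemma expand_Hc {a b : ℂ} (ha : a ∈ Hc) (hb : b ∈ Hc) :
    3 * ‖a - b‖ ^ 2 ≤ ((starRingEnd ℂ) (a - b) * (phi a - phi b)).re := by
  have hcl : closure (H ×ˢ H) ⊆ Hc ×ˢ Hc := by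
    apply closure_minimal (prod_mono H_subset_Hc H_subset_Hc)
    exact (isCompact_Hc.isClosed).prod isCompact_Hc.isClosed
  have hmem : (a, b) ∈ closure (H ×ˢ H) := by
    rw [closure_prod_eq]
    exact ⟨Hc_subset_closure ha, Hc_subset_closure hb⟩
  have key := le_on_closure (s := H ×ˢ H) (f := fun p : ℂ × ℂ => 3 * ‖p.1 - p.2‖ ^ 2)
    (g := fun p : ℂ × ℂ => ((starRingEnd ℂ) (p.1 - p.2) * (phi p.1 - phi p.2)).re)
    (fun p hp => expand_H hp.1 hp.2) (by fun_prop) ?_ hmem
  · exact key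
  · apply ContinuousOn.mono _ hcl
    apply Complex.continuous_re.comp_continuousOn
    apply ContinuousOn.mul
    · exact (Complex.continuous_conj.comp (continuous_fst.sub continuous_snd)).continuousOn
    · exact (continuousOn_phi.comp continuousOn_fst (fun p hp => hp.1)).sub
        (continuousOn_phi.comp continuousOn_snd (fun p hp => hp.2))

lemma expand_norm {a b : ℂ} (ha : a ∈ Hc) (hb : b ∈ Hc) :
    3 * ‖a - b‖ ≤ ‖phi a - phi b‖ := by
  have h1 := expand_Hc ha hb
  have h2 : ((starRingEnd ℂ) (a - b) * (phi a - phi b)).re ≤ ‖a - b‖ * ‖phi a - phi b‖ := by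
    refine (Complex.re_le_norm _).trans ?_
    rw [norm_mul, Complex.norm_conj]
  rcases (norm_nonneg (a - b)).eq_or_lt with h3 | h3
  · rw [← h3]; simp
  · have h4 : ‖a - b‖ * (3 * ‖a - b‖) ≤ ‖a - b‖ * ‖phi a - phi b‖ := by nlinarith
    exact le_of_mul_le_mul_left h4 h3

lemma injOn_phi : InjOn phi Hc := by
  intro a ha b hb hab
  have h := expand_norm ha hb
  rw [hab, sub_self, norm_zero] at h
  have h2 : ‖a - b‖ = 0 := le_antisymm (by linarith) (norm_nonneg _)
  exact sub_eq_zero.mp (norm_eq_zero.mp h2)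

/-- The boundary curve. -/
def G (s : ℝ) : ℝ := s * (4 - Real.log |s|)

lemma ml_mul_I (s : ℝ) :
    ml (s * I) = ((-(Real.pi / 2 * |s|) : ℝ) : ℂ) + ((s * Real.log |s| : ℝ) : ℂ) * I := by
  unfold ml
  have hre : (Complex.log (s * I)).re = Real.log |s| := by
    rw [Complex.log_re]; simp
  rcases lt_trichotomy s 0 with h | h | h
  · have him : (Complex.log (s * I)).im = -(Real.pi / 2) := by
      rw [Complex.log_im, Complex.arg_eq_neg_pi_div_two_iff]
      simp [h]
    have : Complex.log (s * I) = (Real.log |s| : ℝ) + (-(Real.pi / 2) : ℝ) * I := by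
      apply Complex.ext
      · rw [hre]; simp
      · rw [him]; simp
    rw [this, abs_of_neg h]
    apply Complex.ext <;> simp
    ring
  · subst h; simp
  · have him : (Complex.log (s * I)).im = Real.pi / 2 := by
      rw [Complex.log_im, Complex.arg_eq_pi_div_two_iff]
      simp [h]
    have : Complex.log (s * I) = (Real.log |s| : ℝ) + (Real.pi / 2 : ℝ) * I := by
      apply Complex.ext
      · rw [hre]; simp
      · rw [him]; simp
    rw [this, abs_of_pos h]
    apply Complex.ext <;> simp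
    ring

lemma phi_mul_I (s : ℝ) :
    phi (s * I) = ((Real.pi / 2 * |s| : ℝ) : ℂ) + ((G s : ℝ) : ℂ) * I := by
  unfold phi
  rw [ml_mul_I, G]
  apply Complex.ext
  · simp
  · simp; ring

lemma re_V_mul_I (s : ℝ) : (V (s * I)).re = (Real.pi / 2 * |s|) ^ 3 / 6 := by
  unfold V
  rw [ml_mul_I]
  have h1 : ((s:ℂ) * I) ^ 2 = ((-(s ^ 2) : ℝ) : ℂ) := by
    rw [mul_pow, I_sq]; push_cast; ring
  rw [h1]
  have h2 : -((Real.pi : ℂ) ^ 2 / 24) * (((-(s ^ 2) : ℝ) : ℂ) * (10 / 3 * (s * I)
      - (((-(Real.pi / 2 * |s|) : ℝ) : ℂ) + ((s * Real.log |s| : ℝ) : ℂ) * I)))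
      = ((Real.pi ^ 2 / 24 * s ^ 2 : ℝ) : ℂ) * (((Real.pi / 2 * |s| : ℝ) : ℂ)
        + ((10 / 3 * s - s * Real.log |s| : ℝ) : ℂ) * I) := by
    push_cast; ring
  rw [h2, Complex.re_ofReal_mul]
  simp only [Complex.add_re, Complex.ofReal_re, Complex.re_ofReal_mul, Complex.I_re, mul_zero,
    add_zero]
  have h3 : |s| ^ 3 = s ^ 2 * |s| := by rw [pow_succ, sq_abs]
  rw [mul_pow, h3]
  ring

lemma mem_Hc_mul_I {s : ℝ} (h : |s| ≤ 1) : (s : ℂ) * I ∈ Hc := by
  constructor
  · simp
  · simpa using h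

/-- Expansion of the boundary map. -/
lemma expand_G {s t : ℝ} (hs : |s| ≤ 1) (ht : |t| ≤ 1) :
    3 * (s - t) ^ 2 ≤ (s - t) * (G s - G t) := by
  have h := expand_Hc (mem_Hc_mul_I hs) (mem_Hc_mul_I ht)
  rw [phi_mul_I, phi_mul_I] at h
  have e1 : (s:ℂ) * I - t * I = ((s - t : ℝ) : ℂ) * I := by push_cast; ring
  rw [e1] at h
  have e2 : ‖((s - t : ℝ) : ℂ) * I‖ ^ 2 = (s - t) ^ 2 := by
    rw [norm_mul, Complex.norm_I, mul_one, Complex.norm_real, Real.norm_eq_abs, sq_abs]
  rw [e2] at h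
  have e3 : ((starRingEnd ℂ) (((s - t : ℝ) : ℂ) * I) *
      (((Real.pi / 2 * |s| : ℝ) : ℂ) + ((G s : ℝ) : ℂ) * I
        - (((Real.pi / 2 * |t| : ℝ) : ℂ) + ((G t : ℝ) : ℂ) * I))).re = (s - t) * (G s - G t) := by
    simp
  rwa [e3] at h

lemma G_neg (s : ℝ) : G (-s) = -G s := by unfold G; rw [abs_neg]; ring

lemma G_zero : G 0 = 0 := by simp [G]

lemma G_one : G 1 = 4 := by simp [G]

lemma continuous_G : Continuous G := by
  have : G = fun s => 4 * s - s * Real.log s := by
    funext s; unfold G; rw [Real.log_abs]; ring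
  rw [this]
  exact (continuous_const.mul continuous_id).sub Real.continuous_mul_log

lemma hasDerivAt_G {s : ℝ} (hs : s ≠ 0) : HasDerivAt G (3 - Real.log |s|) s := by
  have e : G = fun s => 4 * s - s * Real.log s := by
    funext s; unfold G; rw [Real.log_abs]; ring
  rw [e, Real.log_abs]
  have h1 := ((hasDerivAt_id s).const_mul (4:ℝ)).sub (Real.hasDerivAt_mul_log hs)
  refine h1.congr_deriv ?_
  ring

lemma G_surj {t : ℝ} (ht : |t| ≤ 4) : ∃ s ∈ Icc (-1:ℝ) 1, G s = t := by
  have h := intermediate_value_Icc (by norm_num : (-1:ℝ) ≤ 1) continuous_G.continuousOn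
  rw [G_neg, G_one] at h
  exact h (abs_le.mp ht)

/-- Inverse of `G` on `[-4, 4]`. -/
def ginv (t : ℝ) : ℝ := Function.invFunOn G (Icc (-1:ℝ) 1) t

lemma ginv_mem {t : ℝ} (ht : |t| ≤ 4) : |ginv t| ≤ 1 :=
  abs_le.mpr (Function.invFunOn_mem (G_surj ht))

lemma G_ginv {t : ℝ} (ht : |t| ≤ 4) : G (ginv t) = t := Function.invFunOn_eq (G_surj ht)

lemma ginv_lip {s t : ℝ} (hs : |s| ≤ 4) (ht : |t| ≤ 4) : 3 * |ginv s - ginv t| ≤ |s - t| := by
  have h := expand_G (ginv_mem hs) (ginv_mem ht)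
  rw [G_ginv hs, G_ginv ht] at h
  have h1 : (ginv s - ginv t) * (s - t) ≤ |ginv s - ginv t| * |s - t| := by
    rw [← abs_mul]; exact le_abs_self _
  rcases (abs_nonneg (ginv s - ginv t)).eq_or_lt with h3 | h3
  · rw [← h3]; simp
  · have h4 : |ginv s - ginv t| * (3 * |ginv s - ginv t|) ≤ |ginv s - ginv t| * |s - t| := by
      nlinarith [sq_abs (ginv s - ginv t)]
    exact le_of_mul_le_mul_left h4 h3

lemma injOn_G {s t : ℝ} (hs : |s| ≤ 1) (ht : |t| ≤ 1) (h : G s = G t) : s = t := by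
  have h1 := expand_G hs ht
  rw [h, sub_self, mul_zero] at h1
  have : s - t = 0 := by
    have : (s - t) ^ 2 ≤ 0 := by linarith
    exact pow_eq_zero_iff (two_ne_zero) |>.mp (le_antisymm this (sq_nonneg _))
  linarith

lemma ginv_G {s : ℝ} (hs : |s| ≤ 1) (h4 : |G s| ≤ 4) : ginv (G s) = s :=
  injOn_G (ginv_mem h4) hs (G_ginv h4)

lemma ginv_neg {t : ℝ} (ht : |t| ≤ 4) : ginv (-t) = -ginv t := by
  have h1 : |-t| ≤ 4 := by rwa [abs_neg]
  apply injOn_G (ginv_mem h1)
  · rw [abs_neg]; exact ginv_mem ht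
  · rw [G_ginv h1, G_neg, G_ginv ht]

lemma ginv_zero : ginv 0 = 0 := by
  have := ginv_G (s := 0) (by simp) (by simp [G_zero])
  rwa [G_zero] at this

lemma ginv_mono {s t : ℝ} (hs : |s| ≤ 4) (ht : |t| ≤ 4) (h : s ≤ t) : ginv s ≤ ginv t := by
  have h1 := expand_G (ginv_mem ht) (ginv_mem hs)
  rw [G_ginv hs, G_ginv ht] at h1
  by_contra h2
  push Not at h2
  nlinarith [mul_self_pos.mpr (sub_ne_zero.mpr h2.ne)]

/-- The defining function of the free boundary, `x₁ = f x₂`. -/
def f (t : ℝ) : ℝ := Real.pi / 2 * |ginv (max (-2) (min t 2))|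

lemma clamp_abs (t : ℝ) : |max (-2) (min t 2)| ≤ 4 := by
  rw [abs_le]; constructor
  · have := le_max_left (-2:ℝ) (min t 2); linarith
  · exact max_le (by norm_num) ((min_le_right _ _).trans (by norm_num))

lemma clamp_of_abs {t : ℝ} (ht : |t| ≤ 2) : max (-2) (min t 2) = t := by
  have h := abs_le.mp ht
  rw [min_eq_left h.2, max_eq_right h.1]

lemma f_of_abs {t : ℝ} (ht : |t| ≤ 2) : f t = Real.pi / 2 * |ginv t| := by
  rw [f, clamp_of_abs ht]

lemma f_nonneg (t : ℝ) : 0 ≤ f t := by unfold f; positivity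

lemma f_zero : f 0 = 0 := by
  rw [f_of_abs (by simp), ginv_zero]; simp

lemma f_lip (s t : ℝ) : |f s - f t| ≤ (2 / 3) * |s - t| := by
  unfold f
  have h1 := ginv_lip (clamp_abs s) (clamp_abs t)
  have h2 : |max (-2) (min s 2) - max (-2) (min t 2)| ≤ |s - t| := by
    rw [max_comm, max_comm (-2)]
    refine (abs_max_sub_max_le_abs _ _ _).trans ?_
    refine (abs_min_sub_min_le_max _ _ _ _).trans ?_
    simp
  have h3 := abs_abs_sub_abs_le_abs_sub (ginv (max (-2) (min s 2))) (ginv (max (-2) (min t 2)))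
  rw [← mul_sub, abs_mul, abs_of_pos (by positivity : 0 < Real.pi / 2)]
  have h4 : Real.pi / 2 ≤ 2 := by linarith [Real.pi_le_four]
  calc Real.pi / 2 * |(|ginv (max (-2) (min s 2))| - |ginv (max (-2) (min t 2))|)|
      ≤ 2 * ((1/3) * |s - t|) := by
        gcongr
        linarith
    _ = (2/3) * |s - t| := by ring

lemma f_le (t : ℝ) : f t ≤ 2 := by
  unfold f
  have h1 := ginv_mem (clamp_abs t)
  have h4 : Real.pi / 2 ≤ 2 := by linarith [Real.pi_le_four]
  nlinarith [abs_nonneg (ginv (max (-2) (min t 2))), Real.pi_pos]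

lemma continuous_f : Continuous f := by
  apply LipschitzWith.continuous (K := 2/3)
  apply LipschitzWith.of_dist_le_mul
  intro s t
  rw [Real.dist_eq, Real.dist_eq]
  simpa using f_lip s t

lemma lipschitz_f : LipschitzWith (2/3) f := by
  apply LipschitzWith.of_dist_le_mul
  intro s t
  rw [Real.dist_eq, Real.dist_eq]
  simpa using f_lip s t

lemma f_even (t : ℝ) : f (-t) = f t := by
  unfold f
  have h : max (-2) (min (-t) 2) = -(max (-2) (min t 2)) := by
    rcases le_total t (-2) with h1 | h1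
    · rw [min_eq_left (by linarith : t ≤ 2), max_eq_left h1, min_eq_right (by linarith : (2:ℝ) ≤ -t),
        max_eq_right (by norm_num)]; norm_num
    · rcases le_total t 2 with h2 | h2
      · rw [min_eq_left h2, max_eq_right h1, min_eq_left (by linarith : -t ≤ 2),
          max_eq_right (by linarith)]
      · rw [min_eq_right h2, max_eq_right (by norm_num : (-2:ℝ) ≤ 2),
          min_eq_left (by linarith : -t ≤ 2), max_eq_left (by linarith)]
  rw [h, ginv_neg (clamp_abs t), abs_neg]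

/-- The domain `D = {x₁ > f(x₂)}`. -/
def D : Set ℂ := {z | f z.im < z.re}

/-- An auxiliary piece of `D`, containing `D ∩ B₂`. -/
def S : Set ℂ := {z | f z.im < z.re ∧ z.re < 3 ∧ |z.im| < 2}

lemma isOpen_D : IsOpen D :=
  isOpen_lt (continuous_f.comp Complex.continuous_im) Complex.continuous_re

lemma isOpen_S : IsOpen S := by
  have h : S = D ∩ ({z : ℂ | z.re < 3} ∩ {z : ℂ | |z.im| < 2}) := by
    ext z; simp [S, D]
  rw [h]
  exact isOpen_D.inter ((isOpen_lt Complex.continuous_re continuous_const).inter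
    (isOpen_lt Complex.continuous_im.abs continuous_const))

lemma preconnected_S : IsPreconnected S := by
  have h : S = (fun p : ℝ × ℝ => (((f p.1 + p.2 * (3 - f p.1)) : ℝ) : ℂ) + (p.1 : ℂ) * I) ''
      ((Ioo (-2:ℝ) 2) ×ˢ (Ioo (0:ℝ) 1)) := by
    ext z
    constructor
    · rintro ⟨h1, h2, h3⟩
      have h4 : 0 < 3 - f z.im := by linarith [f_le z.im]
      refine ⟨(z.im, (z.re - f z.im) / (3 - f z.im)), ⟨abs_lt.mp h3, ?_, ?_⟩, ?_⟩
      · exact div_pos (by linarith) h4
      · rw [div_lt_one h4]; linarith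
      · apply Complex.ext
        · simp only [Complex.add_re, Complex.ofReal_re, Complex.re_ofReal_mul, Complex.I_re, mul_zero,
            add_zero]
          rw [div_mul_cancel₀ _ h4.ne']; ring
        · simp only [Complex.add_im, Complex.ofReal_im, Complex.im_ofReal_mul, Complex.I_im,
            mul_one, zero_add]
    · rintro ⟨⟨t, l⟩, ⟨h1, h2⟩, rfl⟩
      have h4 : 0 < 3 - f t := by linarith [f_le t]
      simp only [S, mem_ofPred_eq, Complex.add_re, Complex.ofReal_re, Complex.re_ofReal_mul,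
        Complex.I_re, mul_zero, add_zero, Complex.add_im, Complex.ofReal_im, Complex.im_ofReal_mul,
        Complex.I_im, mul_one, zero_add]
      simp only [mem_Ioo] at h2
      refine ⟨?_, ?_, abs_lt.mpr h1⟩
      · have := mul_pos h2.1 h4; linarith
      · nlinarith
  rw [h]
  apply IsPreconnected.image
  · exact (isPreconnected_Ioo).prod isPreconnected_Ioo
  · apply Continuous.continuousOn
    have := continuous_f
    fun_prop

lemma norm_lt_of_mem_S {z : ℂ} (h : z ∈ S) : ‖z‖ < 4 := by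
  have h1 : ‖z‖ ^ 2 < 4 ^ 2 := by
    rw [← Complex.normSq_eq_norm_sq, Complex.normSq_apply]
    have h2 := h.2.2
    have h3 : z.im ^ 2 < 4 := by
      rw [← sq_abs]; nlinarith [abs_nonneg z.im]
    have h4 : 0 < z.re := (f_nonneg _).trans_lt h.1
    nlinarith [h.2.1]
  exact lt_of_pow_lt_pow_left₀ 2 (by norm_num) h1

/-- The image of the closed half disc meets `S` only at points coming from the open half disc. -/
lemma mem_H_of_phi_mem_S {η : ℂ} (h : η ∈ Hc) (hS : phi η ∈ S) : η ∈ H := by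
  constructor
  · rcases h.1.eq_or_lt with h1 | h1
    · exfalso
      have e : η = (η.im : ℂ) * I := by
        apply Complex.ext
        · simp [← h1]
        · simp
      have h2 : |η.im| ≤ 1 := (Complex.abs_im_le_norm η).trans h.2
      rw [e, phi_mul_I] at hS
      obtain ⟨h3, h4, h5⟩ := hS
      simp only [Complex.add_re, Complex.ofReal_re, Complex.re_ofReal_mul,
        Complex.I_re, mul_zero, add_zero, Complex.add_im, Complex.ofReal_im, Complex.im_ofReal_mul,
        Complex.I_im, mul_one, zero_add] at h3 h4 h5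
      rw [f_of_abs h5.le, ginv_G h2 (by linarith)] at h3
      exact lt_irrefl _ h3
    · exact h1
  · rcases h.2.eq_or_lt with h1 | h1
    · exfalso
      have h2 := norm_lt_of_mem_S hS
      have h3 : phi η = η * (4 - Complex.log η) := by unfold phi ml; ring
      rw [h3, norm_mul, h1, one_mul] at h2
      have h4 : (4 - Complex.log η).re ≤ ‖4 - Complex.log η‖ := Complex.re_le_norm _
      rw [Complex.sub_re, Complex.log_re, h1, Real.log_one] at h4
      have h5 : (4:ℂ).re = 4 := by simp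
      rw [h5] at h4
      linarith
    · exact h1

lemma isOpen_phi_H : IsOpen (phi '' H) := by
  rw [isOpen_iff_mem_nhds]
  rintro _ ⟨η, hη, rfl⟩
  have hs : η ∈ slitPlane := mem_slit hη.1.le (by
    intro h0
    have := hη.1
    rw [h0] at this
    simp at this)
  have hd : HasStrictDerivAt phi (3 - Complex.log η) η := by
    have hana : AnalyticAt ℂ phi η := by
      unfold phi ml
      exact (analyticAt_const.mul analyticAt_id).sub (analyticAt_id.mul (analyticAt_clog hs))
    have := hana.hasStrictDerivAt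
    rwa [(hasDerivAt_phi hs).deriv] at this
  have hne : 3 - Complex.log η ≠ 0 := by
    intro h0
    have := congrArg Complex.re h0
    rw [Complex.sub_re, Complex.log_re] at this
    have h7 := log_norm_nonpos hη.2.le
    have h8 : (3:ℂ).re = 3 := by simp
    rw [h8, Complex.zero_re] at this
    linarith
  rw [← hd.map_nhds_eq hne]
  exact image_mem_map (isOpen_H.mem_nhds hη)

lemma S_subset : S ⊆ phi '' H := by
  apply preconnected_S.subset_of_closure_inter_subset isOpen_phi_H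
  · -- nonempty
    refine ⟨phi ((Real.exp (-4) : ℝ) : ℂ), ?_, ?_⟩
    · have h1 : phi ((Real.exp (-4) : ℝ) : ℂ) = ((8 * Real.exp (-4) : ℝ) : ℂ) := by
        unfold phi ml
        rw [← Complex.ofReal_log (Real.exp_pos _).le, Real.log_exp]
        push_cast; ring
      rw [h1]
      have h2 : Real.exp (-4) < 1 / 4 := by
        have h3 : Real.exp (-4) * Real.exp 4 = 1 := by rw [← Real.exp_add]; simp
        have h4 : (5:ℝ) ≤ Real.exp 4 := by linarith [Real.add_one_le_exp (4:ℝ)]
        nlinarith [Real.exp_pos (-4)]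
      refine ⟨?_, ?_, ?_⟩
      · simp only [Complex.ofReal_im, Complex.ofReal_re, f_zero]
        positivity
      · simp only [Complex.ofReal_re]; linarith
      · rw [Complex.ofReal_im, abs_zero]; norm_num
    · refine ⟨_, ⟨?_, ?_⟩, rfl⟩
      · rw [Complex.ofReal_re]; exact Real.exp_pos (-4)
      · rw [Complex.norm_real, Real.norm_of_nonneg (Real.exp_pos _).le]
        exact Real.exp_lt_one_iff.mpr (by norm_num)
  · rintro z ⟨hz, hS⟩
    have h1 : closure (phi '' H) ⊆ phi '' Hc :=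
      closure_minimal (image_mono H_subset_Hc) (isCompact_Hc.image_of_continuousOn continuousOn_phi).isClosed
    obtain ⟨η, hη, rfl⟩ := h1 hz
    exact ⟨η, mem_H_of_phi_mem_S hη hS, rfl⟩

/-- Inverse of `phi` on the closed half disc. -/
def psi (z : ℂ) : ℂ := Function.invFunOn phi Hc z

lemma psi_mem {z : ℂ} (h : z ∈ phi '' Hc) : psi z ∈ Hc := Function.invFunOn_mem h

lemma phi_psi {z : ℂ} (h : z ∈ phi '' Hc) : phi (psi z) = z := Function.invFunOn_eq h

lemma psi_lip {z w : ℂ} (hz : z ∈ phi '' Hc) (hw : w ∈ phi '' Hc) :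
    3 * ‖psi z - psi w‖ ≤ ‖z - w‖ := by
  have := expand_norm (psi_mem hz) (psi_mem hw)
  rwa [phi_psi hz, phi_psi hw] at this

lemma S_subset' : S ⊆ phi '' Hc := S_subset.trans (image_mono H_subset_Hc)

lemma psi_mem_H {z : ℂ} (h : z ∈ S) : psi z ∈ H := by
  apply mem_H_of_phi_mem_S (psi_mem (S_subset' h))
  rwa [phi_psi (S_subset' h)]

lemma psi_phi {η : ℂ} (h : η ∈ Hc) : psi (phi η) = η :=
  injOn_phi (psi_mem ⟨η, h, rfl⟩) h (phi_psi ⟨η, h, rfl⟩)

/-- Boundary points with `|x₂| < 2` are images of imaginary points. -/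
lemma bdry_eq {t : ℝ} (ht : |t| ≤ 2) :
    ((f t : ℝ) : ℂ) + (t : ℂ) * I = phi ((ginv t : ℝ) * I) := by
  rw [phi_mul_I, f_of_abs ht, G_ginv (by linarith)]

lemma bdry_mem {t : ℝ} (ht : |t| ≤ 2) : ((f t : ℝ) : ℂ) + (t : ℂ) * I ∈ phi '' Hc :=
  ⟨_, mem_Hc_mul_I (ginv_mem (by linarith)), (bdry_eq ht).symm⟩

lemma psi_bdry {t : ℝ} (ht : |t| ≤ 2) :
    psi (((f t : ℝ) : ℂ) + (t : ℂ) * I) = (ginv t : ℝ) * I := by
  rw [bdry_eq ht, psi_phi (mem_Hc_mul_I (ginv_mem (by linarith)))]

lemma hasDerivAt_psi {z : ℂ} (h : z ∈ S) :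
    HasDerivAt psi (3 - Complex.log (psi z))⁻¹ z := by
  have hη := psi_mem_H h
  have hs : psi z ∈ slitPlane := mem_slit hη.1.le (by
    intro h0
    have := hη.1
    rw [h0] at this
    simp at this)
  have hne : 3 - Complex.log (psi z) ≠ 0 := by
    intro h0
    have := congrArg Complex.re h0
    rw [Complex.sub_re, Complex.log_re] at this
    have h7 := log_norm_nonpos hη.2.le
    have h8 : (3:ℂ).re = 3 := by simp
    rw [h8, Complex.zero_re] at this
    linarith
  have hcont : ContinuousAt psi z := by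
    rw [Metric.continuousAt_iff]
    intro ε hε
    obtain ⟨δ, hδ, hball⟩ := Metric.isOpen_iff.mp isOpen_S z h
    refine ⟨min δ ε, lt_min hδ hε, fun w hw => ?_⟩
    have hwS : w ∈ S := hball (lt_of_lt_of_le hw (min_le_left _ _))
    have h1 := psi_lip (S_subset' hwS) (S_subset' h)
    rw [dist_eq_norm] at hw ⊢
    have h2 := lt_of_lt_of_le hw (min_le_right _ _)
    linarith [norm_nonneg (psi w - psi z)]
  refine HasDerivAt.of_local_left_inverse hcont (hasDerivAt_phi hs) hne ?_
  filter_upwards [isOpen_S.mem_nhds h] with w hw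
  exact phi_psi (S_subset' hw)

end

end Pool.Agent.R216.FB
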