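import Pool.Agent.R216.FBEx1

/-!
The function `u` of the counterexample (MP_056161_an) and its regularity.
-/

open Complex Set Metric Filter Topology
open scoped InnerProductSpace

namespace Pool.Agent.R216.FB

noncomputable section

/-- `W₀ = x₁²/2 + (π²/8) ψ²`. -/
def W0 (z : ℂ) : ℂ := ((z.re ^ 2 / 2 : ℝ) : ℂ) + ((Real.pi ^ 2 / 8 : ℝ) : ℂ) * psi z ^ 2

open Classical in
/-- The complex gradient `∂₁u - i ∂₂u`. -/
def W (z : ℂ) : ℂ := if z ∈ D then W0 z else 0

open Classical in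
/-- The solution. -/
def u (z : ℂ) : ℝ := if z ∈ D then z.re ^ 3 / 6 - (V (psi z)).re else 0

/-- Closed version of `S`. -/
def Sc : Set ℂ := {z | f z.im ≤ z.re ∧ z.re < 3 ∧ |z.im| < 2}

lemma S_subset_Sc : S ⊆ Sc := fun _ h => ⟨h.1.le, h.2⟩

lemma Sc_subset : Sc ⊆ phi '' Hc := by
  rintro z ⟨h1, h2, h3⟩
  rcases h1.eq_or_lt with h | h
  · have e : z = ((f z.im : ℝ) : ℂ) + (z.im : ℂ) * I := by
      apply Complex.ext
      · simp [h]
      · simp
    rw [e]
    exact bdry_mem h3.le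
  · exact S_subset' ⟨h, h2, h3⟩

lemma W0_bdry {t : ℝ} (ht : |t| ≤ 2) : W0 (((f t : ℝ) : ℂ) + (t : ℂ) * I) = 0 := by
  unfold W0
  rw [psi_bdry ht]
  have e : (((f t : ℝ) : ℂ) + (t : ℂ) * I).re = f t := by simp
  have e2 : ((ginv t : ℝ) * I) ^ 2 = ((-(ginv t) ^ 2 : ℝ) : ℂ) := by
    rw [mul_pow, I_sq]; push_cast; ring
  rw [e, f_of_abs ht, e2]
  have h : (Real.pi / 2 * |ginv t|) ^ 2 / 2 = Real.pi ^ 2 / 8 * (ginv t) ^ 2 := by
    rw [mul_pow, sq_abs]; ring
  rw [h]; push_cast; ring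

lemma pi_sq_le : Real.pi ^ 2 ≤ 16 := by nlinarith [Real.pi_pos, Real.pi_le_four]

lemma W0_lip {z w : ℂ} (hz : z ∈ Sc) (hw : w ∈ Sc) : ‖W0 z - W0 w‖ ≤ 5 * ‖z - w‖ := by
  have h1 := psi_lip (Sc_subset hz) (Sc_subset hw)
  have hz1 := (psi_mem (Sc_subset hz)).2
  have hw1 := (psi_mem (Sc_subset hw)).2
  have e : W0 z - W0 w = (((z.re - w.re) * (z.re + w.re) / 2 : ℝ) : ℂ) +
      ((Real.pi ^ 2 / 8 : ℝ) : ℂ) * ((psi z - psi w) * (psi z + psi w)) := by
    unfold W0; push_cast; ring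
  rw [e]
  have h2 : |z.re - w.re| ≤ ‖z - w‖ := by
    rw [← Complex.sub_re]; exact Complex.abs_re_le_norm _
  have h3 : |z.re + w.re| ≤ 6 := by
    have a1 := (f_nonneg z.im).trans hz.1
    have a2 := (f_nonneg w.im).trans hw.1
    rw [abs_of_nonneg (by linarith)]
    linarith [hz.2.1, hw.2.1]
  have h4 : ‖psi z + psi w‖ ≤ 2 := (norm_add_le _ _).trans (by linarith)
  calc ‖(((z.re - w.re) * (z.re + w.re) / 2 : ℝ) : ℂ) +
      ((Real.pi ^ 2 / 8 : ℝ) : ℂ) * ((psi z - psi w) * (psi z + psi w))‖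
      ≤ ‖(((z.re - w.re) * (z.re + w.re) / 2 : ℝ) : ℂ)‖ +
      ‖((Real.pi ^ 2 / 8 : ℝ) : ℂ) * ((psi z - psi w) * (psi z + psi w))‖ := norm_add_le _ _
    _ = |z.re - w.re| * |z.re + w.re| / 2 + Real.pi ^ 2 / 8 * (‖psi z - psi w‖ * ‖psi z + psi w‖) := by
        rw [Complex.norm_real, norm_mul, Complex.norm_real, norm_mul, Real.norm_eq_abs,
          Real.norm_eq_abs, abs_div, abs_mul, abs_of_pos (by norm_num : (0:ℝ) < 2),
          abs_of_nonneg (by positivity : 0 ≤ Real.pi ^ 2 / 8)]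
    _ ≤ ‖z - w‖ * 6 / 2 + 2 * ((‖z - w‖ / 3) * 2) := by
        have h5 : ‖psi z - psi w‖ ≤ ‖z - w‖ / 3 := by linarith
        gcongr
        · linarith [pi_sq_le]
    _ ≤ 5 * ‖z - w‖ := by linarith [norm_nonneg (z - w)]

lemma mem_S_of_ball {z : ℂ} (hz : z ∈ ball (0:ℂ) 2) (hD : z ∈ D) : z ∈ S := by
  have h : ‖z‖ < 2 := by simpa using hz
  refine ⟨hD, ?_, ?_⟩
  · have := (Complex.re_le_norm z); linarith
  · exact (Complex.abs_im_le_norm z).trans_lt h

/-- horizontal foot point of `z` on the curve -/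
def foot (z : ℂ) : ℂ := ((f z.im : ℝ) : ℂ) + (z.im : ℂ) * I

lemma foot_mem {z : ℂ} (h : z ∈ S) : foot z ∈ Sc := by
  unfold foot
  refine ⟨?_, ?_, ?_⟩
  · simp
  · have := f_le z.im
    simp only [Complex.add_re, Complex.ofReal_re, Complex.re_ofReal_mul, Complex.I_re, mul_zero,
            add_zero]
    linarith
  · simpa using h.2.2

lemma W0_foot {z : ℂ} (h : z ∈ S) : W0 (foot z) = 0 := W0_bdry h.2.2.le

lemma norm_sub_foot {z : ℂ} (h : z ∈ D) : ‖z - foot z‖ = z.re - f z.im := by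
  have e : z - foot z = ((z.re - f z.im : ℝ) : ℂ) := by
    unfold foot
    apply Complex.ext <;> simp
  rw [e, Complex.norm_real, Real.norm_of_nonneg (by have : f z.im < z.re := h; linarith)]

lemma gap_le {z w : ℂ} (hw : w ∉ D) : z.re - f z.im ≤ 2 * ‖z - w‖ := by
  have h1 : w.re ≤ f w.im := not_lt.mp hw
  have h2 := f_lip w.im z.im
  have h3 : |w.im - z.im| ≤ ‖z - w‖ := by
    rw [← Complex.sub_im, norm_sub_rev]; exact Complex.abs_im_le_norm _
  have h4 : z.re - w.re ≤ ‖z - w‖ := by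
    rw [← Complex.sub_re]; exact Complex.re_le_norm _
  have h5 := le_abs_self (f w.im - f z.im)
  linarith [norm_nonneg (z - w)]

lemma W_mixed {z w : ℂ} (hz : z ∈ ball (0:ℂ) 2) (hD : z ∈ D) (hw : w ∉ D) :
    ‖W0 z‖ ≤ 10 * ‖z - w‖ := by
  have hS := mem_S_of_ball hz hD
  have h1 := W0_lip (S_subset_Sc hS) (foot_mem hS)
  rw [W0_foot hS, sub_zero, norm_sub_foot hD] at h1
  have := gap_le (z := z) hw
  linarith

lemma W_lip {z w : ℂ} (hz : z ∈ ball (0:ℂ) 2) (hw : w ∈ ball (0:ℂ) 2) :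
    ‖W z - W w‖ ≤ 10 * ‖z - w‖ := by
  unfold W
  by_cases h1 : z ∈ D <;> by_cases h2 : w ∈ D
  · rw [if_pos h1, if_pos h2]
    have := W0_lip (S_subset_Sc (mem_S_of_ball hz h1)) (S_subset_Sc (mem_S_of_ball hw h2))
    linarith [norm_nonneg (z - w)]
  · rw [if_pos h1, if_neg h2, sub_zero]
    exact W_mixed hz h1 h2
  · rw [if_neg h1, if_pos h2, zero_sub, norm_neg, norm_sub_rev]
    exact W_mixed hw h2 h1
  · rw [if_neg h1, if_neg h2]
    simp

/-- The real-linear functional `h ↦ Re (c h)`. -/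
def L (c : ℂ) : ℂ →L[ℝ] ℝ := Complex.reCLM.comp (ContinuousLinearMap.mul ℝ ℂ c)

lemma L_apply (c h : ℂ) : L c h = (c * h).re := rfl

lemma L_zero : L 0 = 0 := by
  ext h
  simp [L_apply]

lemma L_sub (c d : ℂ) : L c - L d = L (c - d) := by
  ext h
  simp only [sub_apply, L_apply, sub_mul, Complex.sub_re]

lemma norm_L_le (c : ℂ) : ‖L c‖ ≤ ‖c‖ := by
  apply ContinuousLinearMap.opNorm_le_bound _ (norm_nonneg _)
  intro h
  rw [L_apply, Real.norm_eq_abs, ← norm_mul]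
  exact Complex.abs_re_le_norm _

/-- interior formula -/
def u0 (z : ℂ) : ℝ := z.re ^ 3 / 6 - (V (psi z)).re

lemma hasDerivAt_Vpsi {z : ℂ} (h : z ∈ S) :
    HasDerivAt (fun z => V (psi z)) (-((Real.pi : ℂ) ^ 2 / 8) * psi z ^ 2) z := by
  have hη := psi_mem_H h
  have hs : psi z ∈ slitPlane := mem_slit hη.1.le (by
    intro h0
    have := hη.1
    rw [h0] at this
    simp at this)
  have hne : 3 - Complex.log (psi z) ≠ 0 := by
    intro h0
    have := congrArg Complex.re h0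
    rw [Complex.sub_re, Complex.log_re] at this
    have h7 := log_norm_nonpos hη.2.le
    have h8 : (3:ℂ).re = 3 := by simp
    rw [h8, Complex.zero_re] at this
    linarith
  have h1 := (hasDerivAt_V hs).comp z (hasDerivAt_psi h)
  refine h1.congr_deriv ?_
  field_simp

lemma hasFDerivAt_u0 {z : ℂ} (h : z ∈ S) : HasFDerivAt u0 (L (W0 z)) z := by
  have h1 : HasFDerivAt (fun z : ℂ => z.re ^ 3 / 6) ((z.re ^ 2 / 2) • Complex.reCLM) z := by
    have h2 : HasFDerivAt (fun z : ℂ => z.re) Complex.reCLM z := Complex.reCLM.hasFDerivAt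
    have h3 : HasDerivAt (fun x : ℝ => x ^ 3 / 6) (z.re ^ 2 / 2) z.re := by
      refine ((hasDerivAt_pow 3 z.re).div_const 6).congr_deriv ?_
      push_cast; ring
    exact h3.comp_hasFDerivAt z h2
  have h2 : HasFDerivAt (fun z => (V (psi z)).re) (L (-((Real.pi : ℂ) ^ 2 / 8) * psi z ^ 2)) z := by
    have h3 := (hasDerivAt_Vpsi h).hasFDerivAt.restrictScalars ℝ
    have h4 := Complex.reCLM.hasFDerivAt.comp z h3
    refine h4.congr_fderiv ?_
    ext x
    show (x * (-((Real.pi : ℂ) ^ 2 / 8) * psi z ^ 2)).re = ((-((Real.pi : ℂ) ^ 2 / 8) * psi z ^ 2) * x).re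
    rw [mul_comm]
  have h3 := h1.sub h2
  refine h3.congr_fderiv ?_
  ext x
  show z.re ^ 2 / 2 * x.re - ((-((Real.pi : ℂ) ^ 2 / 8) * psi z ^ 2) * x).re = (W0 z * x).re
  have e : W0 z * x = ((z.re ^ 2 / 2 : ℝ) : ℂ) * x - (-((Real.pi : ℂ) ^ 2 / 8) * psi z ^ 2) * x := by
    unfold W0; push_cast; ring
  rw [e, Complex.sub_re, Complex.re_ofReal_mul]

lemma u_eq_u0 {z : ℂ} (h : z ∈ D) : u z = u0 z := by
  unfold u u0; rw [if_pos h]

lemma u_eq_zero {z : ℂ} (h : z ∉ D) : u z = 0 := by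
  unfold u; rw [if_neg h]

lemma hasFDerivAt_u_D {z : ℂ} (hz : z ∈ ball (0:ℂ) 2) (h : z ∈ D) :
    HasFDerivAt u (L (W z)) z := by
  have e : W z = W0 z := by unfold W; rw [if_pos h]
  rw [e]
  refine (hasFDerivAt_u0 (mem_S_of_ball hz h)).congr_of_eventuallyEq ?_
  filter_upwards [isOpen_D.mem_nhds h] with w hw
  exact u_eq_u0 hw

/-- quadratic bound -/
lemma u_bound {z : ℂ} (hz : z ∈ S) : |u0 z| ≤ 5 * (z.re - f z.im) ^ 2 := by
  set t := z.im with ht
  have hlt : f t < z.re := hz.1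
  set q : ℝ → ℂ := fun x => (x : ℂ) + (t : ℂ) * I with hq
  have hqS : ∀ x ∈ Ioc (f t) z.re, q x ∈ S := by
    intro x hx
    refine ⟨?_, ?_, ?_⟩
    · simpa [hq] using hx.1
    · have := hx.2
      have h2 := hz.2.1
      simp only [hq, Complex.add_re, Complex.ofReal_re, Complex.re_ofReal_mul, Complex.I_re,
        mul_zero, add_zero]
      linarith
    · simpa [hq] using hz.2.2
  have hqSc : ∀ x ∈ Icc (f t) z.re, q x ∈ Sc := by
    intro x hx
    rcases hx.1.eq_or_lt with h | h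
    · have e : q x = foot z := by simp only [hq, foot, ← h, ← ht]
      rw [e]; exact foot_mem hz
    · exact S_subset_Sc (hqS x ⟨h, hx.2⟩)
  have hqc : Continuous q := by
    simp only [hq]; fun_prop
  have hpsic : ContinuousOn psi Sc := by
    apply LipschitzOnWith.continuousOn (K := 1)
    apply LipschitzOnWith.of_dist_le_mul
    intro a ha b hb
    rw [dist_eq_norm, dist_eq_norm]
    have := psi_lip (Sc_subset ha) (Sc_subset hb)
    have h2 := norm_nonneg (psi a - psi b)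
    simp only [NNReal.coe_one, one_mul]
    linarith
  have hcont : ContinuousOn (fun x => u0 (q x)) (Icc (f t) z.re) := by
    unfold u0
    apply ContinuousOn.sub
    · exact ((Complex.continuous_re.comp hqc).pow 3).continuousOn.div_const 6
    · apply Complex.continuous_re.comp_continuousOn
      apply continuousOn_V.comp (hpsic.comp hqc.continuousOn hqSc)
      intro x hx
      exact psi_mem (Sc_subset (hqSc x hx))
  have hder : ∀ x ∈ Ioo (f t) z.re, HasDerivAt (fun x => u0 (q x)) (W0 (q x)).re x := by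
    intro x hx
    have h1 : HasDerivAt q 1 x := by
      have h3 : HasDerivAt (fun t : ℝ => (t:ℂ)) 1 x := Complex.ofRealCLM.hasDerivAt
      exact h3.add_const _
    have h2 := (hasFDerivAt_u0 (hqS x ⟨hx.1, hx.2.le⟩)).comp_hasDerivAt x h1
    refine h2.congr_deriv ?_
    rw [L_apply, mul_one]
  obtain ⟨c, hc, hceq⟩ := exists_hasDerivAt_eq_slope (fun x => u0 (q x)) _ hlt hcont hder
  have e0 : u0 (q (f t)) = 0 := by
    have : q (f t) = ((f t : ℝ) : ℂ) + (t : ℂ) * I := rfl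
    rw [this]
    unfold u0
    rw [psi_bdry (by simpa [ht] using hz.2.2.le), re_V_mul_I]
    have e : (((f t : ℝ) : ℂ) + (t : ℂ) * I).re = f t := by simp
    rw [e, f_of_abs (by simpa [ht] using hz.2.2.le)]
    ring
  have e1 : q z.re = z := by
    simp only [hq, ht]; exact Complex.re_add_im z
  rw [e0, e1, sub_zero] at hceq
  have h5 : u0 z = (W0 (q c)).re * (z.re - f t) := by
    rw [hceq, div_mul_cancel₀ _ (by linarith)]
  have hcS : q c ∈ S := hqS c ⟨hc.1, hc.2.le⟩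
  have h6 := W0_lip (S_subset_Sc hcS) (foot_mem hcS)
  rw [W0_foot hcS, sub_zero, norm_sub_foot hcS.1] at h6
  have e2 : (q c).re = c := by simp [hq]
  have e3 : (q c).im = t := by simp [hq]
  rw [e2, e3] at h6
  rw [h5, abs_mul, abs_of_pos (by linarith : 0 < z.re - f t)]
  have h7 : |(W0 (q c)).re| ≤ 5 * (z.re - f t) :=
    (Complex.abs_re_le_norm _).trans (h6.trans (by linarith [hc.2]))
  calc |(W0 (q c)).re| * (z.re - f t) ≤ 5 * (z.re - f t) * (z.re - f t) := by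
        apply mul_le_mul_of_nonneg_right h7 (by linarith)
    _ = 5 * (z.re - f t) ^ 2 := by ring

lemma hasFDerivAt_u_not {z : ℂ} (hz : z ∈ ball (0:ℂ) 2) (h : z ∉ D) :
    HasFDerivAt u (L (W z)) z := by
  have e : W z = 0 := by unfold W; rw [if_neg h]
  rw [e, L_zero]
  apply Asymptotics.IsBigO.hasFDerivAt (n := 2) _ (by norm_num)
  apply Asymptotics.IsBigO.of_bound 20
  filter_upwards [isOpen_ball.mem_nhds hz] with w hw
  by_cases hwD : w ∈ D
  · rw [u_eq_u0 hwD, Real.norm_eq_abs, norm_pow, norm_norm]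
    have h1 := u_bound (mem_S_of_ball hw hwD)
    have h2 := gap_le (z := w) h
    have h3 : 0 ≤ w.re - f w.im := by have : f w.im < w.re := hwD; linarith
    nlinarith
  · rw [u_eq_zero hwD, norm_zero]
    positivity

lemma hasFDerivAt_u {z : ℂ} (hz : z ∈ ball (0:ℂ) 2) : HasFDerivAt u (L (W z)) z := by
  by_cases h : z ∈ D
  · exact hasFDerivAt_u_D hz h
  · exact hasFDerivAt_u_not hz h

lemma lipschitz_fderiv_u : LipschitzOnWith 10 (fderiv ℝ u) (ball (0:ℂ) 2) := by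
  apply LipschitzOnWith.of_dist_le_mul
  intro z hz w hw
  rw [(hasFDerivAt_u hz).fderiv, (hasFDerivAt_u hw).fderiv, dist_eq_norm, L_sub, dist_eq_norm]
  exact (norm_L_le _).trans (W_lip hz hw)

end

end Pool.Agent.R216.FB
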