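import Pool.Agent.R216.FBEx2

/-!
Laplacian, boundary and its regularity for the counterexample (MP_056161_an).
-/

open Complex Set Metric Filter Topology MeasureTheory
open scoped InnerProductSpace Laplacian ContDiff

namespace Pool.Agent.R216.FB

noncomputable section

lemma frontier_D : frontier D = {z : ℂ | z.re = f z.im} := by
  rw [frontier, isOpen_D.interior_eq]
  ext z
  constructor
  · rintro ⟨h1, h2⟩
    have h3 : closure D ⊆ {z : ℂ | f z.im ≤ z.re} :=
      closure_minimal (fun w (hw : f w.im < w.re) => show f w.im ≤ w.re from hw.le)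
        (isClosed_le (continuous_f.comp Complex.continuous_im) Complex.continuous_re)
    exact le_antisymm (not_lt.mp h2) (h3 h1)
  · intro h
    have h' : z.re = f z.im := h
    refine ⟨?_, ?_⟩
    · rw [Metric.mem_closure_iff]
      intro ε hε
      refine ⟨z + ((ε / 2 : ℝ) : ℂ), ?_, ?_⟩
      · show f (z + ((ε / 2 : ℝ) : ℂ)).im < (z + ((ε / 2 : ℝ) : ℂ)).re
        rw [Complex.add_im, Complex.ofReal_im, add_zero, Complex.add_re, Complex.ofReal_re, ← h']
        linarith
      · rw [dist_eq_norm, sub_add_cancel_left, norm_neg, Complex.norm_real,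
          Real.norm_of_nonneg (by positivity)]
        linarith
    · intro h2
      have h2' : f z.im < z.re := h2
      linarith

lemma volume_frontier_D : volume (frontier D) = 0 := by
  rw [frontier_D]
  set s : Set (ℝ × ℝ) := {p | p.1 = f p.2} with hs
  have hsm : MeasurableSet s :=
    measurableSet_eq_fun measurable_fst (continuous_f.measurable.comp measurable_snd)
  have h1 : {z : ℂ | z.re = f z.im} = Complex.measurableEquivRealProd ⁻¹' s := by
    ext z; simp [hs, Complex.measurableEquivRealProd_apply]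
  rw [h1, Complex.volume_preserving_equiv_real_prod.measure_preimage hsm.nullMeasurableSet,
    MeasureTheory.Measure.volume_eq_prod, MeasureTheory.Measure.prod_apply_symm hsm]
  have h2 : ∀ y : ℝ, volume ((fun x : ℝ => (x, y)) ⁻¹' s) = 0 := by
    intro y
    have : (fun x : ℝ => (x, y)) ⁻¹' s = {f y} := by
      ext x; simp [hs]
    rw [this]; simp
  simp [h2]

/-- `x₁³/6` -/
def cube (w : ℂ) : ℝ := w.re ^ 3 / 6

lemma laplacian_cube (z : ℂ) : Δ cube z = z.re := by
  rw [InnerProductSpace.laplacian_eq_iteratedFDeriv_complexPlane]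
  have h1 : fderiv ℝ cube = fun w : ℂ => (w.re ^ 2 / 2) • Complex.reCLM := by
    funext w
    have h2 : HasFDerivAt (fun z : ℂ => z.re) Complex.reCLM w := Complex.reCLM.hasFDerivAt
    have h3 : HasDerivAt (fun x : ℝ => x ^ 3 / 6) (w.re ^ 2 / 2) w.re := by
      refine ((hasDerivAt_pow 3 w.re).div_const 6).congr_deriv ?_
      push_cast; ring
    exact (h3.comp_hasFDerivAt w h2).fderiv
  have h4 : HasFDerivAt (fun w : ℂ => (w.re ^ 2 / 2) • Complex.reCLM)
      ((z.re • Complex.reCLM).smulRight Complex.reCLM) z := by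
    have h2 : HasFDerivAt (fun z : ℂ => z.re) Complex.reCLM z := Complex.reCLM.hasFDerivAt
    have h3 : HasDerivAt (fun x : ℝ => x ^ 2 / 2) z.re z.re := by
      refine ((hasDerivAt_pow 2 z.re).div_const 2).congr_deriv ?_
      push_cast; ring
    have h5 : HasFDerivAt (fun w : ℂ => w.re ^ 2 / 2) (z.re • Complex.reCLM) z :=
      h3.comp_hasFDerivAt z h2
    exact h5.smul_const (Complex.reCLM)
  simp only [iteratedFDeriv_two_apply]
  rw [h1, h4.fderiv]
  simp

lemma laplacian_u_D {z : ℂ} (hz : z ∈ ball (0:ℂ) 2) (h : z ∈ D) : Δ u z = z.re := by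
  have hS := mem_S_of_ball hz h
  have hana : AnalyticAt ℂ (fun z => V (psi z)) z := by
    apply DifferentiableOn.analyticAt (s := S) _ (isOpen_S.mem_nhds hS)
    intro w hw
    exact (hasDerivAt_Vpsi hw).differentiableAt.differentiableWithinAt
  have hharm := hana.harmonicAt_re
  set vv : ℂ → ℝ := fun z => (V (psi z)).re with hvv
  have hharm' : InnerProductSpace.HarmonicAt vv z := hharm
  have h0 : Δ vv z = 0 := hharm'.2.self_of_nhds
  have h1 : u =ᶠ[𝓝 z] cube - vv := by
    filter_upwards [isOpen_D.mem_nhds h] with w hw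
    rw [u_eq_u0 hw]; rfl
  have hc : ContDiff ℝ 2 cube := by
    have h2 : ContDiff ℝ 2 (fun w : ℂ => w.re) := Complex.reCLM.contDiff
    exact (h2.pow 3).div_const 6
  rw [(InnerProductSpace.laplacian_congr_nhds h1).self_of_nhds,
    hc.contDiffAt.laplacian_sub hharm'.1, h0, sub_zero, laplacian_cube]

lemma laplacian_u_out {z : ℂ} (h : z ∉ closure D) : Δ u z = 0 := by
  have h1 : u =ᶠ[𝓝 z] (fun _ => (0:ℝ)) := by
    filter_upwards [isClosed_closure.isOpen_compl.mem_nhds h] with w hw
    exact u_eq_zero (fun hD => hw (subset_closure hD))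
  rw [(InnerProductSpace.laplacian_congr_nhds h1).self_of_nhds]
  simp

lemma laplacian_u_ae : ∀ᵐ z : ℂ, z ∈ ball (0:ℂ) 2 → Δ u z = D.indicator (fun w => w.re) z := by
  have h1 : ∀ᵐ z : ℂ, z ∉ frontier D := by
    rw [ae_iff]
    simpa using volume_frontier_D
  filter_upwards [h1] with z hz hb
  by_cases h : z ∈ D
  · rw [indicator_of_mem h, laplacian_u_D hb h]
  · rw [indicator_of_notMem h]
    apply laplacian_u_out
    intro hc
    apply hz
    rw [frontier, isOpen_D.interior_eq]
    exact ⟨hc, h⟩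

/-! ### The curve is `C¹` -/

/-- `f` is monotone in `|t|`. -/
lemma f_mono {s t : ℝ} (h : |s| ≤ |t|) : f s ≤ f t := by
  have key : ∀ r : ℝ, f r = Real.pi / 2 * ginv (min |r| 2) := by
    intro r
    have h1 : f r = f |r| := by
      rcases abs_cases r with ⟨h, _⟩ | ⟨h, _⟩
      · rw [h]
      · rw [h, f_even]
    rw [h1, f]
    have h2 : 0 ≤ min |r| 2 := le_min (abs_nonneg r) (by norm_num)
    have h3 : min |r| 2 ≤ 2 := min_le_right _ _
    rw [max_eq_right (by linarith)]
    have h4 : 0 ≤ ginv (min |r| 2) := by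
      rw [← ginv_zero]
      apply ginv_mono (by simp) _ h2
      rw [abs_of_nonneg h2]; linarith
    rw [abs_of_nonneg h4]
  rw [key s, key t]
  have h2 : 0 ≤ min |s| 2 := le_min (abs_nonneg s) (by norm_num)
  have h3 : min |s| 2 ≤ 2 := min_le_right _ _
  have h4 : 0 ≤ min |t| 2 := le_min (abs_nonneg t) (by norm_num)
  have h5 : min |t| 2 ≤ 2 := min_le_right _ _
  apply mul_le_mul_of_nonneg_left _ (by positivity)
  apply ginv_mono
  · rw [abs_of_nonneg h2]; linarith
  · rw [abs_of_nonneg h4]; linarith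
  · exact min_le_min_right 2 h

lemma continuousAt_ginv {t : ℝ} (ht : |t| < 2) : ContinuousAt ginv t := by
  rw [Metric.continuousAt_iff]
  intro ε hε
  refine ⟨min (2 - |t|) ε, lt_min (by linarith) hε, fun w hw => ?_⟩
  rw [Real.dist_eq] at hw ⊢
  have h1 := lt_of_lt_of_le hw (min_le_left _ _)
  have h2 := lt_of_lt_of_le hw (min_le_right _ _)
  have h3 : |w| < 2 := by
    have := abs_sub_abs_le_abs_sub w t
    linarith
  have h4 := ginv_lip (s := w) (t := t) (by linarith) (by linarith)
  have := abs_nonneg (ginv w - ginv t)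
  linarith

lemma ginv_ne_zero {t : ℝ} (ht : |t| < 2) (h0 : t ≠ 0) : ginv t ≠ 0 := by
  intro h
  apply h0
  have := G_ginv (t := t) (by linarith)
  rw [h, G_zero] at this
  exact this.symm

lemma tendsto_inv_log (c : ℝ) : Tendsto (fun s : ℝ => (c - Real.log |s|)⁻¹) (𝓝[≠] 0) (𝓝 0) := by
  apply Tendsto.inv_tendsto_atTop
  have h1 : Tendsto (fun s : ℝ => Real.log |s|) (𝓝[≠] 0) atBot := by
    simpa [Real.log_abs] using Real.tendsto_log_nhdsNE_zero
  have h2 := tendsto_neg_atBot_atTop.comp h1
  have h3 := tendsto_atTop_add_const_left (𝓝[≠] (0:ℝ)) c h2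
  refine h3.congr (fun s => ?_)
  simp only [Function.comp]; ring

/-- derivative of `f` as a function of the parameter -/
def κ (s : ℝ) : ℝ := Real.pi / 2 * ((SignType.sign s : ℝ) * (3 - Real.log |s|)⁻¹)

lemma κ_zero : κ 0 = 0 := by simp [κ]

lemma continuousAt_κ {s : ℝ} (hs : |s| ≤ 1) : ContinuousAt κ s := by
  by_cases h0 : s = 0
  · subst h0
    rw [continuousAt_iff_punctured_nhds, κ_zero]
    have h1 := (tendsto_inv_log 3).const_mul (Real.pi / 2)
    rw [mul_zero] at h1
    apply squeeze_zero_norm' _ (h1.norm.trans (by simp))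
    filter_upwards with s
    unfold κ
    rw [norm_mul, norm_mul, norm_mul]
    have : ‖(SignType.sign s : ℝ)‖ ≤ 1 := by
      rcases lt_trichotomy s 0 with h | h | h <;> simp [h]
    gcongr
    calc ‖(SignType.sign s : ℝ)‖ * ‖(3 - Real.log |s|)⁻¹‖ ≤ 1 * ‖(3 - Real.log |s|)⁻¹‖ := by
          gcongr
      _ = _ := one_mul _
  · have hl : 3 - Real.log |s| ≠ 0 := by
      have := Real.log_nonpos (abs_nonneg s) hs
      linarith
    have h1 : ContinuousAt (fun s : ℝ => (3 - Real.log |s|)⁻¹) s := by
      have h2 : ContinuousAt (fun s : ℝ => 3 - Real.log |s|) s := by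
        apply continuousAt_const.sub
        exact ContinuousAt.comp (f := fun s : ℝ => |s|) (g := Real.log)
          (Real.continuousAt_log (abs_ne_zero.mpr h0)) continuous_abs.continuousAt
      exact h2.inv₀ hl
    rcases lt_or_gt_of_ne h0 with h | h
    · have h2 : κ =ᶠ[𝓝 s] fun s => Real.pi / 2 * ((-1) * (3 - Real.log |s|)⁻¹) := by
        filter_upwards [isOpen_Iio.mem_nhds h] with r hr
        unfold κ
        rw [sign_neg hr]; simp
      exact (continuousAt_const.mul (continuousAt_const.mul h1)).congr h2.symm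
    · have h2 : κ =ᶠ[𝓝 s] fun s => Real.pi / 2 * (1 * (3 - Real.log |s|)⁻¹) := by
        filter_upwards [isOpen_Ioi.mem_nhds h] with r hr
        unfold κ
        rw [sign_pos hr]; simp
      exact (continuousAt_const.mul (continuousAt_const.mul h1)).congr h2.symm

lemma hasDerivAt_f {t : ℝ} (ht : |t| < 2) : HasDerivAt f (κ (ginv t)) t := by
  have hev : ∀ᶠ r in 𝓝 t, |r| < 2 :=
    (isOpen_lt continuous_abs continuous_const).mem_nhds ht
  have hfe : f =ᶠ[𝓝 t] fun r => Real.pi / 2 * |ginv r| := by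
    filter_upwards [hev] with r hr
    exact f_of_abs hr.le
  by_cases h0 : t = 0
  · subst h0
    rw [ginv_zero, κ_zero, hasDerivAt_iff_tendsto_slope]
    have hg : Tendsto ginv (𝓝[≠] 0) (𝓝[≠] 0) := by
      apply tendsto_nhdsWithin_of_tendsto_nhds_of_eventually_within
      · have := (continuousAt_ginv (t := 0) (by simp)).tendsto
        rw [ginv_zero] at this
        exact this.mono_left nhdsWithin_le_nhds
      · have h1 : ∀ᶠ r in 𝓝[≠] (0:ℝ), |r| < 2 := hev.filter_mono nhdsWithin_le_nhds
        filter_upwards [h1, self_mem_nhdsWithin] with r hr hr0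
        exact ginv_ne_zero hr hr0
    have h1 := ((tendsto_inv_log 4).comp hg).const_mul (Real.pi / 2)
    rw [mul_zero] at h1
    apply squeeze_zero_norm' _ (h1.norm.trans (by simp))
    have h2 : ∀ᶠ r in 𝓝[≠] (0:ℝ), |r| < 2 := hev.filter_mono nhdsWithin_le_nhds
    filter_upwards [h2, self_mem_nhdsWithin] with r hr hr0
    have hr0' : r ≠ 0 := hr0
    have hG := G_ginv (t := r) (by linarith)
    have hne := ginv_ne_zero hr hr0'
    rw [slope_def_field, f_zero, f_of_abs hr.le, sub_zero, sub_zero]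
    simp only [Function.comp, norm_mul, norm_div, norm_inv, Real.norm_eq_abs]
    have hr1 : |r| = |ginv r| * |4 - Real.log (|ginv r|)| := by
      rw [← abs_mul]
      conv_lhs => rw [← hG]
      rfl
    have h3 : |ginv r| ≠ 0 := abs_ne_zero.mpr hne
    have key : ∀ a x y : ℝ, x ≠ 0 → a * x / (x * y) = a * y⁻¹ := by
      intro a x y hx
      rw [mul_comm x y, mul_div_mul_right _ _ hx, div_eq_mul_inv]
    rw [abs_abs, hr1, key _ _ _ h3]
  · have hne := ginv_ne_zero ht h0
    have hl : 3 - Real.log |ginv t| ≠ 0 := by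
      have := Real.log_nonpos (abs_nonneg _) (ginv_mem (t := t) (by linarith))
      linarith
    have h1 : HasDerivAt ginv (3 - Real.log |ginv t|)⁻¹ t := by
      refine HasDerivAt.of_local_left_inverse (continuousAt_ginv ht) (hasDerivAt_G hne) hl ?_
      filter_upwards [hev] with r hr
      exact G_ginv (by linarith)
    have h2 : HasDerivAt (fun r => |ginv r|) ((SignType.sign (ginv t) : ℝ) * (3 - Real.log |ginv t|)⁻¹) t :=
      (hasDerivAt_abs hne).comp t h1
    exact (h2.const_mul (Real.pi / 2)).congr_of_eventuallyEq hfe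

lemma contDiffOn_f : ContDiffOn ℝ 1 f (Ioo (-1:ℝ) 1) := by
  have habs : ∀ t ∈ Ioo (-1:ℝ) 1, |t| < 2 := fun t ht => by
    have := abs_lt.mpr ht; linarith
  rw [show (1 : WithTop ℕ∞) = 0 + 1 from rfl, contDiffOn_succ_iff_deriv_of_isOpen isOpen_Ioo]
  refine ⟨fun t ht => (hasDerivAt_f (habs t ht)).differentiableAt.differentiableWithinAt,
    by simp, ?_⟩
  rw [contDiffOn_zero]
  have h1 : ContinuousOn (fun t => κ (ginv t)) (Ioo (-1:ℝ) 1) := by
    intro t ht
    apply ContinuousAt.continuousWithinAt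
    exact ContinuousAt.comp (f := ginv) (g := κ)
      (continuousAt_κ (ginv_mem (by linarith [habs t ht]))) (continuousAt_ginv (habs t ht))
  exact h1.congr (fun t ht => (hasDerivAt_f (habs t ht)).deriv)

end

end Pool.Agent.R216.FB
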