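import Mathlib

/-!
Functional calculus part: `e^{-tH}` as a continuous function of the resolvent `R = (H+1)⁻¹`.
-/

set_option autoImplicit false
open Set Filter Topology MeasureTheory

namespace Pool.Agent.R216.HK

/-- `s ↦ (1/s - 1)^j exp(-t(1/s-1))` for `s > 0`, and `0` otherwise. -/
noncomputable def gp (j : ℕ) (t s : ℝ) : ℝ :=
  if 0 < s then (1 / s - 1) ^ j * Real.exp (-(t * (1 / s - 1))) else 0

lemma gp_tendsto (j : ℕ) {t : ℝ} (ht : 0 < t) : Tendsto (gp j t) (𝓝[>] 0) (𝓝 0) := by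
  have h1 : Tendsto (fun s : ℝ => 1 / s - 1) (𝓝[>] 0) atTop := by
    have := tendsto_inv_nhdsGT_zero (𝕜 := ℝ)
    have h2 := tendsto_atTop_add_const_right _ (-1 : ℝ) this
    refine h2.congr fun s => ?_
    rw [one_div]; ring
  have h2 : Tendsto (fun s : ℝ => t * (1 / s - 1)) (𝓝[>] 0) atTop := h1.const_mul_atTop ht
  have h3 := (Real.tendsto_pow_mul_exp_neg_atTop_nhds_zero j).comp h2
  have h4 : Tendsto (fun s : ℝ => (t ^ j)⁻¹ * ((t * (1 / s - 1)) ^ j * Real.exp (-(t * (1 / s - 1)))))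
      (𝓝[>] 0) (𝓝 ((t ^ j)⁻¹ * 0)) := h3.const_mul _
  rw [mul_zero] at h4
  refine h4.congr' ?_
  filter_upwards [self_mem_nhdsWithin] with s hs
  have hs' : (0:ℝ) < s := hs
  have htj : t ^ j ≠ 0 := by positivity
  rw [gp, if_pos hs', mul_pow]
  field_simp

lemma gp_continuous (j : ℕ) {t : ℝ} (ht : 0 < t) : Continuous (gp j t) := by
  rw [continuous_iff_continuousAt]
  intro s
  rcases lt_trichotomy s 0 with hs | hs | hs
  · have : gp j t =ᶠ[𝓝 s] fun _ => 0 := by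
      filter_upwards [gt_mem_nhds hs] with x hx
      rw [gp, if_neg (not_lt.2 (le_of_lt hx))]
    exact (continuousAt_const).congr this.symm
  · subst hs
    have h0 : gp j t 0 = 0 := by simp [gp]
    have h1 : Tendsto (gp j t) (𝓝[≤] 0) (𝓝 0) := by
      refine (tendsto_const_nhds (x := (0:ℝ))).congr' ?_
      filter_upwards [self_mem_nhdsWithin] with x hx
      have hx' : x ≤ 0 := hx
      rw [gp, if_neg (not_lt.2 hx')]
    have h2 := h1.sup (gp_tendsto j ht)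
    rw [nhdsLE_sup_nhdsGT] at h2
    rw [ContinuousAt, h0]
    exact h2
  · have : gp j t =ᶠ[𝓝 s] fun x => (1 / x - 1) ^ j * Real.exp (-(t * (1 / x - 1))) := by
      filter_upwards [lt_mem_nhds hs] with x hx
      rw [gp, if_pos hx]
    refine ContinuousAt.congr ?_ this.symm
    have hs0 : s ≠ 0 := hs.ne'
    fun_prop (disch := assumption)

lemma gp_nonneg (j : ℕ) {t s : ℝ} (hs : s ∈ Icc (0:ℝ) 1) : 0 ≤ gp j t s := by
  rw [gp]
  split_ifs with h
  · have : 0 ≤ 1 / s - 1 := by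
      rw [sub_nonneg, le_div_iff₀ h]; linarith [hs.2]
    positivity
  · exact le_rfl

lemma gp_le (j : ℕ) {t s : ℝ} (ht : 0 < t) (hs : s ∈ Icc (0:ℝ) 1) :
    gp j t s ≤ (j.factorial : ℝ) / t ^ j := by
  rw [gp]
  split_ifs with h
  · have hy : 0 ≤ 1 / s - 1 := by
      rw [sub_nonneg, le_div_iff₀ h]; linarith [hs.2]
    have h1 := Real.pow_div_factorial_le_exp (t * (1 / s - 1)) (by positivity) j
    have hf : (0:ℝ) < (j.factorial : ℝ) := by exact_mod_cast Nat.factorial_pos j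
    have htj : (0:ℝ) < t ^ j := by positivity
    rw [Real.exp_neg, le_div_iff₀ htj]
    rw [div_le_iff₀ hf] at h1
    have he := Real.exp_pos (t * (1 / s - 1))
    rw [mul_pow] at h1
    calc (1 / s - 1) ^ j * (Real.exp (t * (1 / s - 1)))⁻¹ * t ^ j
        = (t ^ j * (1 / s - 1) ^ j) * (Real.exp (t * (1 / s - 1)))⁻¹ := by ring
      _ ≤ (Real.exp (t * (1 / s - 1)) * j.factorial) * (Real.exp (t * (1 / s - 1)))⁻¹ := by gcongr
      _ = j.factorial := by field_simp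
  · positivity

lemma gp_step (j : ℕ) (t s : ℝ) : s * (gp j t s + gp (j + 1) t s) = gp j t s := by
  unfold gp
  split_ifs with h
  · rw [pow_succ]
    have : s * (1 / s - 1) = 1 - s := by field_simp
    calc _ = (1 / s - 1) ^ j * Real.exp (-(t * (1 / s - 1))) * (s + s * (1 / s - 1)) := by ring
      _ = _ := by rw [this]; ring
  · simp

lemma gp_mul_self (t s : ℝ) : gp 0 (t / 2) s * gp 0 (t / 2) s = gp 0 t s := by
  unfold gp
  split_ifs with h
  · simp only [pow_zero, one_mul]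
    rw [← Real.exp_add]; congr 1; ring
  · simp

lemma one_sub_gp {τ s : ℝ} (hτ : 0 < τ) (hs : s ∈ Icc (0:ℝ) 1) :
    ((1 - gp 0 τ s) * s) ^ 2 ≤ τ ^ 2 * (1 - s) ^ 2 := by
  rw [← mul_pow]
  apply pow_le_pow_left₀
  · have h1 := gp_le 0 hτ hs
    simp at h1
    exact mul_nonneg (by linarith) hs.1
  · rw [gp]
    split_ifs with h
    · have h2 := Real.add_one_le_exp (-(τ * (1 / s - 1)))
      have h3 : s * (1 / s - 1) = 1 - s := by field_simp
      simp only [pow_zero, one_mul]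
      calc (1 - Real.exp (-(τ * (1 / s - 1)))) * s ≤ (τ * (1 / s - 1)) * s := by
            apply mul_le_mul_of_nonneg_right _ hs.1; linarith
        _ = τ * (s * (1 / s - 1)) := by ring
        _ = τ * (1 - s) := by rw [h3]
    · have : s = 0 := le_antisymm (not_lt.1 h) hs.1
      rw [this]; simp [hτ.le]

section Operator

variable {E : Type*} [NormedAddCommGroup E] [InnerProductSpace ℂ E] [CompleteSpace E]
variable {R : E →L[ℂ] E}

/-- The operator `H^j e^{-tH}`. -/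
noncomputable def W (R : E →L[ℂ] E) (j : ℕ) (t : ℝ) : E →L[ℂ] E := cfc (gp j t) R

lemma W_selfAdjoint (R : E →L[ℂ] E) (j : ℕ) (t : ℝ) : IsSelfAdjoint (W R j t) :=
  cfc_predicate _ _

lemma W_step (hR : IsSelfAdjoint R) (j : ℕ) {t : ℝ} (ht : 0 < t) :
    W R j t = R * (W R j t + W R (j + 1) t) := by
  have h1 : cfc (gp j t) R + cfc (gp (j+1) t) R = cfc (fun s => gp j t s + gp (j+1) t s) R :=
    (cfc_add (a := R) (f := gp j t) (g := gp (j+1) t) ((gp_continuous j ht).continuousOn)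
      ((gp_continuous (j+1) ht).continuousOn)).symm
  have h2 : R * cfc (fun s => gp j t s + gp (j+1) t s) R =
      cfc (fun s => s * (gp j t s + gp (j+1) t s)) R := by
    rw [cfc_mul (a := R) (f := fun s => s) (g := fun s => gp j t s + gp (j+1) t s)
      continuousOn_id
      (((gp_continuous j ht).add (gp_continuous (j+1) ht)).continuousOn)]
    rw [cfc_id' ℝ R]
  unfold W
  rw [h1, h2]
  congr 1
  funext s
  exact (gp_step j t s).symm

lemma W_step_apply (hR : IsSelfAdjoint R) (j : ℕ) {t : ℝ} (ht : 0 < t) (f : E) :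
    W R j t f = R (W R j t f + W R (j + 1) t f) := by
  conv_lhs => rw [W_step hR j ht]
  rfl

lemma W_norm (hs : spectrum ℝ R ⊆ Icc 0 1) (j : ℕ) {t : ℝ} (ht : 0 < t) :
    ‖W R j t‖ ≤ (j.factorial : ℝ) / t ^ j := by
  apply norm_cfc_le (by positivity)
  intro x hx
  rw [Real.norm_eq_abs, abs_of_nonneg (gp_nonneg j (hs hx))]
  exact gp_le j ht (hs hx)

lemma W_norm_apply (hs : spectrum ℝ R ⊆ Icc 0 1) (j : ℕ) {t : ℝ} (ht : 0 < t) (f : E) :
    ‖W R j t f‖ ≤ (j.factorial : ℝ) / t ^ j * ‖f‖ :=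
  (ContinuousLinearMap.le_opNorm _ _).trans (mul_le_mul_of_nonneg_right (W_norm hs j ht)
    (norm_nonneg _))

lemma W_half {t : ℝ} (ht : 0 < t) : W R 0 (t / 2) * W R 0 (t / 2) = W R 0 t := by
  unfold W
  rw [← cfc_mul (a := R) (f := gp 0 (t/2)) (g := gp 0 (t/2))
    ((gp_continuous 0 (half_pos ht)).continuousOn) ((gp_continuous 0 (half_pos ht)).continuousOn)]
  congr 1
  funext s
  exact gp_mul_self t s

lemma inner_W {t : ℝ} (ht : 0 < t) (f : E) :
    inner ℂ f (W R 0 t f) = ((‖W R 0 (t / 2) f‖ ^ 2 : ℝ) : ℂ) := by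
  rw [← W_half (R := R) ht]
  have h := W_selfAdjoint R 0 (t / 2)
  have h1 : (W R 0 (t / 2) * W R 0 (t / 2)) f = W R 0 (t / 2) (W R 0 (t / 2) f) := rfl
  rw [h1]
  have h2 := (ContinuousLinearMap.isSelfAdjoint_iff_isSymmetric.1 h) f (W R 0 (t / 2) f)
  have h3 : inner ℂ f (W R 0 (t / 2) (W R 0 (t / 2) f)) =
      inner ℂ (W R 0 (t / 2) f) (W R 0 (t / 2) f) := h2.symm
  rw [h3, inner_self_eq_norm_sq_to_K]
  push_cast
  rfl

lemma W_sub_le (hR : IsSelfAdjoint R) (hs : spectrum ℝ R ⊆ Icc 0 1) {τ : ℝ} (hτ : 0 < τ) (g : E) :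
    ‖R g - W R 0 τ (R g)‖ ≤ τ * ‖g - R g‖ := by
  -- `A = (1 - e^{-τ H}) R`, `B = 1 - R`
  have hc0 := gp_continuous 0 hτ
  set A : E →L[ℂ] E := cfc (fun s => (1 - gp 0 τ s) * s) R with hA
  set B : E →L[ℂ] E := cfc (fun s : ℝ => 1 - s) R with hB
  have hAc : Continuous (fun s => (1 - gp 0 τ s) * s) := by fun_prop
  have hBc : Continuous (fun s : ℝ => 1 - s) := by fun_prop
  have hAs : IsSelfAdjoint A := cfc_predicate _ _
  have hBs : IsSelfAdjoint B := cfc_predicate _ _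
  have hAe : A g = R g - W R 0 τ (R g) := by
    have h1 : A = (1 - W R 0 τ) * R := by
      rw [hA, cfc_mul (a := R) (f := fun s : ℝ => 1 - gp 0 τ s) (g := fun s : ℝ => s)
        (by fun_prop) (by fun_prop), cfc_id' ℝ R,
        cfc_sub (a := R) (f := fun _ : ℝ => (1:ℝ)) (g := gp 0 τ) (by fun_prop) (hc0.continuousOn),
        cfc_const_one ℝ R]
      rfl
    rw [h1]; rfl
  have hBe : B g = g - R g := by
    have h1 : B = 1 - R := by
      rw [hB, cfc_sub (a := R) (f := fun _ : ℝ => (1:ℝ)) (g := fun s : ℝ => s) (by fun_prop) (by fun_prop),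
        cfc_const_one ℝ R, cfc_id' ℝ R]
    rw [h1]; rfl
  have hA2 : A * A = cfc (fun s => ((1 - gp 0 τ s) * s) ^ 2) R := by
    rw [hA, ← cfc_mul (a := R) (f := fun s => (1 - gp 0 τ s) * s) (g := fun s => (1 - gp 0 τ s) * s)
      hAc.continuousOn hAc.continuousOn]
    congr 1; funext s; ring
  have hB2 : (τ ^ 2) • (B * B) = cfc (fun s => τ ^ 2 * (1 - s) ^ 2) R := by
    rw [hB, ← cfc_mul (a := R) (f := fun s : ℝ => 1 - s) (g := fun s : ℝ => 1 - s)
      hBc.continuousOn hBc.continuousOn]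
    rw [← cfc_smul (a := R) (τ ^ 2) (fun s : ℝ => (1 - s) * (1 - s)) (by fun_prop)]
    congr 1; funext s
    rw [smul_eq_mul]; ring
  have hle : A * A ≤ (τ ^ 2) • (B * B) := by
    rw [hA2, hB2]
    apply cfc_mono
    · intro x hx
      exact one_sub_gp hτ (hs hx)
    · exact (by fun_prop : Continuous (fun s => ((1 - gp 0 τ s) * s) ^ 2)).continuousOn
    · exact (by fun_prop : Continuous (fun s : ℝ => τ ^ 2 * (1 - s) ^ 2)).continuousOn
  have hpos := (ContinuousLinearMap.le_def _ _).1 hle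
  have h1 := hpos.re_inner_nonneg_left g
  have hAA : ∀ x, inner ℂ ((A * A) x) x = ((‖A x‖ ^ 2 : ℝ) : ℂ) := by
    intro x
    have h2 := (ContinuousLinearMap.isSelfAdjoint_iff_isSymmetric.1 hAs) (A x) x
    have h3 : inner ℂ ((A * A) x) x = inner ℂ (A x) (A x) := h2
    rw [h3, inner_self_eq_norm_sq_to_K]; push_cast; rfl
  have hBB : ∀ x, inner ℂ ((B * B) x) x = ((‖B x‖ ^ 2 : ℝ) : ℂ) := by
    intro x
    have h2 := (ContinuousLinearMap.isSelfAdjoint_iff_isSymmetric.1 hBs) (B x) x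
    have h3 : inner ℂ ((B * B) x) x = inner ℂ (B x) (B x) := h2
    rw [h3, inner_self_eq_norm_sq_to_K]; push_cast; rfl
  have h4 : ((τ ^ 2) • (B * B) - A * A) g = ((τ ^ 2 : ℝ) : ℂ) • (B * B) g - (A * A) g := by
    show (τ ^ 2) • ((B * B) g) - (A * A) g = _
    rw [← Complex.coe_smul]
  rw [h4, inner_sub_left, inner_smul_left, hAA, hBB] at h1
  have h5 : ‖A g‖ ^ 2 ≤ τ ^ 2 * ‖B g‖ ^ 2 := by
    have h6 : RCLike.re ((starRingEnd ℂ) ((τ ^ 2 : ℝ) : ℂ) * ((‖B g‖ ^ 2 : ℝ) : ℂ) -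
        ((‖A g‖ ^ 2 : ℝ) : ℂ)) = τ ^ 2 * ‖B g‖ ^ 2 - ‖A g‖ ^ 2 := by
      rw [Complex.conj_ofReal, ← Complex.ofReal_mul, ← Complex.ofReal_sub]
      exact Complex.ofReal_re _
    rw [h6] at h1
    linarith
  rw [← hAe, ← hBe]
  have h7 : ‖A g‖ ^ 2 ≤ (τ * ‖B g‖) ^ 2 := by rw [mul_pow]; exact h5
  exact le_of_sq_le_sq h7 (by positivity)
  where
    le_of_sq_le_sq {x y : ℝ} (h : x ^ 2 ≤ y ^ 2) (hy : 0 ≤ y) : x ≤ y := by
      exact abs_le_of_sq_le_sq' h hy |>.2

end Operator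

end Pool.Agent.R216.HK
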