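import Pool.Agent.R216.HK9

/-!
Criticality of `H₀`, subcriticality of `H₊`, and the bottoms of their spectra.
-/

set_option autoImplicit false
set_option linter.unusedSectionVars false
open Set Filter Topology MeasureTheory
open scoped ContDiff

namespace Pool.Agent.R216.HK

/-- `inf σ(H) = 0`, by the variational principle on the form core `C_c^∞(ℝ)`. -/
def BottomZero (V : ℝ → ℝ) : Prop :=
  (∀ ψ, Test ψ → 0 ≤ energy V ψ) ∧
    ∀ ε > 0, ∃ ψ, Test ψ ∧ 0 < ∫ x, ‖ψ x‖ ^ 2 ∧ energy V ψ < ε * ∫ x, ‖ψ x‖ ^ 2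

/-- `H ≥ ρ` for some smooth `ρ > 0`. -/
def Subcritical (V : ℝ → ℝ) : Prop :=
  ∃ ρ : ℝ → ℝ, ContDiff ℝ ∞ ρ ∧ (∀ x, 0 < ρ x) ∧
    ∀ ψ, Test ψ → ∫ x, ρ x * ‖ψ x‖ ^ 2 ≤ energy V ψ

/-- `inf σ(H - W) < 0` for every `W ∈ C_c^∞(ℝ)`, `W ≥ 0`, `W ≠ 0`. -/
def Critical (V : ℝ → ℝ) : Prop :=
  ∀ W : ℝ → ℝ, ContDiff ℝ ∞ W → HasCompactSupport W → (∀ x, 0 ≤ W x) → (∃ x, W x ≠ 0) →
    ∃ ψ, Test ψ ∧ energy (fun x => V x - W x) ψ < 0

section Phi

variable {φ : ℝ → ℝ} (hφ : ContDiff ℝ ∞ φ) (hpos : ∀ x, 0 < φ x)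

include hφ hpos

lemma energy_nonneg {ψ : ℝ → ℂ} (hψ : Test ψ) : 0 ≤ energy (pot φ) ψ := by
  rw [energy_eq hφ hpos hψ]
  exact integral_nonneg fun x => by positivity

lemma energy_mul {η : ℝ → ℝ} (hη : ContDiff ℝ ∞ η) (hc : HasCompactSupport η) :
    energy (pot φ) (fun x => ((φ x * η x : ℝ) : ℂ)) = ∫ x, (φ x * deriv η x) ^ 2 := by
  rw [energy_eq hφ hpos (test_mul hφ hpos hη hc)]
  congr 1; funext x
  rw [D_mul hφ hpos hη, Complex.norm_real, Real.norm_eq_abs, sq_abs]

end Phi

lemma norm_sq_mul (φ η : ℝ → ℝ) : ∫ x, ‖((φ x * η x : ℝ) : ℂ)‖ ^ 2 = ∫ x, (φ x * η x) ^ 2 := by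
  congr 1; funext x
  rw [Complex.norm_real, Real.norm_eq_abs, sq_abs]

/-! ### the subcritical operator -/

lemma pot_phip (x : ℝ) : pot phip x = 1 / (1 + x ^ 2) ^ 2 := by
  unfold pot
  have h0 : deriv phip = fun x => x / phip x := funext fun x => (phip_deriv x).deriv
  have hp := phip_pos x
  have h1 : HasDerivAt (fun x => x / phip x) ((1 * phip x - x * (x / phip x)) / phip x ^ 2) x :=
    (hasDerivAt_id x).div (phip_deriv x) hp.ne'
  rw [h0, h1.deriv]
  have h2 : phip x ^ 2 = 1 + x ^ 2 := Real.sq_sqrt (by positivity)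
  have h3 : (1 + x ^ 2) ≠ 0 := by positivity
  have h4 : phip x ≠ 0 := hp.ne'
  have h5 : (1 + x ^ 2) ^ 2 = phip x ^ 4 := by rw [← h2]; ring
  rw [h5]
  have h6 : x ^ 2 = phip x ^ 2 - 1 := by rw [h2]; ring
  field_simp
  rw [h6]; ring

lemma subcritical_phip : Subcritical (pot phip) := by
  refine ⟨pot phip, pot_contDiff phip_contDiff phip_pos, fun x => ?_, fun ψ hψ => ?_⟩
  · rw [pot_phip]; positivity
  · unfold energy
    have hp := (pot_contDiff phip_contDiff phip_pos).continuous
    have s1 : HasCompactSupport (fun x => ‖ψ x‖ ^ 2) := by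
      have := hψ.2.norm
      exact this.comp_left (g := fun y : ℝ => y ^ 2) (by simp)
    have s2 : HasCompactSupport (fun x => ‖deriv ψ x‖ ^ 2) := by
      have := hψ.2.deriv.norm
      exact this.comp_left (g := fun y : ℝ => y ^ 2) (by simp)
    have i1 : Integrable (fun x => pot phip x * ‖ψ x‖ ^ 2) :=
      (hp.mul (hψ.cont.norm.pow 2)).integrable_of_hasCompactSupport s1.mul_left
    have i2 : Integrable (fun x => ‖deriv ψ x‖ ^ 2) :=
      (hψ.deriv_cont.norm.pow 2).integrable_of_hasCompactSupport s2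
    rw [integral_add i2 i1]
    have : 0 ≤ ∫ x, ‖deriv ψ x‖ ^ 2 := integral_nonneg fun x => by positivity
    linarith

lemma bottom_phip : BottomZero (pot phip) := by
  refine ⟨fun ψ hψ => energy_nonneg phip_contDiff phip_pos hψ, fun ε hε => ?_⟩
  obtain ⟨A, hA1, hA⟩ := cut_bounds
  set r : ℝ := 1 + 288 * A ^ 2 / ε with hr
  have hr1 : 1 ≤ r := by
    have : 0 ≤ 288 * A ^ 2 / ε := by positivity
    linarith
  have hr0 : 0 < r := by linarith
  have T1 : Test (fun x => ((phip x * cutr r x : ℝ) : ℂ)) :=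
    test_mul phip_contDiff phip_pos (cutr_contDiff r) (cutr_supp hr0)
  have hc : Continuous (fun x => (phip x * cutr r x) ^ 2) :=
    (phip_contDiff.continuous.mul (cutr_contDiff r).continuous).pow 2
  have hci : Integrable (fun x => (phip x * cutr r x) ^ 2) := by
    apply hc.integrable_of_hasCompactSupport
    exact ((cutr_supp hr0).mul_left (f := phip)).comp_left (g := fun y : ℝ => y ^ 2) (by simp)
  have hlow : r ^ 3 / 8 ≤ ∫ x, (phip x * cutr r x) ^ 2 := by
    calc r ^ 3 / 8 = ∫ _x in Icc (r / 2) r, (r / 2) ^ 2 := by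
          rw [setIntegral_const, smul_eq_mul, Real.volume_real_Icc_of_le (by linarith)]; ring
      _ ≤ ∫ x in Icc (r / 2) r, (phip x * cutr r x) ^ 2 := by
          apply setIntegral_mono_on continuous_const.integrableOn_Icc hci.integrableOn
            measurableSet_Icc
          intro x hx
          have h3 : cutr r x = 1 := by
            apply cut_eq_one
            have h5 : 0 < r⁻¹ := by positivity
            have hx0 : 0 ≤ x := by linarith [hx.1]
            refine ⟨by have := mul_nonneg h5.le hx0; linarith, ?_⟩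
            rw [inv_mul_le_iff₀ hr0]; linarith [hx.2]
          rw [h3, mul_one]
          have h4 := abs_le_phip x
          rw [abs_of_nonneg (by linarith [hx.1])] at h4
          apply pow_le_pow_left₀ (by positivity)
          linarith [hx.1]
      _ ≤ ∫ x, (phip x * cutr r x) ^ 2 :=
          setIntegral_le_integral hci (Eventually.of_forall fun x => by positivity)
  refine ⟨_, T1, ?_, ?_⟩
  · rw [norm_sq_mul]
    have : 0 < r ^ 3 / 8 := by positivity
    linarith
  · rw [norm_sq_mul, energy_mul phip_contDiff phip_pos (cutr_contDiff r) (cutr_supp hr0)]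
    have hup : ∫ x, (phip x * deriv (cutr r) x) ^ 2 ≤ 36 * A ^ 2 * r := by
      have hz : ∀ x, x ∉ Icc (-(2 * r)) (2 * r) → (phip x * deriv (cutr r) x) ^ 2 = 0 := by
        intro x hx
        have h3 : tsupport (cutr r) ⊆ Icc (-(2 * r)) (2 * r) := closure_minimal (fun y hy => by
          by_contra h4
          exact hy (cutr_zero hr0 fun h => h4 ⟨h.1.le, h.2.le⟩)) isClosed_Icc
        have h5 : deriv (cutr r) x = 0 := by
          by_contra h
          exact hx (h3 (support_deriv_subset (Function.mem_support.2 h)))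
        rw [h5]; simp
      have hdc : Continuous (fun x => (phip x * deriv (cutr r) x) ^ 2) :=
        (phip_contDiff.continuous.mul ((contDiff_infty_iff_deriv.1 (cutr_contDiff r)).2).continuous).pow 2
      rw [← setIntegral_eq_integral_of_forall_compl_eq_zero hz]
      calc ∫ x in Icc (-(2 * r)) (2 * r), (phip x * deriv (cutr r) x) ^ 2
          ≤ ∫ _x in Icc (-(2 * r)) (2 * r), (3 * A) ^ 2 := by
            apply setIntegral_mono_on hdc.integrableOn_Icc continuous_const.integrableOn_Icc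
              measurableSet_Icc
            intro x hx
            rw [← sq_abs]
            apply pow_le_pow_left₀ (abs_nonneg _)
            rw [abs_mul, abs_of_pos (phip_pos x), cutr_deriv, abs_mul,
              abs_of_pos (by positivity : 0 < r⁻¹)]
            have h1 : phip x ≤ 3 * r := (phip_le x).trans (by have := (abs_le.2 hx); linarith)
            have h2 : |deriv cut (r⁻¹ * x)| ≤ A := by
              have := hA (r⁻¹ * x)
              have := abs_nonneg (deriv (deriv cut) (r⁻¹ * x))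
              have := abs_nonneg (deriv cut (r⁻¹ * x))
              linarith
            calc phip x * (r⁻¹ * |deriv cut (r⁻¹ * x)|) ≤ (3 * r) * (r⁻¹ * A) := by gcongr
              _ = 3 * A := by field_simp
        _ = 36 * A ^ 2 * r := by
            rw [setIntegral_const, smul_eq_mul, Real.volume_real_Icc_of_le (by linarith)]; ring
    have hkey : 36 * A ^ 2 * r < ε * (r ^ 3 / 8) := by
      have h1 : 288 * A ^ 2 < ε * r := by
        have h2 : ε * r = ε + 288 * A ^ 2 := by rw [hr]; field_simp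
        linarith
      have h3 : ε * r ≤ ε * r ^ 2 := by
        have : r ≤ r ^ 2 := by nlinarith
        gcongr
      nlinarith
    calc _ ≤ 36 * A ^ 2 * r := hup
      _ < ε * (r ^ 3 / 8) := hkey
      _ ≤ _ := by gcongr

/-! ### the critical operator -/

/-- cutoff equal to one on `[-q, q]` and to zero outside `[-(q+L), q+L]`. -/
noncomputable def vv (q L x : ℝ) : ℝ :=
  Real.smoothTransition (1 - (x - q) * L⁻¹) * Real.smoothTransition (1 - (-x - q) * L⁻¹)

lemma vv_contDiff (q L : ℝ) : ContDiff ℝ ∞ (vv q L) := by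
  have h1 : ContDiff ℝ ∞ Real.smoothTransition := Real.smoothTransition.contDiff
  unfold vv
  exact (h1.comp (contDiff_const.sub ((contDiff_id.sub contDiff_const).mul contDiff_const))).mul
    (h1.comp (contDiff_const.sub ((contDiff_id.neg.sub contDiff_const).mul contDiff_const)))

lemma vv_nonneg (q L x : ℝ) : 0 ≤ vv q L x :=
  mul_nonneg (Real.smoothTransition.nonneg _) (Real.smoothTransition.nonneg _)

lemma vv_one {q L x : ℝ} (hL : 0 < L) (hx : |x| ≤ q) : vv q L x = 1 := by
  have h := abs_le.1 hx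
  have hi : 0 < L⁻¹ := by positivity
  rw [vv, Real.smoothTransition.one_of_one_le (by nlinarith [h.1, h.2]),
    Real.smoothTransition.one_of_one_le (by nlinarith [h.1, h.2]), one_mul]

lemma vv_zero {q L x : ℝ} (hL : 0 < L) (hx : q + L ≤ |x|) : vv q L x = 0 := by
  have hi : 0 < L⁻¹ := by positivity
  have hLi : L * L⁻¹ = 1 := mul_inv_cancel₀ hL.ne'
  rcases le_abs.1 hx with h | h
  · rw [vv, Real.smoothTransition.zero_of_nonpos (by nlinarith), zero_mul]
  · rw [vv, Real.smoothTransition.zero_of_nonpos (x := 1 - (-x - q) * L⁻¹) (by nlinarith), mul_zero]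

lemma smoothTransition_deriv_bound : ∃ C : ℝ, 0 < C ∧ ∀ x, |deriv Real.smoothTransition x| ≤ C := by
  have h1 : ContDiff ℝ ∞ Real.smoothTransition := Real.smoothTransition.contDiff
  have h2 : Continuous (deriv Real.smoothTransition) := (contDiff_infty_iff_deriv.1 h1).2.continuous
  have h3 : HasCompactSupport (deriv Real.smoothTransition) := by
    apply HasCompactSupport.intro (isCompact_Icc (a := 0) (b := 1))
    intro x hx
    rw [mem_Icc, not_and_or, not_le, not_le] at hx
    rcases hx with hx | hx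
    · have : Real.smoothTransition =ᶠ[𝓝 x] fun _ => 0 := by
        filter_upwards [gt_mem_nhds hx] with y hy
        exact Real.smoothTransition.zero_of_nonpos (le_of_lt hy)
      rw [this.deriv_eq]; simp
    · have : Real.smoothTransition =ᶠ[𝓝 x] fun _ => 1 := by
        filter_upwards [lt_mem_nhds hx] with y hy
        exact Real.smoothTransition.one_of_one_le (le_of_lt hy)
      rw [this.deriv_eq]; simp
  obtain ⟨C, hC⟩ := h2.bounded_above_of_compact_support h3
  refine ⟨max C 1, by positivity, fun x => ?_⟩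
  have := hC x
  rw [Real.norm_eq_abs] at this
  exact this.trans (le_max_left _ _)

lemma vv_deriv_le {C : ℝ} (hC : ∀ x, |deriv Real.smoothTransition x| ≤ C) {q L : ℝ} (hL : 0 < L)
    (x : ℝ) : |deriv (vv q L) x| ≤ 2 * C / L := by
  have h1 : ContDiff ℝ ∞ Real.smoothTransition := Real.smoothTransition.contDiff
  have hd : ∀ y, HasDerivAt Real.smoothTransition (deriv Real.smoothTransition y) y := fun y =>
    (h1.differentiable (by simp) y).hasDerivAt
  have e1 : HasDerivAt (fun x : ℝ => 1 - (x - q) * L⁻¹) (-L⁻¹) x := by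
    have := (((hasDerivAt_id x).sub_const q).mul_const L⁻¹).const_sub 1
    simpa using this
  have e2 : HasDerivAt (fun x : ℝ => 1 - (-x - q) * L⁻¹) (L⁻¹) x := by
    have := ((((hasDerivAt_id x).neg).sub_const q).mul_const L⁻¹).const_sub 1
    simpa using this
  have e3 := ((hd _).comp x e1).mul ((hd _).comp x e2)
  have e4 : deriv (vv q L) x = deriv Real.smoothTransition (1 - (x - q) * L⁻¹) * -L⁻¹ *
      Real.smoothTransition (1 - (-x - q) * L⁻¹) + Real.smoothTransition (1 - (x - q) * L⁻¹) *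
      (deriv Real.smoothTransition (1 - (-x - q) * L⁻¹) * L⁻¹) := e3.deriv
  rw [e4]
  have hi : 0 < L⁻¹ := by positivity
  have hs1 := Real.smoothTransition.le_one (1 - (x - q) * L⁻¹)
  have hs2 := Real.smoothTransition.le_one (1 - (-x - q) * L⁻¹)
  have hs3 := Real.smoothTransition.nonneg (1 - (x - q) * L⁻¹)
  have hs4 := Real.smoothTransition.nonneg (1 - (-x - q) * L⁻¹)
  have hc1 := hC (1 - (x - q) * L⁻¹)
  have hc2 := hC (1 - (-x - q) * L⁻¹)
  have hC0 : 0 ≤ C := (abs_nonneg _).trans hc1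
  refine (abs_add_le _ _).trans ?_
  rw [abs_mul, abs_mul, abs_mul, abs_mul, abs_neg, abs_of_pos hi, abs_of_nonneg hs3,
    abs_of_nonneg hs4]
  calc _ ≤ C * L⁻¹ * 1 + 1 * (C * L⁻¹) := by gcongr
    _ = 2 * C / L := by field_simp; ring

lemma vv_supp {q L : ℝ} (hL : 0 < L) : HasCompactSupport (vv q L) :=
  HasCompactSupport.intro (isCompact_Icc (a := -(q + L)) (b := q + L)) fun x hx => by
    apply vv_zero hL
    rw [mem_Icc, not_and_or, not_le, not_le] at hx
    rcases hx with hx | hx
    · exact le_abs.2 (Or.inr (by linarith))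
    · exact le_abs.2 (Or.inl (by linarith))

lemma vv_deriv_zero {q L x : ℝ} (hL : 0 < L) (hx : |x| < q ∨ q + L < |x|) :
    deriv (vv q L) x = 0 := by
  rcases hx with hx | hx
  · have : vv q L =ᶠ[𝓝 x] fun _ => 1 := by
      filter_upwards [(continuous_abs.tendsto x).eventually (gt_mem_nhds hx)] with y hy
      exact vv_one hL (le_of_lt hy)
    rw [this.deriv_eq]; simp
  · have : vv q L =ᶠ[𝓝 x] fun _ => 0 := by
      filter_upwards [(continuous_abs.tendsto x).eventually (lt_mem_nhds hx)] with y hy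
      exact vv_zero hL (le_of_lt hy)
    rw [this.deriv_eq]; simp

/-- energy of the test functions for `H₀`. -/
lemma energy_vv {C : ℝ} (hC0 : 0 < C) (hC : ∀ x, |deriv Real.smoothTransition x| ≤ C) (n : ℕ) :
    energy (pot phi0) (fun x => ((phi0 x * vv (ee n + 3) (n + 1) x : ℝ) : ℂ)) ≤
      8 * C ^ 2 / (n + 1) := by
  have hL : (0:ℝ) < (n:ℝ) + 1 := by positivity
  set q : ℝ := ee n + 3 with hq
  set L : ℝ := (n:ℝ) + 1 with hL'
  have hq0 : 0 < q := by have := ee_ge n; linarith
  have hqL : q + L ≤ ee (n + 1) := ee_succ n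
  rw [energy_mul phi0_contDiff phi0_pos (vv_contDiff q L) (vv_supp hL)]
  set S : Set ℝ := Icc q (q + L) ∪ Icc (-(q + L)) (-q) with hS
  have hSm : MeasurableSet S := measurableSet_Icc.union measurableSet_Icc
  have hz : ∀ x, x ∉ S → (phi0 x * deriv (vv q L) x) ^ 2 = 0 := by
    intro x hx
    have h1 : |x| < q ∨ q + L < |x| := by
      by_contra h
      rw [not_or, not_lt, not_lt] at h
      apply hx
      rcases le_total 0 x with h0 | h0
      · rw [abs_of_nonneg h0] at h; exact Or.inl h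
      · rw [abs_of_nonpos h0] at h; exact Or.inr ⟨by linarith [h.2], by linarith [h.1]⟩
    rw [vv_deriv_zero hL h1]; simp
  have hb : ∀ x ∈ S, (phi0 x * deriv (vv q L) x) ^ 2 ≤ (2 * C / L) ^ 2 := by
    intro x hx
    have h1 : q ≤ |x| ∧ |x| ≤ q + L := by
      rcases hx with hx | hx
      · rw [abs_of_nonneg (by linarith [hx.1])]; exact hx
      · rw [abs_of_nonpos (by linarith [hx.2])]; exact ⟨by linarith [hx.2], by linarith [hx.1]⟩
    rw [phi0_slow (k := n) h1.1 (h1.2.trans hqL), one_mul, ← sq_abs]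
    exact pow_le_pow_left₀ (abs_nonneg _) (vv_deriv_le hC hL x) 2
  have hdc : Continuous (fun x => (phi0 x * deriv (vv q L) x) ^ 2) :=
    (phi0_contDiff.continuous.mul ((contDiff_infty_iff_deriv.1 (vv_contDiff q L)).2).continuous).pow 2
  have hvS : volume.real S ≤ 2 * L := by
    refine (measureReal_union_le _ _).trans ?_
    rw [Real.volume_real_Icc_of_le (by linarith), Real.volume_real_Icc_of_le (by linarith)]
    linarith
  have hSf : volume S ≠ ⊤ := by
    refine ne_of_lt (lt_of_le_of_lt (measure_union_le _ _) ?_)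
    simp
  rw [← setIntegral_eq_integral_of_forall_compl_eq_zero hz]
  calc ∫ x in S, (phi0 x * deriv (vv q L) x) ^ 2 ≤ ∫ _x in S, (2 * C / L) ^ 2 := by
        apply setIntegral_mono_on _ (integrableOn_const hSf) hSm hb
        exact (hdc.integrableOn_Icc).union hdc.integrableOn_Icc
    _ = volume.real S * (2 * C / L) ^ 2 := by rw [setIntegral_const, smul_eq_mul]
    _ ≤ (2 * L) * (2 * C / L) ^ 2 := by gcongr
    _ = 8 * C ^ 2 / L := by field_simp; ring

lemma exists_small {C δ : ℝ} (hδ : 0 < δ) : ∃ N : ℕ, ∀ n ≥ N, 8 * C ^ 2 / ((n:ℝ) + 1) < δ := by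
  obtain ⟨N, hN⟩ := exists_nat_gt (8 * C ^ 2 / δ)
  refine ⟨N, fun n hn => ?_⟩
  have h1 : (N:ℝ) ≤ n := by exact_mod_cast hn
  rw [div_lt_iff₀ (by positivity)]
  rw [div_lt_iff₀ hδ] at hN
  nlinarith

lemma bottom_phi0 : BottomZero (pot phi0) := by
  refine ⟨fun ψ hψ => energy_nonneg phi0_contDiff phi0_pos hψ, fun ε hε => ?_⟩
  obtain ⟨C, hC0, hC⟩ := smoothTransition_deriv_bound
  obtain ⟨N, hN⟩ := exists_small (C := C) (δ := ε * 2) (by positivity)
  have h1 := energy_vv hC0 hC N
  have hL : (0:ℝ) < (N:ℝ) + 1 := by positivity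
  have T1 : Test (fun x => ((phi0 x * vv (ee N + 3) (N + 1) x : ℝ) : ℂ)) :=
    test_mul phi0_contDiff phi0_pos (vv_contDiff _ _) (vv_supp hL)
  have hc : Continuous (fun x => (phi0 x * vv (ee N + 3) (N + 1) x) ^ 2) :=
    (phi0_contDiff.continuous.mul (vv_contDiff _ _).continuous).pow 2
  have hci : Integrable (fun x => (phi0 x * vv (ee N + 3) (N + 1) x) ^ 2) := by
    apply hc.integrable_of_hasCompactSupport
    exact ((vv_supp hL).mul_left (f := phi0)).comp_left (g := fun y : ℝ => y ^ 2) (by simp)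
  have hlow : 2 ≤ ∫ x, (phi0 x * vv (ee N + 3) (N + 1) x) ^ 2 := by
    calc (2:ℝ) = ∫ _x in Icc (-1:ℝ) 1, (1:ℝ) := by
          rw [setIntegral_const, smul_eq_mul, Real.volume_real_Icc_of_le (by norm_num)]; norm_num
      _ ≤ ∫ x in Icc (-1:ℝ) 1, (phi0 x * vv (ee N + 3) (N + 1) x) ^ 2 := by
          apply setIntegral_mono_on continuous_const.integrableOn_Icc hci.integrableOn
            measurableSet_Icc
          intro x hx
          have h4 := ee_ge N
          rw [vv_one hL (by have := abs_le.2 hx; linarith), mul_one]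
          exact one_le_pow₀ (phi0_one_le x)
      _ ≤ _ := setIntegral_le_integral hci (Eventually.of_forall fun x => by positivity)
  refine ⟨_, T1, ?_, ?_⟩
  · rw [norm_sq_mul]; linarith
  · rw [norm_sq_mul]
    calc _ ≤ 8 * C ^ 2 / ((N:ℝ) + 1) := h1
      _ < ε * 2 := hN N le_rfl
      _ ≤ _ := by gcongr

lemma energy_sub {V W : ℝ → ℝ} (hV : Continuous V) (hW : Continuous W) {ψ : ℝ → ℂ} (hψ : Test ψ) :
    energy (fun x => V x - W x) ψ = energy V ψ - ∫ x, W x * ‖ψ x‖ ^ 2 := by
  have s1 : HasCompactSupport (fun x => ‖ψ x‖ ^ 2) := by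
    have := hψ.2.norm
    exact this.comp_left (g := fun y : ℝ => y ^ 2) (by simp)
  have s2 : HasCompactSupport (fun x => ‖deriv ψ x‖ ^ 2) := by
    have := hψ.2.deriv.norm
    exact this.comp_left (g := fun y : ℝ => y ^ 2) (by simp)
  have i1 : Integrable (fun x => V x * ‖ψ x‖ ^ 2) :=
    (hV.mul (hψ.cont.norm.pow 2)).integrable_of_hasCompactSupport s1.mul_left
  have i3 : Integrable (fun x => W x * ‖ψ x‖ ^ 2) :=
    (hW.mul (hψ.cont.norm.pow 2)).integrable_of_hasCompactSupport s1.mul_left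
  have i2 : Integrable (fun x => ‖deriv ψ x‖ ^ 2) :=
    (hψ.deriv_cont.norm.pow 2).integrable_of_hasCompactSupport s2
  have i4 : Integrable (fun x => ‖deriv ψ x‖ ^ 2 + V x * ‖ψ x‖ ^ 2) := i2.add i1
  unfold energy
  rw [← integral_sub i4 i3]
  congr 1; funext x; ring

lemma critical_phi0 : Critical (pot phi0) := by
  intro Wt hW hWc hW0 hWne
  obtain ⟨C, hC0, hC⟩ := smoothTransition_deriv_bound
  obtain ⟨x0, hx0⟩ := hWne
  have hpos : 0 < ∫ x, Wt x := hW.continuous.integral_pos_of_hasCompactSupport_nonneg_nonzero hWc hW0 hx0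
  obtain ⟨M, hM⟩ := hWc.isCompact.isBounded.exists_norm_le
  obtain ⟨N, hN⟩ := exists_small (C := C) hpos
  obtain ⟨N2, hN2⟩ := exists_nat_ge M
  set n := max N N2 with hn
  have hL : (0:ℝ) < (n:ℝ) + 1 := by positivity
  have T1 : Test (fun x => ((phi0 x * vv (ee n + 3) (n + 1) x : ℝ) : ℂ)) :=
    test_mul phi0_contDiff phi0_pos (vv_contDiff _ _) (vv_supp hL)
  refine ⟨_, T1, ?_⟩
  rw [energy_sub (pot_contDiff phi0_contDiff phi0_pos).continuous hW.continuous T1]
  have h1 := energy_vv hC0 hC n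
  have h2 := hN n (le_max_left _ _)
  have hii : Integrable (fun x => Wt x * ‖((phi0 x * vv (ee n + 3) (n + 1) x : ℝ) : ℂ)‖ ^ 2) :=
    (hW.continuous.mul (T1.cont.norm.pow 2)).integrable_of_hasCompactSupport hWc.mul_right
  have h3 : ∫ x, Wt x ≤ ∫ x, Wt x * ‖((phi0 x * vv (ee n + 3) (n + 1) x : ℝ) : ℂ)‖ ^ 2 := by
    apply integral_mono (hW.continuous.integrable_of_hasCompactSupport hWc) hii
    intro x
    by_cases hx : x ∈ tsupport Wt
    · have h4 := hM x hx
      rw [Real.norm_eq_abs] at h4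
      have h5 : (N2:ℝ) ≤ n := by exact_mod_cast le_max_right _ _
      have h6 := ee_ge' n
      simp only
      rw [vv_one hL (by linarith), mul_one, Complex.norm_real, Real.norm_eq_abs, sq_abs]
      have := hW0 x
      have := one_le_pow₀ (n := 2) (phi0_one_le x)
      nlinarith
    · simp only
      rw [image_eq_zero_of_notMem_tsupport hx]; simp
  linarith

end Pool.Agent.R216.HK
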