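import Pool.Agent.R216.HK10

/-!
Heat kernels and the final comparison.
-/

set_option autoImplicit false
set_option linter.unusedSectionVars false
open Set Filter Topology MeasureTheory
open scoped ContDiff

namespace Pool.Agent.R216.HK

/-- `k t x y` is a positive continuous integral kernel of `e^{-tH}`, where `R = (H+1)⁻¹`. -/
def IsHeatKernel (R : L2 →L[ℂ] L2) (k : ℝ → ℝ → ℝ → ℝ) : Prop :=
  ∀ t : ℝ, 0 < t → Continuous (fun p : ℝ × ℝ => k t p.1 p.2) ∧ (∀ x y, 0 < k t x y) ∧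
    ∀ (g : L2) (ψ : ℝ → ℂ), Test ψ → (g : ℝ → ℂ) =ᵐ[volume] ψ →
      (heat R t g : ℝ → ℂ) =ᵐ[volume] fun x => ∫ y, (k t x y : ℂ) * ψ y

/-- the initial datum in `L²` -/
noncomputable def F0 : L2 := cc f0 f0_test.cont f0_test.2

lemma F0_ae : (F0 : ℝ → ℂ) =ᵐ[volume] f0 := cc_ae _ _

lemma kernel_inner {R : L2 →L[ℂ] L2} {k : ℝ → ℝ → ℝ → ℝ} (hk : IsHeatKernel R k) {t : ℝ}
    (ht : 0 < t) :
    Integrable (fun x => cut x * ∫ y, k t x y * cut y) ∧
    (inner ℂ F0 (heat R t F0)) = ((∫ x, cut x * ∫ y, k t x y * cut y : ℝ) : ℂ) := by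
  obtain ⟨hc, hp, hk⟩ := hk t ht
  have h1 := hk F0 f0 f0_test F0_ae
  have h2 : ∀ x, ∫ y, (k t x y : ℂ) * f0 y = ((∫ y, k t x y * cut y : ℝ) : ℂ) := by
    intro x
    rw [← integral_complex_ofReal]
    congr 1; funext y
    rw [f0]; push_cast; rfl
  have h3 : ∀ᵐ x, cut x • (heat R t F0 : ℝ → ℂ) x = ((cut x * ∫ y, k t x y * cut y : ℝ) : ℂ) := by
    filter_upwards [h1] with x hx
    rw [hx, h2, Complex.real_smul]; push_cast; rfl
  have h4 : Integrable (fun x => cut x • (heat R t F0 : ℝ → ℂ) x) :=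
    (L2_locInt _).integrable_smul_left_of_hasCompactSupport cut_contDiff.continuous cut_supp
  have h5 : Integrable (fun x => ((cut x * ∫ y, k t x y * cut y : ℝ) : ℂ)) := h4.congr h3
  constructor
  · have := h5.re
    refine this.congr (Eventually.of_forall fun x => ?_)
    exact Complex.ofReal_re _
  · rw [F0, inner_cc, ← integral_complex_ofReal]
    apply integral_congr_ae
    filter_upwards [h3] with x hx
    rw [← hx, f0, Complex.conj_ofReal, Complex.real_smul]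
    rfl

lemma kernel_compare {Rp R0 : L2 →L[ℂ] L2} {kp k0 : ℝ → ℝ → ℝ → ℝ} (hp : IsHeatKernel Rp kp)
    (h0 : IsHeatKernel R0 k0) {t C : ℝ} (ht : 0 < t)
    (h : ∀ x ∈ Icc (-2:ℝ) 2, ∀ y ∈ Icc (-2:ℝ) 2, kp t x y ≤ C * k0 t x y) :
    (inner ℂ F0 (heat Rp t F0)).re ≤ C * (inner ℂ F0 (heat R0 t F0)).re := by
  obtain ⟨i1, e1⟩ := kernel_inner hp ht
  obtain ⟨i2, e2⟩ := kernel_inner h0 ht
  rw [e1, e2, Complex.ofReal_re, Complex.ofReal_re, ← integral_const_mul]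
  apply integral_mono i1 (i2.const_mul C)
  intro x
  simp only
  have hkc : ∀ {k : ℝ → ℝ → ℝ → ℝ}, Continuous (fun p : ℝ × ℝ => k t p.1 p.2) →
      Integrable (fun y => k t x y * cut y) := by
    intro k hk
    have h1 : Continuous (fun y => k t x y) := hk.comp (Continuous.prodMk_right x)
    exact (h1.mul cut_contDiff.continuous).integrable_of_hasCompactSupport cut_supp.mul_left
  by_cases hx : x ∈ Icc (-2:ℝ) 2
  · have h1 : ∫ y, kp t x y * cut y ≤ C * ∫ y, k0 t x y * cut y := by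
      rw [← integral_const_mul]
      apply integral_mono (hkc (hp t ht).1) ((hkc (h0 t ht).1).const_mul C)
      intro y
      simp only
      by_cases hy : y ∈ Icc (-2:ℝ) 2
      · have := h x hx y hy
        have h3 := cut_nonneg y
        calc _ ≤ (C * k0 t x y) * cut y := by gcongr
          _ = _ := by ring
      · rw [cut_eq_zero (fun h => hy ⟨h.1.le, h.2.le⟩)]; simp
    calc _ ≤ cut x * (C * ∫ y, k0 t x y * cut y) := by
          apply mul_le_mul_of_nonneg_left h1 (cut_nonneg x)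
      _ = _ := by ring
  · rw [cut_eq_zero (fun h => hx ⟨h.1.le, h.2.le⟩)]; simp

lemma lower_F0 : ∃ c > 0, ∀ t : ℝ, 1 ≤ t →
    c / t ^ 6 ≤ ‖W (Rg (ld phip)) 0 (t / 2) F0‖ ^ 2 := lower_bound

lemma upper_F0 (k : ℕ) : ‖W (Rg (ld phi0)) 0 (tt k (Ms k) / 2) F0‖ ^ 2 ≤
    241920 / ((k + 1) * tt k (Ms k) ^ 6) :=
  upper_k k f0_test.cont f0_test.2 f0_norm f0_zero f0_L2

lemma arith {a b c C t : ℝ} {k : ℕ} (hc : 0 < c) (ht : 0 < t) (hkC : 241920 * max C 0 / c < k)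
    (ha : a ≤ 241920 / ((k + 1) * t ^ 6)) (hb : c / t ^ 6 ≤ b) (ha0 : 0 ≤ a) : C * a < b := by
  have hC : C ≤ max C 0 := le_max_left _ _
  have hC0 : 0 ≤ max C 0 := le_max_right _ _
  have hk0 : (0:ℝ) ≤ k := Nat.cast_nonneg k
  calc C * a ≤ max C 0 * (241920 / ((k + 1) * t ^ 6)) := by gcongr
    _ = (241920 * max C 0 / (k + 1)) / t ^ 6 := by field_simp
    _ < c / t ^ 6 := by
        apply div_lt_div_of_pos_right _ (by positivity)
        rw [div_lt_iff₀ (by positivity)]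
        rw [div_lt_iff₀ hc] at hkC
        nlinarith
    _ ≤ _ := hb

/-- the comparison without kernels. -/
lemma compare (C T : ℝ) : ∃ t ≥ T, 0 < t ∧
    C * (inner ℂ F0 (heat (Rg (ld phi0)) t F0)).re < (inner ℂ F0 (heat (Rg (ld phip)) t F0)).re := by
  obtain ⟨c, hc, hlow⟩ := lower_F0
  obtain ⟨k, hk⟩ := exists_nat_gt (max T (241920 * max C 0 / c))
  have hkT : T < k := lt_of_le_of_lt (le_max_left _ _) hk
  have hkC : 241920 * max C 0 / c < k := lt_of_le_of_lt (le_max_right _ _) hk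
  have ht1 := tt_ge_one k (Ms k)
  have ht2 := tt_ge k (Ms k)
  have hup := upper_F0 k
  generalize tt k (Ms k) = t at ht1 ht2 hup
  have ht0 : 0 < t := by linarith
  refine ⟨t, by linarith, ht0, ?_⟩
  rw [heat_eq, heat_eq, inner_W ht0, inner_W ht0, Complex.ofReal_re, Complex.ofReal_re]
  exact arith hc ht0 hkC hup (hlow t ht1) (by positivity)

/-- `R` is the resolvent `(H+1)⁻¹` and there is no other one. -/
def IsTheResolvent (V : ℝ → ℝ) (R : L2 →L[ℂ] L2) : Prop := ∀ S, IsResolvent V S ↔ S = R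

/-- `R` is self-adjoint with spectrum in `[0,1]`, so that `heat R t` is given by the continuous
functional calculus. -/
def SelfAdjointUnit (R : L2 →L[ℂ] L2) : Prop := IsSelfAdjoint R ∧ spectrum ℝ R ⊆ Icc 0 1

/-- the real number `⟨F, e^{-tH} F⟩`. -/
noncomputable def heatPair (R : L2 →L[ℂ] L2) (t : ℝ) (F : L2) : ℝ := (inner ℂ F (heat R t F)).re

/-- For one smooth bump function `F` the quotient `⟨F, e^{-tH₊} F⟩ / ⟨F, e^{-tH₀} F⟩` is unbounded
as `t → ∞`. -/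
def BumpUnbounded (Rp R0 : L2 →L[ℂ] L2) : Prop :=
  ∃ (g : ℝ → ℝ) (F : L2), ContDiff ℝ ∞ g ∧ (∀ x, 0 ≤ g x ∧ g x ≤ 1) ∧
    (∀ x ∈ Icc (-1:ℝ) 1, g x = 1) ∧ (∀ x, x ∉ Icc (-2:ℝ) 2 → g x = 0) ∧
    ((F : ℝ → ℂ) =ᵐ[volume] fun x => ((g x : ℝ) : ℂ)) ∧
    ∀ C T : ℝ, ∃ t ≥ T, 0 < t ∧ C * heatPair R0 t F < heatPair Rp t F

/-- For all heat kernels the quotient `k₊ / k₀` is unbounded on `[-2,2]²` as `t → ∞`, and hence does
not tend to zero uniformly there. -/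
def KernelUnbounded (Rp R0 : L2 →L[ℂ] L2) : Prop :=
  ∀ kp k0 : ℝ → ℝ → ℝ → ℝ, IsHeatKernel Rp kp → IsHeatKernel R0 k0 →
    (∀ C T : ℝ, ∃ t ≥ T, ∃ x ∈ Icc (-2:ℝ) 2, ∃ y ∈ Icc (-2:ℝ) 2,
      C < kp t x y / k0 t x y) ∧
    ¬ TendstoUniformlyOn (fun (t : ℝ) (p : ℝ × ℝ) => kp t p.1 p.2 / k0 t p.1 p.2)
      (fun _ => 0) atTop (Icc (-2:ℝ) 2 ×ˢ Icc (-2:ℝ) 2)

lemma bump_unbounded : BumpUnbounded (Rg (ld phip)) (Rg (ld phi0)) :=
  ⟨cut, F0, cut_contDiff, fun x => ⟨cut_nonneg x, cut_le_one x⟩, fun x hx => cut_eq_one hx,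
    fun x hx => cut_eq_zero (fun h => hx ⟨h.1.le, h.2.le⟩), F0_ae, Pool.Agent.R216.HK.compare⟩

lemma kernel_unbounded : KernelUnbounded (Rg (ld phip)) (Rg (ld phi0)) := by
  intro kp k0 hkp hk0
  have key : ∀ C T : ℝ, ∃ t ≥ T, ∃ x ∈ Icc (-2:ℝ) 2, ∃ y ∈ Icc (-2:ℝ) 2,
      C < kp t x y / k0 t x y := by
    intro C T
    by_contra hcon
    push Not at hcon
    obtain ⟨t, ht, ht0, h⟩ := Pool.Agent.R216.HK.compare C T
    have h1 : (inner ℂ F0 (heat (Rg (ld phip)) t F0)).re ≤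
        C * (inner ℂ F0 (heat (Rg (ld phi0)) t F0)).re := by
      refine kernel_compare hkp hk0 ht0 fun x hx y hy => ?_
      have h2 := hcon t ht x hx y hy
      rwa [div_le_iff₀ ((hk0 t ht0).2.1 x y)] at h2
    linarith
  refine ⟨key, fun h => ?_⟩
  rw [Metric.tendstoUniformlyOn_iff] at h
  obtain ⟨T, hT⟩ := eventually_atTop.1 (h 1 one_pos)
  obtain ⟨t, ht, x, hx, y, hy, h2⟩ := key 1 T
  have h3 := hT t ht (x, y) ⟨hx, hy⟩
  rw [dist_zero_left, Real.norm_eq_abs] at h3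
  linarith [le_abs_self (kp t x y / k0 t x y)]

end Pool.Agent.R216.HK
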