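import Mathlib

/-!
The resolvent `(D*D + 1)⁻¹` as a compression of the orthogonal projection on the graph of `D`.
-/

set_option autoImplicit false
set_option linter.unusedSectionVars false
open Set Filter Topology MeasureTheory

namespace Pool.Agent.R216.HK

section Abstract

variable {E F : Type*} [NormedAddCommGroup E] [InnerProductSpace ℂ E] [CompleteSpace E]
  [NormedAddCommGroup F] [InnerProductSpace ℂ F] [CompleteSpace F]

/-- `f ↦ first component of P_K (f, 0)`. -/
noncomputable def resol (K : Submodule ℂ (WithLp 2 (E × F))) [K.HasOrthogonalProjection] :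
    E →L[ℂ] E :=
  (ContinuousLinearMap.fst ℂ E F) ∘L
    ((WithLp.prodContinuousLinearEquiv 2 ℂ E F : WithLp 2 (E × F) →L[ℂ] (E × F)) ∘L
      (K.starProjection ∘L
        (((WithLp.prodContinuousLinearEquiv 2 ℂ E F).symm : (E × F) →L[ℂ] WithLp 2 (E × F)) ∘L
          ContinuousLinearMap.inl ℂ E F)))

variable (K : Submodule ℂ (WithLp 2 (E × F))) [K.HasOrthogonalProjection]

lemma resol_apply (f : E) : resol K f = (K.starProjection (WithLp.toLp 2 (f, 0))).fst := rfl

lemma inner_resol (f g : E) : inner ℂ g (resol K f) =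
    inner ℂ (WithLp.toLp 2 (g, (0:F))) (K.starProjection (WithLp.toLp 2 (f, 0))) := by
  rw [WithLp.prod_inner_apply, resol_apply]
  simp

lemma resol_symm (f g : E) : inner ℂ (resol K f) g = inner ℂ f (resol K g) := by
  rw [← inner_conj_symm, inner_resol, inner_resol, inner_conj_symm]
  exact K.inner_starProjection_left_eq_right _ _

lemma inner_resol_self (f : E) : inner ℂ f (resol K f) =
    ((‖K.starProjection (WithLp.toLp 2 (f, (0:F)))‖ ^ 2 : ℝ) : ℂ) := by
  rw [inner_resol]
  set v := WithLp.toLp 2 (f, (0:F))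
  have h1 : inner ℂ v (K.starProjection v) = inner ℂ v (K.starProjection (K.starProjection v)) := by
    congr 1
    exact (K.starProjection_eq_self_iff.2 (K.starProjection_apply_mem v)).symm
  rw [h1, ← K.inner_starProjection_left_eq_right, inner_self_eq_norm_sq_to_K]
  push_cast; rfl

lemma resol_selfAdjoint : IsSelfAdjoint (resol K) := by
  rw [ContinuousLinearMap.isSelfAdjoint_iff_isSymmetric]
  intro f g
  exact resol_symm K f g

lemma resol_nonneg : 0 ≤ resol K := by
  rw [ContinuousLinearMap.nonneg_iff_isPositive, ContinuousLinearMap.isPositive_iff_complex]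
  intro f
  have h := inner_resol_self K f
  have h2 : inner ℂ (resol K f) f = ((‖K.starProjection (WithLp.toLp 2 (f, (0:F)))‖ ^ 2 : ℝ) : ℂ) := by
    rw [resol_symm, h]
  constructor
  · rw [h2]; exact congrArg _ (Complex.ofReal_re _)
  · rw [h2]
    have : (0:ℝ) ≤ ‖K.starProjection (WithLp.toLp 2 (f, (0:F)))‖ ^ 2 := by positivity
    exact this.trans (Complex.ofReal_re _).symm.le

lemma norm_inl (f : E) : ‖WithLp.toLp 2 (f, (0:F))‖ = ‖f‖ := by
  simp

lemma resol_le_one : resol K ≤ 1 := by
  rw [ContinuousLinearMap.le_def, ContinuousLinearMap.isPositive_iff_complex]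
  intro f
  have h2 : inner ℂ ((1 - resol K) f) f =
      ((‖f‖ ^ 2 - ‖K.starProjection (WithLp.toLp 2 (f, (0:F)))‖ ^ 2 : ℝ) : ℂ) := by
    have h3 : (1 - resol K) f = f - resol K f := rfl
    rw [h3, inner_sub_left, resol_symm, inner_resol_self, inner_self_eq_norm_sq_to_K]
    push_cast; rfl
  have h4 := K.norm_starProjection_apply_le (WithLp.toLp 2 (f, (0:F)))
  rw [norm_inl] at h4
  constructor
  · rw [h2]; exact congrArg _ (Complex.ofReal_re _)
  · rw [h2]
    have : (0:ℝ) ≤ ‖f‖ ^ 2 - ‖K.starProjection (WithLp.toLp 2 (f, (0:F)))‖ ^ 2 := by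
      have := pow_le_pow_left₀ (norm_nonneg _) h4 2
      linarith
    exact this.trans (Complex.ofReal_re _).symm.le

lemma resol_spectrum : spectrum ℝ (resol K) ⊆ Icc 0 1 := by
  intro x hx
  refine ⟨spectrum_nonneg_of_nonneg (resol_nonneg K) hx, ?_⟩
  have h1 : resol K ≤ algebraMap ℝ (E →L[ℂ] E) 1 := by
    rw [map_one]; exact resol_le_one K
  exact (le_algebraMap_iff_spectrum_le (r := (1:ℝ)) (a := resol K) (resol_selfAdjoint K)).1 h1 x hx

/-- characterisation: `(u,p) = P_K (f,0)` iff `(u,p) ∈ K` and `⟪(v,r),(u,p)⟫ = ⟪v,f⟫` on `K`. -/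
lemma resol_eq_of_mem {u : E} {p : F} {f : E} (hup : WithLp.toLp 2 (u, p) ∈ K)
    (h : ∀ w ∈ K, inner ℂ w.fst (u - f) + inner ℂ w.snd p = 0) : resol K f = u := by
  have h1 : K.starProjection (WithLp.toLp 2 (f, (0:F))) = WithLp.toLp 2 (u, p) := by
    refine K.eq_starProjection_of_mem_of_inner_eq_zero hup fun w hw => ?_
    have h2 := h w hw
    have h3 : inner ℂ w (WithLp.toLp 2 (u, p) - WithLp.toLp 2 (f, (0:F))) = 0 := by
      rw [inner_sub_right, WithLp.prod_inner_apply, WithLp.prod_inner_apply]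
      simp only [inner_zero_right, add_zero]
      rw [inner_sub_right] at h2
      have h5 : inner ℂ w.fst u + inner ℂ w.snd p - inner ℂ w.fst f = 0 := by
        rw [← h2]; ring
      exact h5
    rw [← inner_conj_symm]
    have h4 : WithLp.toLp 2 (f, (0:F)) - WithLp.toLp 2 (u, p) =
        - (WithLp.toLp 2 (u, p) - WithLp.toLp 2 (f, (0:F))) := by abel
    rw [h4, inner_neg_right, h3]; simp
  rw [resol_apply, h1]
  rfl

lemma resol_spec (f : E) : ∀ w ∈ K,
    inner ℂ w.fst (resol K f) + inner ℂ w.snd (K.starProjection (WithLp.toLp 2 (f, (0:F)))).snd =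
      inner ℂ w.fst f := by
  intro w hw
  have h1 := K.starProjection_inner_eq_zero (WithLp.toLp 2 (f, (0:F))) w hw
  rw [← inner_conj_symm] at h1
  have h2 : inner ℂ w (WithLp.toLp 2 (f, (0:F)) - K.starProjection (WithLp.toLp 2 (f, (0:F)))) = 0 := by
    have h5 := congrArg (starRingEnd ℂ) h1
    rw [Complex.conj_conj, map_zero] at h5
    exact h5
  rw [inner_sub_right, WithLp.prod_inner_apply, WithLp.prod_inner_apply] at h2
  simp only [inner_zero_right, add_zero] at h2
  rw [resol_apply]
  exact (sub_eq_zero.1 h2).symm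

end Abstract

end Pool.Agent.R216.HK
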