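import Mathlib

/-!
Weak derivatives on the line: a locally integrable function whose weak derivative is a locally
integrable function is almost everywhere equal to a primitive of the latter.
-/

set_option autoImplicit false
open Set Filter Topology MeasureTheory
open scoped ContDiff

namespace Pool.Agent.R216.HK

lemma exists_bound_support {η : ℝ → ℝ} (hc : HasCompactSupport η) :
    ∃ M : ℝ, 0 < M ∧ ∀ x, x ∉ Ioo (-M) M → η x = 0 ∧ deriv η x = 0 := by
  obtain ⟨M, hM⟩ := hc.isCompact.isBounded.exists_norm_le
  refine ⟨max M 0 + 1, by positivity, fun x hx => ?_⟩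
  have h1 : x ∉ tsupport η := by
    intro h
    have h2 := hM x h
    apply hx
    rw [Real.norm_eq_abs] at h2
    have := le_max_left M 0
    exact abs_lt.1 (by linarith)
  refine ⟨image_eq_zero_of_notMem_tsupport h1, ?_⟩
  by_contra h
  exact h1 (support_deriv_subset (Function.mem_support.2 h))

lemma ibp_primitive {h : ℝ → ℂ} (hh : LocallyIntegrable h) {η : ℝ → ℝ} (hη : ContDiff ℝ ∞ η)
    (hc : HasCompactSupport η) :
    ∫ x, deriv η x • (∫ s in (0:ℝ)..x, h s) = - ∫ x, η x • h x := by
  obtain ⟨M, hM0, hM⟩ := exists_bound_support hc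
  set G : ℝ → ℂ := fun x => ∫ s in (0:ℝ)..x, h s with hG
  have hii : ∀ a b : ℝ, IntervalIntegrable h volume a b := fun a b =>
    (hh.integrableOn_isCompact isCompact_uIcc).intervalIntegrable
  have hη1 : ContDiff ℝ 1 η := hη.of_le (by exact_mod_cast le_top)
  have hdc : Continuous (deriv η) := hη1.continuous_deriv le_rfl
  have hdiff : ∀ x, HasDerivAt η (deriv η x) x := fun x =>
    (hη1.differentiable one_ne_zero x).hasDerivAt
  have hout : ∀ x, x ∉ Ioc (-M) M → x ∉ Ioo (-M) M := fun x hx h => hx ⟨h.1, h.2.le⟩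
  have e1 : ∫ x, deriv η x • G x = ∫ x in Ioc (-M) M, deriv η x • G x := by
    rw [setIntegral_eq_integral_of_forall_compl_eq_zero]
    intro x hx
    rw [(hM x (hout x hx)).2, zero_smul]
  have e2 : ∫ x, η x • h x = ∫ x in Ioc (-M) M, η x • h x := by
    rw [setIntegral_eq_integral_of_forall_compl_eq_zero]
    intro x hx
    rw [(hM x (hout x hx)).1, zero_smul]
  rw [e1, e2]
  set μ : Measure ℝ := volume.restrict (Ioc (-M) M) with hμ
  have hhint : Integrable h μ :=
    (hh.integrableOn_isCompact isCompact_Icc).mono_set Ioc_subset_Icc_self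
  have hdint : Integrable (deriv η) μ :=
    (hdc.integrableOn_Icc).mono_set Ioc_subset_Icc_self
  set k : ℝ → ℝ → ℂ := fun x s => if s ≤ x then deriv η x • h s else 0 with hk
  have hkint : Integrable (Function.uncurry k) (μ.prod μ) := by
    have hprod : Integrable (fun z : ℝ × ℝ => deriv η z.1 • h z.2) (μ.prod μ) :=
      hdint.smul_prod hhint
    have hms : MeasurableSet {z : ℝ × ℝ | z.2 ≤ z.1} := measurableSet_le measurable_snd measurable_fst
    have := hprod.indicator hms
    refine this.congr (Eventually.of_forall fun z => ?_)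
    simp only [indicator, mem_ofPred_eq, Function.uncurry, hk]
  have hswap := integral_integral_swap hkint
  have e3 : ∫ x, ∫ s, k x s ∂μ ∂μ = ∫ x in Ioc (-M) M, (deriv η x • G x - deriv η x • G (-M)) := by
    apply setIntegral_congr_fun measurableSet_Ioc
    intro x hx
    simp only
    have h1 : ∫ s, k x s ∂μ = ∫ s in Ioc (-M) M, (Iic x).indicator (fun s => deriv η x • h s) s := by
      rw [hμ]
      congr 1
    rw [h1, setIntegral_indicator measurableSet_Iic]
    have h2 : Ioc (-M) M ∩ Iic x = Ioc (-M) x := by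
      ext s; simp only [mem_inter_iff, mem_Ioc, mem_Iic]
      constructor
      · rintro ⟨⟨a, b⟩, c⟩; exact ⟨a, c⟩
      · rintro ⟨a, c⟩; exact ⟨⟨a, c.trans hx.2⟩, c⟩
    rw [h2, integral_smul, ← intervalIntegral.integral_of_le hx.1.le, ← smul_sub]
    congr 1
    simp only [hG]
    rw [intervalIntegral.integral_interval_sub_left (hii _ _) (hii _ _)]
  have e4 : ∫ s, ∫ x, k x s ∂μ ∂μ = ∫ s in Ioc (-M) M, -(η s • h s) := by
    apply setIntegral_congr_fun measurableSet_Ioc
    intro s hs
    simp only
    have h1 : ∫ x, k x s ∂μ = ∫ x in Ioc (-M) M, (Ici s).indicator (fun x => deriv η x • h s) x := by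
      rw [hμ]
      congr 1
    rw [h1, setIntegral_indicator measurableSet_Ici]
    have h2 : Ioc (-M) M ∩ Ici s = Icc s M := by
      ext x; simp only [mem_inter_iff, mem_Ioc, mem_Icc, mem_Ici]
      constructor
      · rintro ⟨⟨a, b⟩, c⟩; exact ⟨c, b⟩
      · rintro ⟨a, c⟩; exact ⟨⟨lt_of_lt_of_le hs.1 a, c⟩, a⟩
    rw [h2, integral_Icc_eq_integral_Ioc, integral_smul_const,
      ← intervalIntegral.integral_of_le hs.2,
      intervalIntegral.integral_eq_sub_of_hasDerivAt (fun x _ => hdiff x)
        (hdc.intervalIntegrable _ _)]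
    rw [(hM M (fun h => lt_irrefl _ h.2)).1, zero_sub, neg_smul]
  rw [e3, e4] at hswap
  have hGc : Continuous G := intervalIntegral.continuous_primitive (fun a b => hii a b) 0
  have hi1 : IntegrableOn (fun x => deriv η x • G x) (Ioc (-M) M) :=
    ((hdc.smul hGc).integrableOn_Icc).mono_set Ioc_subset_Icc_self
  have hi2 : IntegrableOn (fun x => deriv η x • G (-M)) (Ioc (-M) M) :=
    ((hdc.smul continuous_const).integrableOn_Icc).mono_set Ioc_subset_Icc_self
  rw [integral_sub hi1 hi2, integral_neg] at hswap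
  have e5 : ∫ x in Ioc (-M) M, deriv η x • G (-M) = 0 := by
    rw [integral_smul_const, ← intervalIntegral.integral_of_le (by linarith),
      intervalIntegral.integral_eq_sub_of_hasDerivAt (fun x _ => hdiff x)
        (hdc.intervalIntegrable _ _), (hM M (fun h => lt_irrefl _ h.2)).1,
      (hM (-M) (fun h => lt_irrefl _ h.1)).1]
    simp
  rw [e5, sub_zero] at hswap
  exact hswap

lemma exists_primitive {θ : ℝ → ℝ} (hθ : ContDiff ℝ ∞ θ) (hc : HasCompactSupport θ)
    (h0 : ∫ x, θ x = 0) :
    ∃ Θ : ℝ → ℝ, ContDiff ℝ ∞ Θ ∧ HasCompactSupport Θ ∧ deriv Θ = θ := by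
  obtain ⟨M, hM0, hM⟩ := exists_bound_support hc
  have hθc := hθ.continuous
  have hd : ∀ x, HasDerivAt (fun x => ∫ s in (-M)..x, θ s) (θ x) x := fun x =>
    intervalIntegral.integral_hasDerivAt_right (hθc.intervalIntegrable _ _)
      (hθc.stronglyMeasurableAtFilter _ _) hθc.continuousAt
  have hd' : deriv (fun x => ∫ s in (-M)..x, θ s) = θ := funext fun x => (hd x).deriv
  refine ⟨fun x => ∫ s in (-M)..x, θ s, ?_, ?_, hd'⟩
  · rw [contDiff_infty_iff_deriv]
    exact ⟨fun x => (hd x).differentiableAt, by rw [hd']; exact hθ⟩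
  · apply HasCompactSupport.intro (isCompact_Icc (a := -M) (b := M))
    intro x hx
    rw [mem_Icc, not_and_or, not_le, not_le] at hx
    rcases hx with hx | hx
    · rw [intervalIntegral.integral_symm, intervalIntegral.integral_zero_ae, neg_zero]
      refine Eventually.of_forall fun s hs => ?_
      rw [uIoc_of_le hx.le] at hs
      exact (hM s (fun h => by linarith [h.1, hs.2])).1
    · have h1 : ∫ s in (-M)..x, θ s = ∫ s, θ s := by
        rw [intervalIntegral.integral_of_le (by linarith),
          setIntegral_eq_integral_of_forall_compl_eq_zero]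
        intro s hs
        apply (hM s _).1
        intro h
        exact hs ⟨h.1, by linarith [h.2]⟩
      rw [h1, h0]

lemma weak_const {U : ℝ → ℂ} (hU : LocallyIntegrable U)
    (H : ∀ η : ℝ → ℝ, ContDiff ℝ ∞ η → HasCompactSupport η → ∫ x, deriv η x • U x = 0) :
    ∃ c : ℂ, ∀ᵐ x, U x = c := by
  -- a bump function with integral one
  let b : ContDiffBump (0:ℝ) := ⟨1, 2, one_pos, one_lt_two⟩
  set η0 : ℝ → ℝ := b.normed volume with hη0
  have h1 : ContDiff ℝ ∞ η0 := b.contDiff_normed
  have h2 : HasCompactSupport η0 := b.hasCompactSupport_normed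
  have h3 : ∫ x, η0 x = 1 := b.integral_normed
  set c : ℂ := ∫ x, η0 x • U x with hc
  refine ⟨c, ?_⟩
  have key : ∀ᵐ x, U x - c = 0 := by
    have hloc : LocallyIntegrable (fun x => U x - c) := hU.sub (locallyIntegrable_const c)
    refine ae_eq_zero_of_integral_contDiff_smul_eq_zero hloc fun η hη hηc => ?_
    have hint : Integrable η := hη.continuous.integrable_of_hasCompactSupport hηc
    have hint0 : Integrable η0 := h1.continuous.integrable_of_hasCompactSupport h2
    set I := ∫ x, η x with hI
    have hθ : ContDiff ℝ ∞ (fun x => η x - I * η0 x) := hη.sub (contDiff_const.mul h1)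
    have hθc : HasCompactSupport (fun x => η x - I * η0 x) := hηc.sub (h2.mul_left)
    have hθ0 : ∫ x, (η x - I * η0 x) = 0 := by
      rw [integral_sub hint (hint0.const_mul _), integral_const_mul, h3]; ring
    obtain ⟨Θ, hΘ1, hΘ2, hΘ3⟩ := exists_primitive hθ hθc hθ0
    have h4 := H Θ hΘ1 hΘ2
    rw [hΘ3] at h4
    have i1 : Integrable (fun x => η x • U x) :=
      hU.integrable_smul_left_of_hasCompactSupport hη.continuous hηc
    have i2 : Integrable (fun x => η0 x • U x) :=
      hU.integrable_smul_left_of_hasCompactSupport h1.continuous h2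
    have h5 : ∫ x, (η x - I * η0 x) • U x = (∫ x, η x • U x) - I • c := by
      have : ∀ x, (η x - I * η0 x) • U x = η x • U x - I • (η0 x • U x) := by
        intro x; rw [sub_smul, mul_smul]
      have i2' : Integrable (fun x => I • (η0 x • U x)) := i2.smul I
      simp_rw [this]
      rw [integral_sub i1 i2', integral_smul]
    rw [h5] at h4
    have i3 : Integrable (fun x => η x • c) := hint.smul_const c
    calc ∫ x, η x • (U x - c) = ∫ x, (η x • U x - η x • c) := by
          congr 1; funext x; rw [smul_sub]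
      _ = (∫ x, η x • U x) - I • c := by
          rw [integral_sub i1 i3, integral_smul_const]
      _ = 0 := h4
  filter_upwards [key] with x hx
  exact sub_eq_zero.1 hx

/-- If `U` has the weak derivative `h` then `U` is a.e. a primitive of `h`. -/
lemma weak_primitive {U h : ℝ → ℂ} (hU : LocallyIntegrable U) (hh : LocallyIntegrable h)
    (H : ∀ η : ℝ → ℝ, ContDiff ℝ ∞ η → HasCompactSupport η →
      ∫ x, deriv η x • U x = - ∫ x, η x • h x) :
    ∃ c : ℂ, ∀ᵐ x, U x = c + ∫ s in (0:ℝ)..x, h s := by
  have hii : ∀ a b : ℝ, IntervalIntegrable h volume a b := fun a b =>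
    (hh.integrableOn_isCompact isCompact_uIcc).intervalIntegrable
  have hGc : Continuous (fun x => ∫ s in (0:ℝ)..x, h s) :=
    intervalIntegral.continuous_primitive (fun a b => hii a b) 0
  have hloc : LocallyIntegrable (fun x => U x - ∫ s in (0:ℝ)..x, h s) :=
    hU.sub hGc.locallyIntegrable
  obtain ⟨c, hc⟩ := weak_const hloc fun η hη hηc => by
    have hη1 : ContDiff ℝ 1 η := hη.of_le (by exact_mod_cast le_top)
    have hdc : Continuous (deriv η) := hη1.continuous_deriv le_rfl
    have i1 : Integrable (fun x => deriv η x • U x) :=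
      hU.integrable_smul_left_of_hasCompactSupport hdc hηc.deriv
    have i2 : Integrable (fun x => deriv η x • ∫ s in (0:ℝ)..x, h s) :=
      hGc.locallyIntegrable.integrable_smul_left_of_hasCompactSupport hdc hηc.deriv
    simp_rw [smul_sub]
    rw [integral_sub i1 i2, H η hη hηc, ibp_primitive hh hη hηc, sub_self]
  refine ⟨c, ?_⟩
  filter_upwards [hc] with x hx
  rw [← hx]; ring

end Pool.Agent.R216.HK
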