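import Pool.Agent.R216.HK2
import Pool.Agent.R216.HK3

/-!
The operator `D*D`, `D ψ = ψ' - g ψ`, on `L²(ℝ)` and the regularity of its resolvent.
-/

set_option autoImplicit false
set_option linter.unusedSectionVars false
open Set Filter Topology MeasureTheory
open scoped ContDiff

namespace Pool.Agent.R216.HK

/-- `ψ ∈ C_c^∞(ℝ; ℂ)`. -/
def Test (ψ : ℝ → ℂ) : Prop := ContDiff ℝ ∞ ψ ∧ HasCompactSupport ψ

/-- `L²(ℝ; ℂ)`. -/
abbrev L2 : Type := Lp ℂ 2 (volume : Measure ℝ)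

/-- the class in `L²` of a continuous function with compact support. -/
noncomputable def cc (ψ : ℝ → ℂ) (h : Continuous ψ) (hs : HasCompactSupport ψ) : L2 :=
  (h.memLp_of_hasCompactSupport hs).toLp ψ

lemma cc_ae {ψ : ℝ → ℂ} (h : Continuous ψ) (hs : HasCompactSupport ψ) :
    (cc ψ h hs : ℝ → ℂ) =ᵐ[volume] ψ := MemLp.coeFn_toLp _

/-- `D ψ = ψ' - g ψ`. -/
noncomputable def D (g : ℝ → ℝ) (ψ : ℝ → ℂ) (x : ℝ) : ℂ := deriv ψ x - (g x : ℂ) * ψ x

lemma Test.cont {ψ : ℝ → ℂ} (h : Test ψ) : Continuous ψ := h.1.continuous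

lemma Test.diff {ψ : ℝ → ℂ} (h : Test ψ) : Differentiable ℝ ψ :=
  h.1.differentiable (by simp)

lemma Test.deriv_cont {ψ : ℝ → ℂ} (h : Test ψ) : Continuous (deriv ψ) :=
  (h.1.of_le (by exact_mod_cast le_top : (1 : WithTop ℕ∞) ≤ ∞)).continuous_deriv le_rfl

lemma D_cont {g : ℝ → ℝ} (hg : Continuous g) {ψ : ℝ → ℂ} (h : Test ψ) : Continuous (D g ψ) :=
  h.deriv_cont.sub ((Complex.continuous_ofReal.comp hg).mul h.cont)

lemma D_supp {g : ℝ → ℝ} {ψ : ℝ → ℂ} (h : Test ψ) : HasCompactSupport (D g ψ) :=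
  (h.2.deriv).sub (h.2.mul_left)

/-- graph of `D` on test functions. -/
def gr (g : ℝ → ℝ) : Submodule ℂ (WithLp 2 (L2 × L2)) where
  carrier := {w | ∃ ψ, Test ψ ∧ (w.fst : ℝ → ℂ) =ᵐ[volume] ψ ∧
    (w.snd : ℝ → ℂ) =ᵐ[volume] D g ψ}
  add_mem' := by
    rintro a b ⟨ψ, hψ, h1, h2⟩ ⟨χ, hχ, h3, h4⟩
    refine ⟨ψ + χ, ⟨hψ.1.add hχ.1, hψ.2.add hχ.2⟩, ?_, ?_⟩
    · have : (a + b).fst = a.fst + b.fst := rfl
      rw [this]
      filter_upwards [Lp.coeFn_add a.fst b.fst, h1, h3] with x e1 e2 e3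
      rw [e1, Pi.add_apply, e2, e3]; rfl
    · have : (a + b).snd = a.snd + b.snd := rfl
      rw [this]
      filter_upwards [Lp.coeFn_add a.snd b.snd, h2, h4] with x e1 e2 e3
      rw [e1, Pi.add_apply, e2, e3]
      simp only [D]
      rw [deriv_add (hψ.diff x) (hχ.diff x), Pi.add_apply]; ring
  zero_mem' := by
    refine ⟨0, ⟨contDiff_const, HasCompactSupport.zero⟩, ?_, ?_⟩
    · exact Lp.coeFn_zero _ _ _
    · filter_upwards [Lp.coeFn_zero ℂ 2 (volume : Measure ℝ)] with x hx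
      have : ((0 : WithLp 2 (L2 × L2)).snd) = (0 : L2) := rfl
      rw [this, hx]
      simp [D]
  smul_mem' := by
    rintro c a ⟨ψ, hψ, h1, h2⟩
    refine ⟨c • ψ, ⟨contDiff_const.smul hψ.1, hψ.2.smul_left (f := fun _ => c)⟩, ?_, ?_⟩
    · have : (c • a).fst = c • a.fst := rfl
      rw [this]
      filter_upwards [Lp.coeFn_smul c a.fst, h1] with x e1 e2
      rw [e1, Pi.smul_apply, e2]; rfl
    · have : (c • a).snd = c • a.snd := rfl
      rw [this]
      filter_upwards [Lp.coeFn_smul c a.snd, h2] with x e1 e2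
      rw [e1, Pi.smul_apply, e2]
      simp only [D, Pi.smul_apply, smul_eq_mul]
      rw [deriv_const_smul c (hψ.diff x), smul_eq_mul]; ring

lemma mem_gr {g : ℝ → ℝ} (hg : Continuous g) {ψ : ℝ → ℂ} (h : Test ψ) :
    WithLp.toLp 2 (cc ψ h.cont h.2, cc (D g ψ) (D_cont hg h) (D_supp h)) ∈ gr g :=
  ⟨ψ, h, cc_ae h.cont h.2, cc_ae (D_cont hg h) (D_supp h)⟩

/-- closure of the graph. -/
noncomputable def K (g : ℝ → ℝ) : Submodule ℂ (WithLp 2 (L2 × L2)) := (gr g).topologicalClosure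

instance (g : ℝ → ℝ) : CompleteSpace (K g) := by
  unfold K
  exact Submodule.topologicalClosure.completeSpace _

lemma mem_K {g : ℝ → ℝ} (hg : Continuous g) {ψ : ℝ → ℂ} (h : Test ψ) :
    WithLp.toLp 2 (cc ψ h.cont h.2, cc (D g ψ) (D_cont hg h) (D_supp h)) ∈ K g :=
  (gr g).le_topologicalClosure (mem_gr hg h)

/-- the resolvent `(D*D+1)⁻¹`. -/
noncomputable def Rg (g : ℝ → ℝ) : L2 →L[ℂ] L2 := resol (K g)

lemma inner_cc {ψ : ℝ → ℂ} (h : Continuous ψ) (hs : HasCompactSupport ψ) (u : L2) :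
    inner ℂ (cc ψ h hs) u = ∫ x, (starRingEnd ℂ) (ψ x) * u x := by
  rw [L2.inner_def]
  apply integral_congr_ae
  filter_upwards [cc_ae h hs] with x hx
  rw [hx, RCLike.inner_apply, mul_comm]

lemma L2_locInt (u : L2) : LocallyIntegrable (u : ℝ → ℂ) :=
  (Lp.memLp u).locallyIntegrable (by norm_num)

/-- a function on `K g` vanishing on the graph vanishes. -/
lemma K_orth {g : ℝ → ℝ} {z : WithLp 2 (L2 × L2)} (hz : ∀ w ∈ gr g, inner ℂ z w = 0) :
    ∀ w ∈ K g, inner ℂ z w = 0 := by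
  intro w hw
  have h1 : gr g ≤ (ℂ ∙ z)ᗮ := fun w hw => Submodule.mem_orthogonal_singleton_iff_inner_right.2 (hz w hw)
  have h2 : K g ≤ (ℂ ∙ z)ᗮ := (gr g).topologicalClosure_minimal h1 (Submodule.isClosed_orthogonal _)
  exact Submodule.mem_orthogonal_singleton_iff_inner_right.1 (h2 hw)

/-- integration by parts -/
lemma ibp_c {η : ℝ → ℝ} {v : ℝ → ℂ} (hη : ContDiff ℝ ∞ η) (hc : HasCompactSupport η)
    (hv : ContDiff ℝ 1 v) : ∫ x, ((deriv η x : ℝ) : ℂ) * v x = - ∫ x, ((η x : ℝ) : ℂ) * deriv v x := by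
  have hη1 : ContDiff ℝ 1 η := hη.of_le (by exact_mod_cast le_top)
  have hdc : Continuous (deriv η) := hη1.continuous_deriv le_rfl
  have hvd := hv.continuous_deriv le_rfl
  have hcη : Continuous (fun x => (η x : ℂ)) := Complex.continuous_ofReal.comp hη.continuous
  have hcη' : Continuous (fun x => ((deriv η x : ℝ) : ℂ)) := Complex.continuous_ofReal.comp hdc
  have hsη : HasCompactSupport (fun x => (η x : ℂ)) := hc.comp_left (g := fun y : ℝ => (y : ℂ)) rfl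
  have hsη' : HasCompactSupport (fun x => ((deriv η x : ℝ) : ℂ)) :=
    hc.deriv.comp_left (g := fun y : ℝ => (y : ℂ)) rfl
  have h := integral_mul_deriv_eq_deriv_mul_of_integrable (u := fun x => (η x : ℂ)) (v := v)
    (u' := fun x => ((deriv η x : ℝ) : ℂ)) (v' := deriv v)
    (fun x _ => ((hη1.differentiable one_ne_zero x).hasDerivAt).ofReal_comp)
    (fun x _ => (hv.differentiable one_ne_zero x).hasDerivAt)
    ((hcη.mul hvd).integrable_of_hasCompactSupport hsη.mul_right)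
    ((hcη'.mul hv.continuous).integrable_of_hasCompactSupport hsη'.mul_right)
    ((hcη.mul hv.continuous).integrable_of_hasCompactSupport hsη.mul_right)
  rw [h, neg_neg]

section Phi

variable {φ : ℝ → ℝ} (hφ : ContDiff ℝ ∞ φ) (hpos : ∀ x, 0 < φ x)

/-- the logarithmic derivative -/
noncomputable def ld (φ : ℝ → ℝ) (x : ℝ) : ℝ := deriv φ x / φ x

include hφ hpos

lemma ld_smooth : ContDiff ℝ ∞ (ld φ) := by
  have h1 : ContDiff ℝ ∞ (deriv φ) := (contDiff_infty_iff_deriv.1 hφ).2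
  exact h1.div hφ (fun x => (hpos x).ne')

lemma phi_hasDeriv (x : ℝ) : HasDerivAt φ (deriv φ x) x :=
  (hφ.differentiable (by simp) x).hasDerivAt

/-- `(ψ/φ)' = Dψ/φ` -/
lemma div_hasDeriv {ψ : ℝ → ℂ} (h : Test ψ) (x : ℝ) :
    HasDerivAt (fun x => ψ x / (φ x : ℂ)) (D (ld φ) ψ x / (φ x : ℂ)) x := by
  have h1 := (h.diff x).hasDerivAt
  have h2 : HasDerivAt (fun x => (φ x : ℂ)) ((deriv φ x : ℝ) : ℂ) x :=
    (phi_hasDeriv hφ hpos x).ofReal_comp
  have h3 : (φ x : ℂ) ≠ 0 := by exact_mod_cast (hpos x).ne'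
  have h4 := h1.div h2 h3
  refine h4.congr_deriv ?_
  unfold D ld
  push_cast
  field_simp

lemma div_contDiff {ψ : ℝ → ℂ} (h : Test ψ) : ContDiff ℝ 1 (fun x => ψ x / (φ x : ℂ)) := by
  have h1 : ContDiff ℝ 1 ψ := h.1.of_le (by exact_mod_cast le_top)
  have h2 : ContDiff ℝ 1 (fun x => (φ x : ℂ)) :=
    Complex.ofRealCLM.contDiff.comp (hφ.of_le (by exact_mod_cast le_top))
  simpa [div_eq_mul_inv] using h1.mul (h2.inv (fun x => by exact_mod_cast (hpos x).ne'))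

/-- weak derivative of `u/φ` is `p/φ` for `(u,p) ∈ K`. -/
lemma weak_one {w : WithLp 2 (L2 × L2)} (hw : w ∈ K (ld φ)) {η : ℝ → ℝ} (hη : ContDiff ℝ ∞ η)
    (hc : HasCompactSupport η) :
    ∫ x, deriv η x • ((φ x)⁻¹ • (w.fst : ℝ → ℂ) x) = - ∫ x, η x • ((φ x)⁻¹ • (w.snd : ℝ → ℂ) x) := by
  have hη1 : ContDiff ℝ 1 η := hη.of_le (by exact_mod_cast le_top)
  have hdc : Continuous (deriv η) := hη1.continuous_deriv le_rfl
  have hφi : Continuous (fun x => (φ x)⁻¹) := hφ.continuous.inv₀ (fun x => (hpos x).ne')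
  have ha : Continuous (fun x => ((deriv η x * (φ x)⁻¹ : ℝ) : ℂ)) :=
    Complex.continuous_ofReal.comp (hdc.mul hφi)
  have hb : Continuous (fun x => ((η x * (φ x)⁻¹ : ℝ) : ℂ)) :=
    Complex.continuous_ofReal.comp (hη.continuous.mul hφi)
  have has : HasCompactSupport (fun x => ((deriv η x * (φ x)⁻¹ : ℝ) : ℂ)) :=
    (hc.deriv.mul_right (f' := fun x => (φ x)⁻¹)).comp_left (g := fun y : ℝ => (y : ℂ)) rfl
  have hbs : HasCompactSupport (fun x => ((η x * (φ x)⁻¹ : ℝ) : ℂ)) :=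
    (hc.mul_right (f' := fun x => (φ x)⁻¹)).comp_left (g := fun y : ℝ => (y : ℂ)) rfl
  set z : WithLp 2 (L2 × L2) := WithLp.toLp 2 (cc _ ha has, cc _ hb hbs) with hz
  have hin : ∀ w : WithLp 2 (L2 × L2), inner ℂ z w =
      (∫ x, deriv η x • ((φ x)⁻¹ • (w.fst : ℝ → ℂ) x)) +
        ∫ x, η x • ((φ x)⁻¹ • (w.snd : ℝ → ℂ) x) := by
    intro w
    rw [WithLp.prod_inner_apply]
    have e1 : inner ℂ (cc _ ha has) w.fst = ∫ x, deriv η x • ((φ x)⁻¹ • (w.fst : ℝ → ℂ) x) := by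
      rw [inner_cc]
      congr 1; funext x
      rw [Complex.conj_ofReal, smul_smul, Complex.real_smul]
    have e2 : inner ℂ (cc _ hb hbs) w.snd = ∫ x, η x • ((φ x)⁻¹ • (w.snd : ℝ → ℂ) x) := by
      rw [inner_cc]
      congr 1; funext x
      rw [Complex.conj_ofReal, smul_smul, Complex.real_smul]
    rw [← e1, ← e2]
    rfl
  have h0 : ∀ w ∈ gr (ld φ), inner ℂ z w = 0 := by
    rintro w ⟨ψ, hψ, h1, h2⟩
    rw [hin]
    have h3 := ibp_c hη hc (div_contDiff hφ hpos hψ)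
    have e1 : ∫ x, deriv η x • ((φ x)⁻¹ • (w.fst : ℝ → ℂ) x) =
        ∫ x, ((deriv η x : ℝ) : ℂ) * (ψ x / (φ x : ℂ)) := by
      apply integral_congr_ae
      filter_upwards [h1] with x hx
      rw [hx, Complex.real_smul, Complex.real_smul]; push_cast
      rw [div_eq_inv_mul]
    have e2 : ∫ x, η x • ((φ x)⁻¹ • (w.snd : ℝ → ℂ) x) =
        ∫ x, (η x : ℂ) * deriv (fun x => ψ x / (φ x : ℂ)) x := by
      apply integral_congr_ae
      filter_upwards [h2] with x hx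
      rw [hx, (div_hasDeriv hφ hpos hψ x).deriv, Complex.real_smul, Complex.real_smul]; push_cast
      rw [div_eq_inv_mul]
    rw [e1, e2, h3]; ring
  have h4 := K_orth h0 w hw
  rw [hin] at h4
  exact eq_neg_of_add_eq_zero_left h4

lemma test_mul {η : ℝ → ℝ} (hη : ContDiff ℝ ∞ η) (hc : HasCompactSupport η) :
    Test (fun x => ((φ x * η x : ℝ) : ℂ)) := by
  refine ⟨?_, ?_⟩
  · exact Complex.ofRealCLM.contDiff.comp (hφ.mul hη)
  · exact (hc.mul_left (f := φ)).comp_left (g := fun y : ℝ => (y : ℂ)) rfl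

lemma D_mul {η : ℝ → ℝ} (hη : ContDiff ℝ ∞ η) (x : ℝ) :
    D (ld φ) (fun x => ((φ x * η x : ℝ) : ℂ)) x = ((φ x * deriv η x : ℝ) : ℂ) := by
  have h1 : HasDerivAt (fun x => φ x * η x) (deriv φ x * η x + φ x * deriv η x) x :=
    (phi_hasDeriv hφ hpos x).mul ((hη.differentiable (by simp) x).hasDerivAt)
  have h2 := h1.ofReal_comp.deriv
  simp only [D]
  rw [h2]
  have h3 : (φ x : ℂ) ≠ 0 := by exact_mod_cast (hpos x).ne'
  simp only [ld]
  push_cast
  field_simp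
  ring

/-- weak derivative of `φ p` is `φ (u - f)`. -/
lemma weak_two (f : L2) {η : ℝ → ℝ} (hη : ContDiff ℝ ∞ η) (hc : HasCompactSupport η) :
    ∫ x, deriv η x • (φ x • ((K (ld φ)).starProjection (WithLp.toLp 2 (f, (0:L2)))).snd x) =
      - ∫ x, η x • (φ x • ((Rg (ld φ) f : ℝ → ℂ) x - f x)) := by
  have hη1 : ContDiff ℝ 1 η := hη.of_le (by exact_mod_cast le_top)
  have hdc : Continuous (deriv η) := hη1.continuous_deriv le_rfl
  have hld := (ld_smooth hφ hpos).continuous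
  set ψ : ℝ → ℂ := fun x => ((φ x * η x : ℝ) : ℂ) with hψ
  have hT : Test ψ := test_mul hφ hpos hη hc
  have h := resol_spec (K (ld φ)) f _ (mem_K hld hT)
  have h' : inner ℂ (cc ψ hT.cont hT.2) (Rg (ld φ) f) + inner ℂ (cc (D (ld φ) ψ) (D_cont hld hT)
      (D_supp hT)) ((K (ld φ)).starProjection (WithLp.toLp 2 (f, (0:L2)))).snd =
      inner ℂ (cc ψ hT.cont hT.2) f := h
  rw [inner_cc, inner_cc, inner_cc] at h'
  have e1 : ∫ x, (starRingEnd ℂ) (D (ld φ) ψ x) *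
      ((K (ld φ)).starProjection (WithLp.toLp 2 (f, (0:L2)))).snd x =
      ∫ x, deriv η x • (φ x • ((K (ld φ)).starProjection (WithLp.toLp 2 (f, (0:L2)))).snd x) := by
    congr 1; funext x
    rw [hψ, D_mul hφ hpos hη, Complex.conj_ofReal, smul_smul, Complex.real_smul, mul_comm (φ x)]
  have hi : ∀ u : L2, Integrable (fun x => (starRingEnd ℂ) (ψ x) * u x) := by
    intro u
    have := (L2_locInt u).integrable_smul_left_of_hasCompactSupport
      (hφ.continuous.mul hη.continuous) (hc.mul_left (f := φ))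
    refine this.congr (Eventually.of_forall fun x => ?_)
    simp only [hψ, Complex.conj_ofReal, Complex.real_smul, Pi.mul_apply]
  have e2 : ∫ x, η x • (φ x • ((Rg (ld φ) f : ℝ → ℂ) x - f x)) =
      (∫ x, (starRingEnd ℂ) (ψ x) * (Rg (ld φ) f : ℝ → ℂ) x) -
        ∫ x, (starRingEnd ℂ) (ψ x) * f x := by
    rw [← integral_sub (hi _) (hi _)]
    congr 1; funext x
    rw [← mul_sub, hψ]
    simp only [Complex.conj_ofReal, Complex.real_smul]
    push_cast; ring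
  rw [← e1, e2, ← h']
  ring

/-- the representation of `u = (H+1)⁻¹ f`. -/
lemma representation (f : L2) : ∃ c c' : ℂ, ∀ᵐ x, (Rg (ld φ) f : ℝ → ℂ) x =
    φ x • (c + ∫ s in (0:ℝ)..x, ((φ s) ^ 2)⁻¹ • (c' - ∫ r in (0:ℝ)..s,
      φ r • (f r - (Rg (ld φ) f : ℝ → ℂ) r))) := by
  set u : L2 := Rg (ld φ) f with hu
  set P := (K (ld φ)).starProjection (WithLp.toLp 2 (f, (0:L2))) with hP
  have hPK : P ∈ K (ld φ) := (K (ld φ)).starProjection_apply_mem _
  have hPu : P.fst = u := rfl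
  have hφi : Continuous (fun x => (φ x)⁻¹) := hφ.continuous.inv₀ (fun x => (hpos x).ne')
  have l1 : LocallyIntegrable (fun x => φ x • (P.snd : ℝ → ℂ) x) :=
    (L2_locInt P.snd).continuous_smul hφ.continuous
  have l2 : LocallyIntegrable (fun x => φ x • ((u : ℝ → ℂ) x - f x)) :=
    ((L2_locInt u).sub (L2_locInt f)).continuous_smul hφ.continuous
  have l3 : LocallyIntegrable (fun x => (φ x)⁻¹ • (u : ℝ → ℂ) x) :=
    (L2_locInt u).continuous_smul hφi
  have l4 : LocallyIntegrable (fun x => (φ x)⁻¹ • (P.snd : ℝ → ℂ) x) :=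
    (L2_locInt P.snd).continuous_smul hφi
  obtain ⟨c', hc'⟩ := weak_primitive l1 l2 (fun η hη hc => weak_two hφ hpos f hη hc)
  obtain ⟨c, hc⟩ := weak_primitive l3 l4 (fun η hη hc => by
    have := weak_one hφ hpos hPK hη hc
    rw [hPu] at this
    exact this)
  refine ⟨c, c', ?_⟩
  filter_upwards [hc] with x hx
  have h1 : (u : ℝ → ℂ) x = φ x • ((φ x)⁻¹ • (u : ℝ → ℂ) x) := by
    rw [smul_smul, mul_inv_cancel₀ (hpos x).ne', one_smul]
  rw [h1, hx]
  congr 2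
  apply intervalIntegral.integral_congr_ae
  filter_upwards [hc'] with s hs _
  have h2 : (φ s)⁻¹ • (P.snd : ℝ → ℂ) s = ((φ s) ^ 2)⁻¹ • (φ s • (P.snd : ℝ → ℂ) s) := by
    rw [smul_smul]
    congr 1
    have := (hpos s).ne'
    field_simp
  rw [h2, hs]
  congr 1
  have h3 : ∫ r in (0:ℝ)..s, φ r • ((u : ℝ → ℂ) r - f r) =
      - ∫ r in (0:ℝ)..s, φ r • (f r - (u : ℝ → ℂ) r) := by
    rw [← intervalIntegral.integral_neg]
    congr 1; funext r
    rw [← smul_neg, neg_sub]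
  rw [h3]; ring

end Phi

end Pool.Agent.R216.HK
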