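import Pool.Agent.R216.HK1
import Pool.Agent.R216.HK4

/-!
Quantitative local bound for `H^j e^{-tH} f` when the ground state `φ` has a high plateau.
-/

set_option autoImplicit false
set_option linter.unusedSectionVars false
open Set Filter Topology MeasureTheory
open scoped ContDiff

namespace Pool.Agent.R216.HK

lemma L2_norm_sq (u : L2) : ‖u‖ ^ 2 = ∫ x, ‖(u : ℝ → ℂ) x‖ ^ 2 := by
  have h1 := L2.inner_def (𝕜 := ℂ) u u
  rw [inner_self_eq_norm_sq_to_K] at h1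
  have h2 : ∀ x, inner ℂ ((u : ℝ → ℂ) x) ((u : ℝ → ℂ) x) = ((‖(u : ℝ → ℂ) x‖ ^ 2 : ℝ) : ℂ) := by
    intro x
    rw [inner_self_eq_norm_sq_to_K]; push_cast; rfl
  simp_rw [h2] at h1
  rw [integral_complex_ofReal] at h1
  have h3 : ((‖u‖ ^ 2 : ℝ) : ℂ) = ((∫ x, ‖(u : ℝ → ℂ) x‖ ^ 2 : ℝ) : ℂ) := by
    rw [← h1]; push_cast; rfl
  exact Complex.ofReal_injective h3

lemma L2_sq_integrable (u : L2) : Integrable (fun x => ‖(u : ℝ → ℂ) x‖ ^ 2) := by
  have := (Lp.memLp u).integrable_norm_pow (by norm_num)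
  simpa using this

/-- pure calculus: a solution which is small at two far points is small in between. -/
lemma calc_bound {w : ℝ → ℝ} {F V : ℝ → ℂ} {c c' : ℂ} {a β Λ y1 y2 : ℝ}
    (hw : Continuous w) (hw0 : ∀ x, 0 ≤ w x) (hw1 : ∀ x, w x ≤ 1) (hw2 : ∀ x ∈ Icc (-1:ℝ) 1, w x = 1)
    (hF : Continuous F) (hΛ : ∀ x ∈ Icc (-a) a, w x * ‖F x‖ ≤ Λ)
    (hV : ∀ x, V x = c + ∫ s in (0:ℝ)..x, w s • (c' - F s))
    (ha : 2 ≤ a) (hy1 : y1 ∈ Icc (-a) (-a + 1)) (hy2 : y2 ∈ Icc (a - 1) a)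
    (hb1 : ‖V y1‖ ≤ β) (hb2 : ‖V y2‖ ≤ β) :
    ∀ x ∈ Icc (-a) a, ‖V x‖ ≤ 5 * β + 6 * a * Λ := by
  have hwi : ∀ p q : ℝ, IntervalIntegrable w volume p q := fun p q => hw.intervalIntegrable p q
  have hgc : Continuous (fun s => w s • (c' - F s)) := hw.smul (continuous_const.sub hF)
  have hgi : ∀ p q : ℝ, IntervalIntegrable (fun s => w s • (c' - F s)) volume p q :=
    fun p q => hgc.intervalIntegrable p q
  have hwF : Continuous (fun s => w s • F s) := hw.smul hF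
  -- difference of values
  have hdiff : ∀ p q : ℝ, V q - V p = (∫ s in p..q, w s) • c' - ∫ s in p..q, w s • F s := by
    intro p q
    rw [hV, hV]
    have h1 : (c + ∫ s in (0:ℝ)..q, w s • (c' - F s)) - (c + ∫ s in (0:ℝ)..p, w s • (c' - F s)) =
        ∫ s in p..q, w s • (c' - F s) := by
      rw [add_sub_add_left_eq_sub, intervalIntegral.integral_interval_sub_left (hgi _ _) (hgi _ _)]
    rw [h1]
    have h2 : ∀ s, w s • (c' - F s) = w s • c' - w s • F s := fun s => smul_sub _ _ _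
    simp_rw [h2]
    have i1 : IntervalIntegrable (fun s => w s • c') volume p q :=
      (hw.smul continuous_const).intervalIntegrable _ _
    rw [intervalIntegral.integral_sub i1 (hwF.intervalIntegrable _ _),
      intervalIntegral.integral_smul_const]
  -- bound for the `F` integral
  have hFb : ∀ p ∈ Icc (-a) a, ∀ q ∈ Icc (-a) a, ‖∫ s in p..q, w s • F s‖ ≤ 2 * a * Λ := by
    intro p hp q hq
    have h1 : ∀ s ∈ uIoc p q, ‖w s • F s‖ ≤ Λ := by
      intro s hs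
      rw [norm_smul, Real.norm_eq_abs, abs_of_nonneg (hw0 s)]
      apply hΛ s
      rcases le_total p q with h | h
      · rw [uIoc_of_le h] at hs; exact ⟨by linarith [hp.1, hs.1], by linarith [hq.2, hs.2]⟩
      · rw [uIoc_of_ge h] at hs; exact ⟨by linarith [hq.1, hs.1], by linarith [hp.2, hs.2]⟩
    have h2 := intervalIntegral.norm_integral_le_of_norm_le_const h1
    have hΛ0 : 0 ≤ Λ := (mul_nonneg (hw0 0) (norm_nonneg _)).trans (hΛ 0 ⟨by linarith, by linarith⟩)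
    have h3 : |q - p| ≤ 2 * a := by
      rw [abs_le]; constructor <;> linarith [hp.1, hp.2, hq.1, hq.2]
    calc _ ≤ Λ * |q - p| := h2
      _ ≤ Λ * (2 * a) := by gcongr
      _ = _ := by ring
  set ρ : ℝ := ∫ s in y1..y2, w s with hρ
  have hwnn : ∀ p q : ℝ, p ≤ q → 0 ≤ ∫ s in p..q, w s := fun p q hpq =>
    intervalIntegral.integral_nonneg hpq (fun s _ => hw0 s)
  have hwle : ∀ p q : ℝ, p ≤ q → ∫ s in p..q, w s ≤ q - p := fun p q hpq => by
    have := intervalIntegral.integral_mono_on hpq (hwi p q) (intervalIntegrable_const (c := (1:ℝ)))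
      (fun s _ => hw1 s)
    simpa using this
  have hρ2 : 2 ≤ ρ := by
    have h1 : ρ = (∫ s in y1..(-1:ℝ), w s) + ((∫ s in (-1:ℝ)..1, w s) + ∫ s in (1:ℝ)..y2, w s) := by
      rw [intervalIntegral.integral_add_adjacent_intervals (hwi _ _) (hwi _ _),
        intervalIntegral.integral_add_adjacent_intervals (hwi _ _) (hwi _ _)]
    have h2 : ∫ s in (-1:ℝ)..1, w s = 2 := by
      have : ∫ s in (-1:ℝ)..1, w s = ∫ s in (-1:ℝ)..1, (1:ℝ) := by
        apply intervalIntegral.integral_congr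
        intro s hs
        rw [uIcc_of_le (by norm_num)] at hs
        exact hw2 s hs
      rw [this]; simp; norm_num
    have h3 := hwnn y1 (-1) (by linarith [hy1.2])
    have h4 := hwnn 1 y2 (by linarith [hy2.1])
    rw [h1, h2]; linarith
  have hc1 : ‖c'‖ * ρ ≤ 2 * β + 2 * a * Λ := by
    have h1 := hdiff y1 y2
    have hm1 : y1 ∈ Icc (-a) a := ⟨hy1.1, by linarith [hy1.2]⟩
    have hm2 : y2 ∈ Icc (-a) a := ⟨by linarith [hy2.1], hy2.2⟩
    have h2 := hFb y1 hm1 y2 hm2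
    have h3 : ρ • c' = (V y2 - V y1) + ∫ s in y1..y2, w s • F s := by rw [h1]; ring
    have h4 : ‖ρ • c'‖ = ‖c'‖ * ρ := by
      rw [norm_smul, Real.norm_eq_abs, abs_of_nonneg (by linarith), mul_comm]
    rw [← h4, h3]
    calc _ ≤ ‖V y2 - V y1‖ + ‖∫ s in y1..y2, w s • F s‖ := norm_add_le _ _
      _ ≤ (‖V y2‖ + ‖V y1‖) + ‖∫ s in y1..y2, w s • F s‖ := by gcongr; exact norm_sub_le _ _
      _ ≤ _ := by linarith
  intro x hx
  have hm2 : y2 ∈ Icc (-a) a := ⟨by linarith [hy2.1], hy2.2⟩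
  -- total resistance
  have hJ : |∫ s in y2..x, w s| ≤ 2 * ρ := by
    rcases le_total y2 x with h | h
    · rw [abs_of_nonneg (hwnn _ _ h)]
      have := hwle y2 x h
      linarith [hx.2, hy2.1]
    · rw [intervalIntegral.integral_symm, abs_neg, abs_of_nonneg (hwnn _ _ h)]
      have h1 : ∫ s in x..y2, w s ≤ ∫ s in (-a)..y2, w s := by
        have h2 : ∫ s in (-a)..y2, w s = (∫ s in (-a)..x, w s) + ∫ s in x..y2, w s :=
          (intervalIntegral.integral_add_adjacent_intervals (hwi _ _) (hwi _ _)).symm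
        have := hwnn (-a) x hx.1
        linarith
      have h3 : ∫ s in (-a)..y2, w s = (∫ s in (-a)..y1, w s) + ρ :=
        (intervalIntegral.integral_add_adjacent_intervals (hwi _ _) (hwi _ _)).symm
      have h4 := hwle (-a) y1 hy1.1
      linarith [hy1.2]
  have h1 := hdiff y2 x
  have h2 := hFb y2 hm2 x hx
  have h3 : V x = V y2 + ((∫ s in y2..x, w s) • c' - ∫ s in y2..x, w s • F s) := by rw [← h1]; ring
  rw [h3]
  have h5 : ‖(∫ s in y2..x, w s) • c'‖ ≤ 2 * (2 * β + 2 * a * Λ) := by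
    rw [norm_smul, Real.norm_eq_abs]
    calc _ ≤ (2 * ρ) * ‖c'‖ := by gcongr
      _ = 2 * (‖c'‖ * ρ) := by ring
      _ ≤ _ := by gcongr
  calc _ ≤ ‖V y2‖ + ‖(∫ s in y2..x, w s) • c' - ∫ s in y2..x, w s • F s‖ := norm_add_le _ _
    _ ≤ ‖V y2‖ + (‖(∫ s in y2..x, w s) • c'‖ + ‖∫ s in y2..x, w s • F s‖) := by
        gcongr; exact norm_sub_le _ _
    _ ≤ β + (2 * (2 * β + 2 * a * Λ) + 2 * a * Λ) := by gcongr
    _ = _ := by ring

/-- The ground state `φ` has a plateau of height `m` at distance about `a`; `C` controls the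
growth of `∫ φ²` before it. -/
structure Trap (φ : ℝ → ℝ) (a m C : ℝ) : Prop where
  smooth : ContDiff ℝ ∞ φ
  one_le : ∀ x, 1 ≤ φ x
  one_near : ∀ x ∈ Icc (-4:ℝ) 4, φ x = 1
  ha : 4 ≤ a
  hm : 0 < m
  hC : 1 ≤ C
  plateau : ∀ x, |x| ∈ Icc (a - 1) a → m ≤ φ x
  growth : ∀ s ∈ Icc (-a) a, |∫ r in (0:ℝ)..s, φ r ^ 2| ≤ C * φ s ^ 2

lemma min_point {φ : ℝ → ℝ} {V : ℝ → ℂ} {u : L2} {m p : ℝ} (hm : 0 < m) (hV : Continuous V)
    (hφ : ∀ x ∈ Icc p (p + 1), m ≤ φ x) (hu : ∀ᵐ x, (u : ℝ → ℂ) x = φ x • V x) :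
    ∃ y ∈ Icc p (p + 1), ‖V y‖ ≤ ‖u‖ / m := by
  obtain ⟨y, hy, hmin⟩ := isCompact_Icc.exists_isMinOn (nonempty_Icc.2 (by linarith : p ≤ p + 1))
    hV.norm.continuousOn
  refine ⟨y, hy, ?_⟩
  rw [le_div_iff₀ hm]
  have h1 : (‖V y‖ * m) ^ 2 ≤ ‖u‖ ^ 2 := by
    rw [L2_norm_sq]
    calc (‖V y‖ * m) ^ 2 = ∫ _x in Icc p (p + 1), (‖V y‖ * m) ^ 2 := by simp
      _ ≤ ∫ x in Icc p (p + 1), ‖(u : ℝ → ℂ) x‖ ^ 2 := by
          apply setIntegral_mono_on_ae continuous_const.integrableOn_Icc (L2_sq_integrable u).integrableOn measurableSet_Icc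
          filter_upwards [hu] with x hx hxm
          rw [hx, norm_smul, Real.norm_eq_abs]
          have h2 := hφ x hxm
          have h3 : ‖V y‖ ≤ ‖V x‖ := hmin hxm
          have h4 : m ≤ |φ x| := h2.trans (le_abs_self _)
          apply pow_le_pow_left₀ (by positivity)
          rw [mul_comm]
          gcongr
      _ ≤ ∫ x, ‖(u : ℝ → ℂ) x‖ ^ 2 := setIntegral_le_integral (L2_sq_integrable u)
          (Eventually.of_forall fun x => by positivity)
  exact abs_le_of_sq_le_sq' h1 (norm_nonneg _) |>.2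

section Chain

variable {φ : ℝ → ℝ} {a m C : ℝ}

/-- A continuous representative of `u/φ` is bounded by `S` on `[-a,a]`. -/
def Bdd (φ : ℝ → ℝ) (a : ℝ) (u : L2) (S : ℝ) : Prop :=
  ∃ V : ℝ → ℂ, Continuous V ∧ (∀ᵐ x, (u : ℝ → ℂ) x = φ x • V x) ∧ ∀ x ∈ Icc (-a) a, ‖V x‖ ≤ S

lemma Trap.pos (T : Trap φ a m C) (x : ℝ) : 0 < φ x := lt_of_lt_of_le one_pos (T.one_le x)

/-- one step of the chain. -/
lemma chain_step (T : Trap φ a m C) (f : L2) {Λ : ℝ}
    (hΛ : ∀ s ∈ Icc (-a) a, ‖∫ r in (0:ℝ)..s, φ r • ((f : ℝ → ℂ) r - (Rg (ld φ) f : ℝ → ℂ) r)‖ ≤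
      Λ * φ s ^ 2) :
    Bdd φ a (Rg (ld φ) f) (5 * (‖Rg (ld φ) f‖ / m) + 6 * a * Λ) := by
  have hφ := T.smooth
  have hpos := T.pos
  obtain ⟨c, c', hrep⟩ := representation hφ hpos f
  set u : L2 := Rg (ld φ) f with hu
  set F : ℝ → ℂ := fun s => ∫ r in (0:ℝ)..s, φ r • ((f : ℝ → ℂ) r - (u : ℝ → ℂ) r) with hF
  have l2 : LocallyIntegrable (fun x => φ x • ((f : ℝ → ℂ) x - (u : ℝ → ℂ) x)) :=
    ((L2_locInt f).sub (L2_locInt u)).continuous_smul hφ.continuous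
  have hFc : Continuous F := intervalIntegral.continuous_primitive
    (fun p q => (l2.integrableOn_isCompact isCompact_uIcc).intervalIntegrable) 0
  have hwc : Continuous (fun s => ((φ s) ^ 2)⁻¹) :=
    (hφ.continuous.pow 2).inv₀ (fun x => pow_ne_zero 2 (hpos x).ne')
  set V : ℝ → ℂ := fun x => c + ∫ s in (0:ℝ)..x, ((φ s) ^ 2)⁻¹ • (c' - F s) with hV
  have hgc : Continuous (fun s => ((φ s) ^ 2)⁻¹ • (c' - F s)) := hwc.smul (continuous_const.sub hFc)
  have hVc : Continuous V := continuous_const.add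
    (intervalIntegral.continuous_primitive (fun p q => hgc.intervalIntegrable p q) 0)
  refine ⟨V, hVc, hrep, ?_⟩
  have ha := T.ha
  obtain ⟨y2, hy2, hb2⟩ := min_point (p := a - 1) T.hm hVc (fun x hx => T.plateau x (by
    rw [abs_of_nonneg (by linarith [hx.1])]; exact ⟨hx.1, by linarith [hx.2]⟩)) hrep
  obtain ⟨y1, hy1, hb1⟩ := min_point (p := -a) T.hm hVc (fun x hx => T.plateau x (by
    rw [abs_of_nonpos (by linarith [hx.2])]; exact ⟨by linarith [hx.2], by linarith [hx.1]⟩)) hrep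
  refine calc_bound (w := fun s => ((φ s) ^ 2)⁻¹) (F := F) (V := V) (c := c) (c' := c') (y1 := y1)
    (y2 := y2) hwc (fun x => by positivity) (fun x => ?_) (fun x hx => ?_) hFc (fun x hx => ?_)
    (fun x => rfl) (by linarith) ⟨hy1.1, by linarith [hy1.2]⟩ ⟨hy2.1, by linarith [hy2.2]⟩ hb1 hb2
  · exact inv_le_one_of_one_le₀ (one_le_pow₀ (T.one_le x))
  · rw [T.one_near x ⟨by linarith [hx.1], by linarith [hx.2]⟩]; norm_num
  · have h1 := hΛ x hx
    have h2 : 0 < φ x ^ 2 := pow_pos (hpos x) 2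
    rw [inv_mul_le_iff₀ h2, mul_comm]
    exact h1

/-- bounding the flux by the sup bound of the next function. -/
lemma flux_of_bdd (T : Trap φ a m C) {v : L2} {S : ℝ} (hS : Bdd φ a v S) {s : ℝ}
    (hs : s ∈ Icc (-a) a) : ‖∫ r in (0:ℝ)..s, φ r • (v : ℝ → ℂ) r‖ ≤ (C * S) * φ s ^ 2 := by
  obtain ⟨V, hVc, hv, hb⟩ := hS
  have ha := T.ha
  have hS0 : 0 ≤ S := (norm_nonneg _).trans (hb 0 ⟨by linarith, by linarith⟩)
  have hφ := T.smooth
  have h1 : ∫ r in (0:ℝ)..s, φ r • (v : ℝ → ℂ) r = ∫ r in (0:ℝ)..s, φ r ^ 2 • V r := by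
    apply intervalIntegral.integral_congr_ae
    filter_upwards [hv] with r hr _
    rw [hr, smul_smul, sq]
  rw [h1]
  have h2 : ‖∫ r in (0:ℝ)..s, φ r ^ 2 • V r‖ ≤ |∫ r in (0:ℝ)..s, S * φ r ^ 2| := by
    apply intervalIntegral.norm_integral_le_abs_of_norm_le
    · rw [ae_restrict_iff' measurableSet_uIoc]
      refine Eventually.of_forall fun r hr => ?_
      rw [norm_smul, Real.norm_eq_abs, abs_of_nonneg (by positivity), mul_comm]
      have : r ∈ Icc (-a) a := by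
        rcases le_total 0 s with h | h
        · rw [uIoc_of_le h] at hr; exact ⟨by linarith [hr.1], by linarith [hr.2, hs.2]⟩
        · rw [uIoc_of_ge h] at hr; exact ⟨by linarith [hr.1, hs.1], by linarith [hr.2]⟩
      exact mul_le_mul_of_nonneg_right (hb r this) (by positivity)
    · exact ((continuous_const.mul (hφ.continuous.pow 2)).intervalIntegrable _ _)
  rw [intervalIntegral.integral_const_mul, abs_mul, abs_of_nonneg hS0] at h2
  calc _ ≤ S * |∫ r in (0:ℝ)..s, φ r ^ 2| := h2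
    _ ≤ S * (C * φ s ^ 2) := by gcongr; exact T.growth s hs
    _ = _ := by ring

/-- bounding the flux by the `L²` norm. -/
lemma flux_of_norm (T : Trap φ a m C) {v : L2} {N : ℝ} (hN : 0 < N) (hvN : ‖v‖ ≤ N) {s : ℝ}
    (hs : s ∈ Icc (-a) a) : ‖∫ r in (0:ℝ)..s, φ r • (v : ℝ → ℂ) r‖ ≤ (C * N) * φ s ^ 2 := by
  have hφ := T.smooth
  have hvi := L2_sq_integrable v
  have h2 : ‖∫ r in (0:ℝ)..s, φ r • (v : ℝ → ℂ) r‖ ≤
      |∫ r in (0:ℝ)..s, (N / 2 * φ r ^ 2 + 1 / (2 * N) * ‖(v : ℝ → ℂ) r‖ ^ 2)| := by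
    apply intervalIntegral.norm_integral_le_abs_of_norm_le
    · rw [ae_restrict_iff' measurableSet_uIoc]
      refine Eventually.of_forall fun r hr => ?_
      rw [norm_smul, Real.norm_eq_abs, abs_of_pos (T.pos r)]
      have h3 : 0 ≤ (N * φ r - ‖(v : ℝ → ℂ) r‖) ^ 2 / (2 * N) := by positivity
      have h4 : (N * φ r - ‖(v : ℝ → ℂ) r‖) ^ 2 / (2 * N) =
          N / 2 * φ r ^ 2 + 1 / (2 * N) * ‖(v : ℝ → ℂ) r‖ ^ 2 - φ r * ‖(v : ℝ → ℂ) r‖ := by
        field_simp; ring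
      linarith
    · exact ((continuous_const.mul (hφ.continuous.pow 2)).intervalIntegrable _ _).add
        ((hvi.const_mul _).intervalIntegrable)
  have i1 : IntervalIntegrable (fun r => N / 2 * φ r ^ 2) volume 0 s :=
    (continuous_const.mul (hφ.continuous.pow 2)).intervalIntegrable _ _
  have i2 : IntervalIntegrable (fun r => 1 / (2 * N) * ‖(v : ℝ → ℂ) r‖ ^ 2) volume 0 s :=
    (hvi.const_mul _).intervalIntegrable
  rw [intervalIntegral.integral_add i1 i2, intervalIntegral.integral_const_mul,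
    intervalIntegral.integral_const_mul] at h2
  have h5 : |∫ r in (0:ℝ)..s, ‖(v : ℝ → ℂ) r‖ ^ 2| ≤ N ^ 2 := by
    have h6 : |∫ r in (0:ℝ)..s, ‖(v : ℝ → ℂ) r‖ ^ 2| ≤ ∫ r, ‖(v : ℝ → ℂ) r‖ ^ 2 := by
      rw [intervalIntegral.abs_integral_eq_abs_integral_uIoc, abs_of_nonneg
        (integral_nonneg fun r => by positivity)]
      exact setIntegral_le_integral hvi (Eventually.of_forall fun x => by positivity)
    rw [← L2_norm_sq] at h6
    exact h6.trans (pow_le_pow_left₀ (norm_nonneg _) hvN 2)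
  have h7 := T.growth s hs
  have h8 : 1 ≤ C * φ s ^ 2 := one_le_mul_of_one_le_of_one_le T.hC (one_le_pow₀ (T.one_le s))
  calc _ ≤ |N / 2 * ∫ r in (0:ℝ)..s, φ r ^ 2| + |1 / (2 * N) * ∫ r in (0:ℝ)..s, ‖(v : ℝ → ℂ) r‖ ^ 2| :=
        h2.trans (abs_add_le _ _)
    _ = N / 2 * |∫ r in (0:ℝ)..s, φ r ^ 2| + 1 / (2 * N) * |∫ r in (0:ℝ)..s, ‖(v : ℝ → ℂ) r‖ ^ 2| := by
        rw [abs_mul, abs_mul, abs_of_pos (by positivity : 0 < N / 2),
          abs_of_pos (by positivity : 0 < 1 / (2 * N))]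
    _ ≤ N / 2 * (C * φ s ^ 2) + 1 / (2 * N) * N ^ 2 := by gcongr
    _ = N / 2 * (C * φ s ^ 2) + N / 2 * 1 := by field_simp
    _ ≤ N / 2 * (C * φ s ^ 2) + N / 2 * (C * φ s ^ 2) := by gcongr
    _ = _ := by ring

lemma Bdd.mono {u : L2} {S S' : ℝ} (h : Bdd φ a u S) (hS : S ≤ S') : Bdd φ a u S' := by
  obtain ⟨V, h1, h2, h3⟩ := h
  exact ⟨V, h1, h2, fun x hx => (h3 x hx).trans hS⟩

end Chain

end Pool.Agent.R216.HK
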