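import Pool.Agent.R216.HK5

/-!
The upper bound for `⟨f, e^{-tH} f⟩` produced by a trap.
-/

set_option autoImplicit false
set_option linter.unusedSectionVars false
open Set Filter Topology MeasureTheory
open scoped ContDiff

namespace Pool.Agent.R216.HK

variable {φ : ℝ → ℝ} {a m C : ℝ}

lemma chain_flux {φ : ℝ → ℝ} (j : ℕ) {t : ℝ} (ht : 0 < t) (f : L2) (s : ℝ) :
    ∫ r in (0:ℝ)..s, φ r • (((W (Rg (ld φ)) j t f + W (Rg (ld φ)) (j + 1) t f : L2) : ℝ → ℂ) r -
        (Rg (ld φ) (W (Rg (ld φ)) j t f + W (Rg (ld φ)) (j + 1) t f) : ℝ → ℂ) r) =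
      ∫ r in (0:ℝ)..s, φ r • (W (Rg (ld φ)) (j + 1) t f : ℝ → ℂ) r := by
  have hR : IsSelfAdjoint (Rg (ld φ)) := resol_selfAdjoint _
  rw [← W_step_apply hR j ht f]
  apply intervalIntegral.integral_congr_ae
  filter_upwards [Lp.coeFn_add (W (Rg (ld φ)) j t f) (W (Rg (ld φ)) (j + 1) t f)] with r hr _
  rw [hr, Pi.add_apply]
  congr 1
  ring

lemma chain (T : Trap φ a m C) (f : L2) {t B : ℝ} (ht : 1 ≤ t) (hB : 0 < B) (hf : ‖f‖ ≤ B) (M : ℕ) :
    ∀ k j : ℕ, j + k = M → Bdd φ a (W (Rg (ld φ)) j t f)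
      ((6 * a * C) ^ (k + 1) * ((k + 1) * (5 * (M.factorial * B / m)) +
        (M + 1).factorial / t ^ (M + 1) * B)) := by
  have ht0 : 0 < t := by linarith
  have hR : IsSelfAdjoint (Rg (ld φ)) := resol_selfAdjoint _
  have hs : spectrum ℝ (Rg (ld φ)) ⊆ Icc 0 1 := resol_spectrum _
  have ha := T.ha
  have hm := T.hm
  have hC := T.hC
  set X : ℝ := 6 * a * C with hX
  have hX1 : 1 ≤ X := by rw [hX]; nlinarith
  set N : ℝ := (M + 1).factorial / t ^ (M + 1) * B with hN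
  have hN0 : 0 < N := by
    have : (0:ℝ) < ((M + 1).factorial : ℝ) := by exact_mod_cast Nat.factorial_pos _
    positivity
  have hWN : ∀ j, ‖W (Rg (ld φ)) j t f‖ ≤ (j.factorial : ℝ) / t ^ j * B := fun j =>
    (W_norm_apply hs j ht0 f).trans (by gcongr)
  have hWM : ∀ j, j ≤ M → ‖W (Rg (ld φ)) j t f‖ / m ≤ M.factorial * B / m := by
    intro j hj
    gcongr
    refine (hWN j).trans ?_
    gcongr
    have h1 : (j.factorial : ℝ) ≤ M.factorial := by exact_mod_cast Nat.factorial_le hj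
    have h2 : (1:ℝ) ≤ t ^ j := one_le_pow₀ ht
    calc (j.factorial : ℝ) / t ^ j ≤ j.factorial / 1 := by gcongr
      _ = j.factorial := div_one _
      _ ≤ _ := h1
  have hA0 : 0 ≤ M.factorial * B / m := by positivity
  intro k
  induction k with
  | zero =>
    intro j hj
    have hjM : j = M := by omega
    subst hjM
    have h1 := chain_step T (W (Rg (ld φ)) j t f + W (Rg (ld φ)) (j + 1) t f) (Λ := C * N)
      (fun s hs' => by
        rw [chain_flux j ht0 f s]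
        exact flux_of_norm T hN0 (hWN (j + 1)) hs')
    rw [← W_step_apply hR j ht0 f] at h1
    refine h1.mono ?_
    have h2 := hWM j le_rfl
    simp only [zero_add, pow_one, Nat.cast_zero, one_mul]
    have h3 : 6 * a * (C * N) = X * N := by rw [hX]; ring
    rw [h3]
    nlinarith
  | succ k ih =>
    intro j hj
    have h0 := ih (j + 1) (by omega)
    set S : ℝ := X ^ (k + 1) * ((k + 1) * (5 * (M.factorial * B / m)) + N) with hS
    have h1 := chain_step T (W (Rg (ld φ)) j t f + W (Rg (ld φ)) (j + 1) t f) (Λ := C * S)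
      (fun s hs' => by
        rw [chain_flux j ht0 f s]
        exact flux_of_bdd T h0 hs')
    rw [← W_step_apply hR j ht0 f] at h1
    refine h1.mono ?_
    have h2 := hWM j (by omega)
    have h3 : 6 * a * (C * S) = X * S := by rw [hX]; ring
    rw [h3, hS]
    have h4 : (1:ℝ) ≤ X ^ (k + 1 + 1) := one_le_pow₀ hX1
    have h5 : X * (X ^ (k + 1) * ((k + 1) * (5 * (M.factorial * B / m)) + N)) =
        X ^ (k + 1 + 1) * ((k + 1) * (5 * (M.factorial * B / m)) + N) := by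
      rw [pow_succ X (k + 1)]; ring
    rw [h5]
    push_cast
    nlinarith [mul_le_mul_of_nonneg_right h4 hA0]

lemma inner_bound (T : Trap φ a m C) {f0 : ℝ → ℂ} (hc : Continuous f0) (hsp : HasCompactSupport f0)
    (h1 : ∀ x, ‖f0 x‖ ≤ 1) (h2 : ∀ x, x ∉ Icc (-2:ℝ) 2 → f0 x = 0) {v : L2} {S : ℝ}
    (hS : Bdd φ a v S) : ‖inner ℂ (cc f0 hc hsp) v‖ ≤ 4 * S := by
  obtain ⟨V, hVc, hv, hb⟩ := hS
  have ha := T.ha
  rw [inner_cc]
  have e1 : ∫ x, (starRingEnd ℂ) (f0 x) * (v : ℝ → ℂ) x =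
      ∫ x in Icc (-2:ℝ) 2, (starRingEnd ℂ) (f0 x) * (v : ℝ → ℂ) x := by
    rw [setIntegral_eq_integral_of_forall_compl_eq_zero]
    intro x hx
    rw [h2 x hx]; simp
  rw [e1]
  have e2 : ‖∫ x in Icc (-2:ℝ) 2, (starRingEnd ℂ) (f0 x) * (v : ℝ → ℂ) x‖ ≤
      S * volume.real (Icc (-2:ℝ) 2) := by
    apply norm_setIntegral_le_of_norm_le_const_ae
    · simp
    · rw [ae_restrict_iff' measurableSet_Icc]
      filter_upwards [hv] with x hx hxm
      rw [norm_mul, RCLike.norm_conj, hx, T.one_near x ⟨by linarith [hxm.1], by linarith [hxm.2]⟩,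
        one_smul]
      have := hb x ⟨by linarith [hxm.1], by linarith [hxm.2]⟩
      calc _ ≤ 1 * ‖V x‖ := by gcongr; exact h1 x
        _ ≤ S := by rw [one_mul]; exact this
  refine e2.trans (le_of_eq ?_)
  simp; ring

/-- final upper bound. -/
lemma trap_bound (T : Trap φ a m C) {f0 : ℝ → ℂ} (hc : Continuous f0) (hsp : HasCompactSupport f0)
    (h1 : ∀ x, ‖f0 x‖ ≤ 1) (h2 : ∀ x, x ∉ Icc (-2:ℝ) 2 → f0 x = 0)
    (hf : ‖cc f0 hc hsp‖ ≤ 2) {t : ℝ} (ht : 1 ≤ t) :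
    ‖W (Rg (ld φ)) 0 (t / 2) (cc f0 hc hsp)‖ ^ 2 ≤
      4 * ((6 * a * C) ^ 7 * (50400 / m + 10080 / t ^ 7)) := by
  have hB := chain T (cc f0 hc hsp) ht two_pos hf 6 6 0 (by norm_num)
  have h3 := inner_bound T hc hsp h1 h2 hB
  rw [inner_W (by linarith : 0 < t)] at h3
  rw [Complex.norm_real, Real.norm_eq_abs, abs_of_nonneg (by positivity)] at h3
  refine h3.trans (le_of_eq ?_)
  norm_num [Nat.factorial]
  left
  ring

end Pool.Agent.R216.HK
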