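import Pool.Agent.R216.HK6

/-!
The ground state `φ₀` of the critical operator.
-/

set_option autoImplicit false
set_option linter.unusedSectionVars false
open Set Filter Topology MeasureTheory
open scoped ContDiff

namespace Pool.Agent.R216.HK

/-- a smooth bump supported in `[0,3]`, equal to one on `[1,2]` -/
noncomputable def bb (y : ℝ) : ℝ := Real.smoothTransition y * Real.smoothTransition (3 - y)

/-- position of the bumps -/
def ee (k : ℕ) : ℝ := ((k : ℝ) + 2) ^ 2

noncomputable def bump (k : ℕ) (x : ℝ) : ℝ := bb (x - ee k) + bb (-x - ee k)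

/-- the constant `6 a C` of the `k`-th trap -/
noncomputable def XX (k : ℕ) (M : ℝ) : ℝ := 6 * (ee k + 2) * (ee k * M ^ 2 + 2)

/-- the time used for the `k`-th trap -/
noncomputable def tt (k : ℕ) (M : ℝ) : ℝ := XX k M ^ 7 * (k + 1)

/-- maximum of the ground state before the `k`-th bump. -/
noncomputable def Ms : ℕ → ℝ
  | 0 => 1
  | k + 1 => Ms k + (tt k (Ms k)) ^ 7

/-- height of the `k`-th bump. -/
noncomputable def mm (k : ℕ) : ℝ := (tt k (Ms k)) ^ 7

/-- the ground state -/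
noncomputable def phi0 (x : ℝ) : ℝ := 1 + ∑ j ∈ Finset.range (⌈|x|⌉₊ + 1), mm j * bump j x

lemma bb_of_nonpos {y : ℝ} (h : y ≤ 0) : bb y = 0 := by
  rw [bb, Real.smoothTransition.zero_of_nonpos h, zero_mul]

lemma bb_of_three_le {y : ℝ} (h : 3 ≤ y) : bb y = 0 := by
  rw [bb, Real.smoothTransition.zero_of_nonpos (by linarith : 3 - y ≤ 0), mul_zero]

lemma bb_nonneg (y : ℝ) : 0 ≤ bb y :=
  mul_nonneg (Real.smoothTransition.nonneg _) (Real.smoothTransition.nonneg _)

lemma bb_le_one (y : ℝ) : bb y ≤ 1 :=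
  mul_le_one₀ (Real.smoothTransition.le_one _) (Real.smoothTransition.nonneg _)
    (Real.smoothTransition.le_one _)

lemma bb_of_le_two {y : ℝ} (h : y ≤ 2) : bb y = Real.smoothTransition y := by
  rw [bb, Real.smoothTransition.one_of_one_le (by linarith : 1 ≤ 3 - y), mul_one]

lemma bb_plateau {y : ℝ} (h1 : 1 ≤ y) (h2 : y ≤ 2) : bb y = 1 := by
  rw [bb_of_le_two h2, Real.smoothTransition.one_of_one_le h1]

lemma bb_contDiff : ContDiff ℝ ∞ bb := by
  have h1 : ContDiff ℝ ∞ Real.smoothTransition := Real.smoothTransition.contDiff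
  exact h1.mul (h1.comp (contDiff_const.sub contDiff_id))

lemma ee_ge (k : ℕ) : 4 ≤ ee k := by
  unfold ee
  have : (0:ℝ) ≤ k := Nat.cast_nonneg k
  nlinarith

lemma ee_ge' (k : ℕ) : (k:ℝ) ≤ ee k := by
  unfold ee
  have : (0:ℝ) ≤ k := Nat.cast_nonneg k
  nlinarith

lemma ee_mono {j k : ℕ} (h : j ≤ k) : ee j ≤ ee k := by
  unfold ee
  have : (j:ℝ) ≤ k := by exact_mod_cast h
  have : (0:ℝ) ≤ j := Nat.cast_nonneg j
  gcongr

lemma ee_succ (k : ℕ) : ee k + 3 + (k + 1) ≤ ee (k + 1) := by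
  unfold ee
  have : (0:ℝ) ≤ k := Nat.cast_nonneg k
  push_cast
  nlinarith

lemma ee_lt {j k : ℕ} (h : j < k) : ee j + 3 ≤ ee k := by
  have h1 := ee_succ j
  have h2 := ee_mono (show j + 1 ≤ k from h)
  have : (0:ℝ) ≤ j := Nat.cast_nonneg j
  linarith

lemma bump_eq (k : ℕ) (x : ℝ) : bump k x = bb (|x| - ee k) := by
  have h4 := ee_ge k
  unfold bump
  rcases le_total 0 x with h | h
  · rw [abs_of_nonneg h, bb_of_nonpos (by linarith : -x - ee k ≤ 0), add_zero]
  · rw [abs_of_nonpos h, bb_of_nonpos (by linarith : x - ee k ≤ 0), zero_add]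

lemma bump_contDiff (k : ℕ) : ContDiff ℝ ∞ (bump k) :=
  (bb_contDiff.comp (contDiff_id.sub contDiff_const)).add
    (bb_contDiff.comp (contDiff_id.neg.sub contDiff_const))

lemma XX_ge {k : ℕ} (M : ℝ) : 1 ≤ XX k M := by
  unfold XX
  have h4 := ee_ge k
  have h5 : 0 ≤ ee k * M ^ 2 := by positivity
  nlinarith

lemma tt_ge (k : ℕ) (M : ℝ) : (k:ℝ) + 1 ≤ tt k M := by
  unfold tt
  have h1 : (1:ℝ) ≤ XX k M ^ 7 := one_le_pow₀ (XX_ge M)
  have : (0:ℝ) ≤ k := Nat.cast_nonneg k
  nlinarith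

lemma tt_ge_one (k : ℕ) (M : ℝ) : 1 ≤ tt k M := by
  have h1 := tt_ge k M
  have : (0:ℝ) ≤ k := Nat.cast_nonneg k
  linarith

lemma mm_pos (k : ℕ) : 0 < mm k := by
  have := tt_ge_one k (Ms k)
  unfold mm
  positivity

lemma Ms_eq (k : ℕ) : Ms k = 1 + ∑ j ∈ Finset.range k, mm j := by
  induction k with
  | zero => simp [Ms]
  | succ k ih => rw [Finset.sum_range_succ, ← add_assoc, ← ih]; rfl

lemma phi0_of {x : ℝ} (N : ℕ) (h : ∀ j, N ≤ j → |x| ≤ ee j) :
    phi0 x = 1 + ∑ j ∈ Finset.range N, mm j * bump j x := by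
  unfold phi0
  congr 1
  set L := ⌈|x|⌉₊ + 1 with hL
  have hz : ∀ j, |x| ≤ ee j → mm j * bump j x = 0 := by
    intro j hj
    rw [bump_eq, bb_of_nonpos (by linarith), mul_zero]
  have h1 : ∑ j ∈ Finset.range L, mm j * bump j x =
      ∑ j ∈ Finset.range (max L N), mm j * bump j x := by
    apply Finset.sum_subset (Finset.range_subset_range.2 (le_max_left _ _))
    intro j _ hj
    rw [Finset.mem_range, not_lt] at hj
    apply hz
    have h2 : |x| ≤ ⌈|x|⌉₊ := Nat.le_ceil _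
    have h3 : ((⌈|x|⌉₊ + 1 : ℕ) : ℝ) ≤ j := by exact_mod_cast hj
    have h4 := ee_ge' j
    push_cast at h3
    linarith
  have h2 : ∑ j ∈ Finset.range N, mm j * bump j x =
      ∑ j ∈ Finset.range (max L N), mm j * bump j x := by
    apply Finset.sum_subset (Finset.range_subset_range.2 (le_max_right _ _))
    intro j _ hj
    rw [Finset.mem_range, not_lt] at hj
    exact hz j (h j hj)
  rw [h1, h2]

lemma phi0_contDiff : ContDiff ℝ ∞ phi0 := by
  rw [contDiff_iff_contDiffAt]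
  intro x0
  set N := ⌈|x0| + 1⌉₊ with hN
  have h1 : ∀ᶠ x in 𝓝 x0, |x| < |x0| + 1 :=
    (continuous_abs.tendsto x0).eventually (gt_mem_nhds (by linarith))
  have h2 : phi0 =ᶠ[𝓝 x0] fun x => 1 + ∑ j ∈ Finset.range N, mm j * bump j x := by
    filter_upwards [h1] with x hx
    apply phi0_of
    intro j hj
    have h3 : |x0| + 1 ≤ N := Nat.le_ceil _
    have h4 : (N:ℝ) ≤ j := by exact_mod_cast hj
    have h5 := ee_ge' j
    linarith
  refine ContDiffAt.congr_of_eventuallyEq ?_ h2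
  apply ContDiff.contDiffAt
  apply contDiff_const.add
  exact ContDiff.sum fun j _ => contDiff_const.mul (bump_contDiff j)

lemma phi0_one_le (x : ℝ) : 1 ≤ phi0 x := by
  unfold phi0
  have : 0 ≤ ∑ j ∈ Finset.range (⌈|x|⌉₊ + 1), mm j * bump j x := by
    apply Finset.sum_nonneg
    intro j _
    rw [bump_eq]
    exact mul_nonneg (mm_pos j).le (bb_nonneg _)
  linarith

lemma phi0_pos (x : ℝ) : 0 < phi0 x := lt_of_lt_of_le one_pos (phi0_one_le x)

lemma phi0_near {x : ℝ} (hx : x ∈ Icc (-4:ℝ) 4) : phi0 x = 1 := by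
  rw [phi0_of 0]
  · simp
  · intro j _
    exact (abs_le.2 hx).trans (ee_ge j)

lemma phi0_even (x : ℝ) : phi0 (-x) = phi0 x := by
  unfold phi0
  rw [abs_neg]
  congr 1
  apply Finset.sum_congr rfl
  intro j _
  rw [bump_eq, bump_eq, abs_neg]

lemma phi0_le {k : ℕ} {x : ℝ} (hx : |x| ≤ ee k) : phi0 x ≤ Ms k := by
  rw [phi0_of k (fun j hj => hx.trans (ee_mono hj)), Ms_eq]
  gcongr with j hj
  rw [bump_eq]
  exact mul_le_of_le_one_right (mm_pos j).le (bb_le_one _)

lemma phi0_single {k : ℕ} {x : ℝ} (h1 : ee k ≤ |x|) (h2 : |x| ≤ ee (k + 1)) :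
    phi0 x = 1 + mm k * bb (|x| - ee k) := by
  rw [phi0_of (k + 1) (fun j hj => h2.trans (ee_mono hj)), Finset.sum_range_succ]
  have : ∑ j ∈ Finset.range k, mm j * bump j x = 0 := by
    apply Finset.sum_eq_zero
    intro j hj
    have := ee_lt (Finset.mem_range.1 hj)
    rw [bump_eq, bb_of_three_le (by linarith), mul_zero]
  rw [this, zero_add, bump_eq]

lemma phi0_slow {k : ℕ} {x : ℝ} (h1 : ee k + 3 ≤ |x|) (h2 : |x| ≤ ee (k + 1)) : phi0 x = 1 := by
  rw [phi0_single (by linarith) h2, bb_of_three_le (by linarith), mul_zero, add_zero]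

lemma ee_two (k : ℕ) : ee k + 2 ≤ ee (k + 1) := by
  have := ee_lt (Nat.lt_succ_self k); linarith

lemma growth_pos (k : ℕ) {s : ℝ} (h0 : 0 ≤ s) (hs : s ≤ ee k + 2) :
    ∫ r in (0:ℝ)..s, phi0 r ^ 2 ≤ (ee k * Ms k ^ 2 + 2) * phi0 s ^ 2 := by
  have hc : Continuous (fun r => phi0 r ^ 2) := (phi0_contDiff.continuous).pow 2
  have h1 : 1 ≤ phi0 s ^ 2 := one_le_pow₀ (phi0_one_le s)
  have hM : 0 ≤ ee k * Ms k ^ 2 := by have := ee_ge k; positivity
  have hA : ∀ p, 0 ≤ p → p ≤ ee k → ∫ r in (0:ℝ)..p, phi0 r ^ 2 ≤ ee k * Ms k ^ 2 := by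
    intro p hp hpk
    have h2 : ∫ r in (0:ℝ)..p, phi0 r ^ 2 ≤ ∫ r in (0:ℝ)..p, Ms k ^ 2 := by
      apply intervalIntegral.integral_mono_on hp (hc.intervalIntegrable _ _)
        (intervalIntegrable_const)
      intro r hr
      have h3 : phi0 r ≤ Ms k := phi0_le (by rw [abs_of_nonneg hr.1]; linarith [hr.2])
      exact pow_le_pow_left₀ (phi0_pos r).le h3 2
    rw [intervalIntegral.integral_const, smul_eq_mul, sub_zero] at h2
    refine h2.trans ?_
    gcongr
  rcases le_total s (ee k) with h | h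
  · have h2 := hA s h0 h
    nlinarith
  · have h2 := hA (ee k) (by linarith [ee_ge k]) le_rfl
    have h3 : ∫ r in (ee k)..s, phi0 r ^ 2 ≤ ∫ r in (ee k)..s, phi0 s ^ 2 := by
      apply intervalIntegral.integral_mono_on h (hc.intervalIntegrable _ _)
        (intervalIntegrable_const)
      intro r hr
      apply pow_le_pow_left₀ (phi0_pos r).le
      have e4 := ee_ge k
      have e5 := ee_two k
      have hr0 : |r| = r := abs_of_nonneg (by linarith [hr.1])
      have hs0 : |s| = s := abs_of_nonneg h0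
      rw [phi0_single (k := k) (x := r) (by rw [hr0]; exact hr.1) (by rw [hr0]; linarith [hr.2]),
        phi0_single (k := k) (x := s) (by rw [hs0]; exact h) (by rw [hs0]; linarith),
        hr0, hs0, bb_of_le_two (by linarith [hr.2]), bb_of_le_two (by linarith)]
      have := Real.smoothTransition.monotone (show r - ee k ≤ s - ee k by linarith [hr.2])
      have := mm_pos k
      gcongr
    rw [intervalIntegral.integral_const, smul_eq_mul] at h3
    have h4 : ∫ r in (0:ℝ)..s, phi0 r ^ 2 =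
        (∫ r in (0:ℝ)..(ee k), phi0 r ^ 2) + ∫ r in (ee k)..s, phi0 r ^ 2 :=
      (intervalIntegral.integral_add_adjacent_intervals (hc.intervalIntegrable _ _)
        (hc.intervalIntegrable _ _)).symm
    rw [h4]
    have h5 : (s - ee k) * phi0 s ^ 2 ≤ 2 * phi0 s ^ 2 := by
      apply mul_le_mul_of_nonneg_right _ (by positivity); linarith
    nlinarith

lemma trap_k (k : ℕ) : Trap phi0 (ee k + 2) (mm k) (ee k * Ms k ^ 2 + 2) where
  smooth := phi0_contDiff
  one_le := phi0_one_le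
  one_near := fun x hx => phi0_near hx
  ha := by linarith [ee_ge k]
  hm := mm_pos k
  hC := by have := ee_ge k; have : 0 ≤ ee k * Ms k ^ 2 := by positivity
           linarith
  plateau := by
    intro x hx
    have e5 := ee_two k
    rw [phi0_single (k := k) (by linarith [hx.1]) (by linarith [hx.2]),
      bb_plateau (by linarith [hx.1]) (by linarith [hx.2]), mul_one]
    linarith
  growth := by
    intro s hs
    have hc : Continuous (fun r => phi0 r ^ 2) := (phi0_contDiff.continuous).pow 2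
    have hnn : ∀ s, 0 ≤ s → 0 ≤ ∫ r in (0:ℝ)..s, phi0 r ^ 2 := fun s hs =>
      intervalIntegral.integral_nonneg hs (fun r _ => by positivity)
    rcases le_total 0 s with h | h
    · rw [abs_of_nonneg (hnn s h)]
      exact growth_pos k h hs.2
    · have h1 : ∫ r in (0:ℝ)..s, phi0 r ^ 2 = - ∫ r in (0:ℝ)..(-s), phi0 r ^ 2 := by
        have h2 := intervalIntegral.integral_comp_neg (a := 0) (b := s) (fun r => phi0 r ^ 2)
        simp only [phi0_even, neg_zero] at h2
        rw [h2, intervalIntegral.integral_symm]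
      rw [h1, abs_neg, abs_of_nonneg (hnn _ (by linarith)), ← phi0_even s]
      exact growth_pos k (by linarith) (by linarith [hs.1])

/-- upper bound along the sequence of times. -/
lemma upper_k (k : ℕ) {f0 : ℝ → ℂ} (hc : Continuous f0) (hsp : HasCompactSupport f0)
    (h1 : ∀ x, ‖f0 x‖ ≤ 1) (h2 : ∀ x, x ∉ Icc (-2:ℝ) 2 → f0 x = 0)
    (hf : ‖cc f0 hc hsp‖ ≤ 2) :
    ‖W (Rg (ld phi0)) 0 (tt k (Ms k) / 2) (cc f0 hc hsp)‖ ^ 2 ≤
      241920 / ((k + 1) * tt k (Ms k) ^ 6) := by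
  have ht := tt_ge_one k (Ms k)
  have h := trap_bound (trap_k k) hc hsp h1 h2 hf ht
  refine h.trans (le_of_eq ?_)
  have hX : 6 * (ee k + 2) * (ee k * Ms k ^ 2 + 2) = XX k (Ms k) := rfl
  rw [hX]
  have hm : mm k = tt k (Ms k) ^ 7 := rfl
  rw [hm]
  have hX1 := XX_ge (k := k) (Ms k)
  have hk : (0:ℝ) < (k:ℝ) + 1 := by positivity
  set t := tt k (Ms k) with ht'
  have ht0 : 0 < t := by linarith
  have hX7 : XX k (Ms k) ^ 7 = t / (k + 1) := by
    rw [ht', tt]; field_simp
  rw [hX7]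
  field_simp
  norm_num

end Pool.Agent.R216.HK
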