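import Pool.Agent.R216.HK5

/-!
The lower bound for `⟨f, e^{-tH₊} f⟩`, `H₊ = -d²/dx² + (1+x²)⁻²`.
-/

set_option autoImplicit false
set_option linter.unusedSectionVars false
open Set Filter Topology MeasureTheory
open scoped ContDiff

namespace Pool.Agent.R216.HK

/-- smooth cutoff: `1` on `[-1,1]`, `0` outside `[-2,2]`. -/
noncomputable def cut (x : ℝ) : ℝ := Real.smoothTransition (2 - x) * Real.smoothTransition (2 + x)

lemma cut_contDiff : ContDiff ℝ ∞ cut := by
  have h1 : ContDiff ℝ ∞ Real.smoothTransition := Real.smoothTransition.contDiff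
  exact (h1.comp (contDiff_const.sub contDiff_id)).mul (h1.comp (contDiff_const.add contDiff_id))

lemma cut_nonneg (x : ℝ) : 0 ≤ cut x :=
  mul_nonneg (Real.smoothTransition.nonneg _) (Real.smoothTransition.nonneg _)

lemma cut_le_one (x : ℝ) : cut x ≤ 1 :=
  mul_le_one₀ (Real.smoothTransition.le_one _) (Real.smoothTransition.nonneg _)
    (Real.smoothTransition.le_one _)

lemma cut_eq_one {x : ℝ} (h : x ∈ Icc (-1:ℝ) 1) : cut x = 1 := by
  rw [cut, Real.smoothTransition.one_of_one_le (by linarith [h.2]),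
    Real.smoothTransition.one_of_one_le (by linarith [h.1]), one_mul]

lemma cut_eq_zero {x : ℝ} (h : x ∉ Ioo (-2:ℝ) 2) : cut x = 0 := by
  rw [mem_Ioo, not_and_or, not_lt, not_lt] at h
  rcases h with h | h
  · rw [cut, Real.smoothTransition.zero_of_nonpos (by linarith : 2 + x ≤ 0), mul_zero]
  · rw [cut, Real.smoothTransition.zero_of_nonpos (by linarith : 2 - x ≤ 0), zero_mul]

/-- `H (φ η) = - (φ η'' + 2 φ' η')` in the form `R (φη + H(φη)) = φη`. -/
noncomputable def hh (φ η : ℝ → ℝ) (x : ℝ) : ℝ :=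
  -(φ x * deriv (deriv η) x + 2 * (deriv φ x * deriv η x))

section

variable {φ : ℝ → ℝ} (hφ : ContDiff ℝ ∞ φ) (hpos : ∀ x, 0 < φ x)

include hφ

lemma hh_contDiff {η : ℝ → ℝ} (hη : ContDiff ℝ ∞ η) : ContDiff ℝ ∞ (hh φ η) := by
  have h1 : ContDiff ℝ ∞ (deriv φ) := (contDiff_infty_iff_deriv.1 hφ).2
  have h2 : ContDiff ℝ ∞ (deriv η) := (contDiff_infty_iff_deriv.1 hη).2
  have h3 : ContDiff ℝ ∞ (deriv (deriv η)) := (contDiff_infty_iff_deriv.1 h2).2
  exact ((hφ.mul h3).add (contDiff_const.mul (h1.mul h2))).neg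

omit hφ in
lemma hh_supp {η : ℝ → ℝ} (hc : HasCompactSupport η) : HasCompactSupport (hh φ η) :=
  ((hc.deriv.deriv.mul_left).add (hc.deriv.mul_left.mul_left)).neg

lemma ofReal_test {g : ℝ → ℝ} (hg : ContDiff ℝ ∞ g) (hc : HasCompactSupport g) :
    Test (fun x => ((g x : ℝ) : ℂ)) :=
  ⟨Complex.ofRealCLM.contDiff.comp hg, hc.comp_left (g := fun y : ℝ => (y : ℂ)) rfl⟩

include hpos

lemma resol_phi {η : ℝ → ℝ} (hη : ContDiff ℝ ∞ η) (hc : HasCompactSupport η)
    (T1 : Test (fun x => ((φ x * η x : ℝ) : ℂ))) (T2 : Test (fun x => ((hh φ η x : ℝ) : ℂ))) :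
    Rg (ld φ) (cc _ T1.cont T1.2 + cc _ T2.cont T2.2) = cc _ T1.cont T1.2 := by
  have hld := (ld_smooth hφ hpos).continuous
  have hφ' : ContDiff ℝ ∞ (deriv φ) := (contDiff_infty_iff_deriv.1 hφ).2
  have hη' : ContDiff ℝ ∞ (deriv η) := (contDiff_infty_iff_deriv.1 hη).2
  refine resol_eq_of_mem (K (ld φ)) (p := cc _ (D_cont hld T1) (D_supp T1)) (mem_K hld T1) ?_
  set h : L2 := cc _ T2.cont T2.2 with hh'
  set p : L2 := cc _ (D_cont hld T1) (D_supp T1) with hp
  set z : WithLp 2 (L2 × L2) := WithLp.toLp 2 (-h, p) with hz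
  have key : ∀ w ∈ gr (ld φ), inner ℂ z w = 0 := by
    rintro w ⟨ψ, hψ, h1, h2⟩
    have e0 : inner ℂ z w = inner ℂ (-h) w.fst + inner ℂ p w.snd := WithLp.prod_inner_apply _ _
    rw [e0, inner_neg_left, inner_cc, inner_cc]
    have e1 : ∫ x, (starRingEnd ℂ) ((hh φ η x : ℝ) : ℂ) * (w.fst : ℝ → ℂ) x =
        ∫ x, ((hh φ η x : ℝ) : ℂ) * ψ x := by
      apply integral_congr_ae
      filter_upwards [h1] with x hx
      rw [hx, Complex.conj_ofReal]
    have e2 : ∫ x, (starRingEnd ℂ) (D (ld φ) (fun x => ((φ x * η x : ℝ) : ℂ)) x) *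
        (w.snd : ℝ → ℂ) x = ∫ x, ((φ x * deriv η x : ℝ) : ℂ) * D (ld φ) ψ x := by
      apply integral_congr_ae
      filter_upwards [h2] with x hx
      rw [hx, D_mul hφ hpos hη, Complex.conj_ofReal]
    rw [e1, e2]
    -- integrate by parts
    have hη2 : ContDiff ℝ ∞ (fun x => φ x * deriv η x) := hφ.mul hη'
    have hη2c : HasCompactSupport (fun x => φ x * deriv η x) := hc.deriv.mul_left
    have h3 := ibp_c hη2 hη2c (v := ψ) (hψ.1.of_le (by exact_mod_cast le_top))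
    have hd : ∀ x, deriv (fun x => φ x * deriv η x) x =
        deriv φ x * deriv η x + φ x * deriv (deriv η) x := fun x =>
      ((phi_hasDeriv hφ hpos x).mul ((hη'.differentiable (by simp) x).hasDerivAt)).deriv
    have i1 : Integrable (fun x => ((hh φ η x : ℝ) : ℂ) * ψ x) :=
      (T2.cont.mul hψ.cont).integrable_of_hasCompactSupport T2.2.mul_right
    have T3 := ofReal_test hφ hη2 hη2c
    have i2 : Integrable (fun x => ((φ x * deriv η x : ℝ) : ℂ) * D (ld φ) ψ x) :=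
      (T3.cont.mul (D_cont hld hψ)).integrable_of_hasCompactSupport T3.2.mul_right
    have i3 : Integrable (fun x => ((deriv (fun x => φ x * deriv η x) x : ℝ) : ℂ) * ψ x) := by
      have T4 := ofReal_test hφ ((contDiff_infty_iff_deriv.1 hη2).2) hη2c.deriv
      exact (T4.cont.mul hψ.cont).integrable_of_hasCompactSupport T4.2.mul_right
    have i4 : Integrable (fun x => ((φ x * deriv η x : ℝ) : ℂ) * deriv ψ x) :=
      (T3.cont.mul hψ.deriv_cont).integrable_of_hasCompactSupport T3.2.mul_right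
    have i1' : Integrable (fun x => -(((hh φ η x : ℝ) : ℂ) * ψ x)) := i1.neg
    rw [← integral_neg, ← integral_add i1' i2]
    have h5 : ∫ x, (((deriv (fun x => φ x * deriv η x) x : ℝ) : ℂ) * ψ x +
        ((φ x * deriv η x : ℝ) : ℂ) * deriv ψ x) = 0 := by
      rw [integral_add i3 i4, h3]; ring
    rw [← h5]
    congr 1; funext x
    rw [hd x]
    have h6 : (φ x : ℂ) ≠ 0 := by exact_mod_cast (hpos x).ne'
    simp only [hh, D, ld]
    push_cast
    field_simp
    ring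
  intro w hw
  have h7 := K_orth key w hw
  have e0 : inner ℂ z w = inner ℂ (-h) w.fst + inner ℂ p w.snd := WithLp.prod_inner_apply _ _
  rw [e0] at h7
  have h8 := congrArg (starRingEnd ℂ) h7
  rw [map_add, inner_conj_symm, inner_conj_symm, map_zero] at h8
  have h9 : cc _ T1.cont T1.2 - (cc _ T1.cont T1.2 + h) = -h := by abel
  rw [h9]
  exact h8

end

lemma norm_cc_le {g : ℝ → ℂ} (hg : Continuous g) (hs : HasCompactSupport g) {A ℓ : ℝ} (hA : 0 ≤ A)
    (hℓ : 0 ≤ ℓ) (h1 : ∀ x, ‖g x‖ ≤ A) (h2 : ∀ x, x ∉ Icc (-ℓ) ℓ → g x = 0) :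
    ‖cc g hg hs‖ ^ 2 ≤ A ^ 2 * (2 * ℓ) := by
  rw [L2_norm_sq]
  have e1 : ∫ x, ‖(cc g hg hs : ℝ → ℂ) x‖ ^ 2 = ∫ x in Icc (-ℓ) ℓ, ‖g x‖ ^ 2 := by
    rw [setIntegral_eq_integral_of_forall_compl_eq_zero]
    · apply integral_congr_ae
      filter_upwards [cc_ae hg hs] with x hx
      rw [hx]
    · intro x hx
      rw [h2 x hx]; simp
  rw [e1]
  calc ∫ x in Icc (-ℓ) ℓ, ‖g x‖ ^ 2 ≤ ∫ _x in Icc (-ℓ) ℓ, A ^ 2 := by
        apply setIntegral_mono_on (hg.norm.pow 2).integrableOn_Icc continuous_const.integrableOn_Icc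
          measurableSet_Icc
        intro x _
        exact pow_le_pow_left₀ (norm_nonneg _) (h1 x) 2
    _ = A ^ 2 * (2 * ℓ) := by
        rw [setIntegral_const, smul_eq_mul, Real.volume_real_Icc_of_le (by linarith)]; ring

/-- the ground state of `H₊`. -/
noncomputable def phip (x : ℝ) : ℝ := √(1 + x ^ 2)

lemma phip_pos (x : ℝ) : 0 < phip x := Real.sqrt_pos.2 (by positivity)

lemma phip_contDiff : ContDiff ℝ ∞ phip := by
  unfold phip
  exact (contDiff_const.add (contDiff_id.pow 2)).sqrt (fun x => by positivity)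

lemma phip_deriv (x : ℝ) : HasDerivAt phip (x / phip x) x := by
  have h1 : HasDerivAt (fun x : ℝ => 1 + x ^ 2) (2 * x) x := by
    simpa using (hasDerivAt_pow 2 x).const_add 1
  have h2 := h1.sqrt (by positivity)
  have h3 : x / phip x = 2 * x / (2 * √(1 + x ^ 2)) := by
    rw [mul_div_mul_left _ _ two_ne_zero]; rfl
  rw [h3]
  exact h2

lemma phip_one_le (x : ℝ) : 1 ≤ phip x := by
  unfold phip
  rw [Real.one_le_sqrt]; nlinarith [sq_nonneg x]

lemma phip_le (x : ℝ) : phip x ≤ 1 + |x| := by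
  unfold phip
  rw [Real.sqrt_le_left (by positivity)]
  nlinarith [abs_nonneg x, sq_abs x]

lemma abs_le_phip (x : ℝ) : |x| ≤ phip x := by
  unfold phip
  apply Real.abs_le_sqrt
  linarith

lemma phip_deriv_le (x : ℝ) : |deriv phip x| ≤ 1 := by
  rw [(phip_deriv x).deriv, abs_div, abs_of_pos (phip_pos x), div_le_one (phip_pos x)]
  exact abs_le_phip x

lemma cut_supp : HasCompactSupport cut :=
  HasCompactSupport.intro (isCompact_Icc (a := -2) (b := 2)) fun x hx =>
    cut_eq_zero fun h => hx ⟨h.1.le, h.2.le⟩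

lemma cut_test : Test (fun x => ((cut x : ℝ) : ℂ)) := ofReal_test cut_contDiff cut_contDiff cut_supp

/-- scaled cutoff -/
noncomputable def cutr (r x : ℝ) : ℝ := cut (r⁻¹ * x)

lemma cutr_contDiff (r : ℝ) : ContDiff ℝ ∞ (cutr r) :=
  cut_contDiff.comp (contDiff_const.mul contDiff_id)

lemma cutr_zero {r x : ℝ} (hr : 0 < r) (hx : x ∉ Ioo (-(2 * r)) (2 * r)) : cutr r x = 0 := by
  apply cut_eq_zero
  intro h
  apply hx
  have h1 : r * (r⁻¹ * x) = x := by field_simp
  constructor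
  · have := mul_lt_mul_of_pos_left h.1 hr; rw [h1] at this; linarith
  · have := mul_lt_mul_of_pos_left h.2 hr; rw [h1] at this; linarith

lemma cutr_supp {r : ℝ} (hr : 0 < r) : HasCompactSupport (cutr r) :=
  HasCompactSupport.intro (isCompact_Icc (a := -(2 * r)) (b := 2 * r)) fun x hx =>
    cutr_zero hr fun h => hx ⟨h.1.le, h.2.le⟩

lemma cutr_deriv (r x : ℝ) : deriv (cutr r) x = r⁻¹ * deriv cut (r⁻¹ * x) := by
  have h1 : HasDerivAt cut (deriv cut (r⁻¹ * x)) (r⁻¹ * x) :=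
    (cut_contDiff.differentiable (by simp) _).hasDerivAt
  have h2 : HasDerivAt (fun x : ℝ => r⁻¹ * x) r⁻¹ x := by
    simpa using (hasDerivAt_id x).const_mul r⁻¹
  have h3 := h1.comp x h2
  have h4 : cutr r = cut ∘ (fun x : ℝ => r⁻¹ * x) := rfl
  rw [h4, h3.deriv, mul_comm]

lemma cutr_deriv2 (r x : ℝ) : deriv (deriv (cutr r)) x = r⁻¹ ^ 2 * deriv (deriv cut) (r⁻¹ * x) := by
  have h0 : deriv (cutr r) = fun x => r⁻¹ * deriv cut (r⁻¹ * x) := funext (cutr_deriv r)
  rw [h0]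
  have hc : ContDiff ℝ ∞ (deriv cut) := (contDiff_infty_iff_deriv.1 cut_contDiff).2
  have h1 : HasDerivAt (deriv cut) (deriv (deriv cut) (r⁻¹ * x)) (r⁻¹ * x) :=
    (hc.differentiable (by simp) _).hasDerivAt
  have h2 : HasDerivAt (fun x : ℝ => r⁻¹ * x) r⁻¹ x := by
    simpa using (hasDerivAt_id x).const_mul r⁻¹
  have h3 := (h1.comp x h2).const_mul r⁻¹
  have h4 : (fun x => r⁻¹ * deriv cut (r⁻¹ * x)) = fun x => r⁻¹ * (deriv cut ∘ (fun x : ℝ => r⁻¹ * x)) x := rfl
  rw [h4, h3.deriv]; ring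

lemma cut_bounds : ∃ A : ℝ, 1 ≤ A ∧ ∀ x, 3 * |deriv (deriv cut) x| + 2 * |deriv cut x| ≤ A := by
  have hc : ContDiff ℝ ∞ (deriv cut) := (contDiff_infty_iff_deriv.1 cut_contDiff).2
  have hc2 : ContDiff ℝ ∞ (deriv (deriv cut)) := (contDiff_infty_iff_deriv.1 hc).2
  obtain ⟨C1, h1⟩ := hc.continuous.bounded_above_of_compact_support cut_supp.deriv
  obtain ⟨C2, h2⟩ := hc2.continuous.bounded_above_of_compact_support cut_supp.deriv.deriv
  refine ⟨max 1 (3 * C2 + 2 * C1), le_max_left _ _, fun x => le_trans ?_ (le_max_right _ _)⟩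
  have h3 := h1 x
  have h4 := h2 x
  rw [Real.norm_eq_abs] at h3 h4
  linarith

lemma hh_zero {r : ℝ} {x : ℝ} (hr : 0 < r) (hx : x ∉ Icc (-(2 * r)) (2 * r)) :
    hh phip (cutr r) x = 0 := by
  have h3 : tsupport (cutr r) ⊆ Icc (-(2 * r)) (2 * r) := closure_minimal (fun y hy => by
    by_contra h4
    exact hy (cutr_zero hr fun h => h4 ⟨h.1.le, h.2.le⟩)) isClosed_Icc
  have h4 : x ∉ tsupport (cutr r) := fun h => hx (h3 h)
  have h5 : deriv (cutr r) x = 0 := by
    by_contra h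
    exact h4 (support_deriv_subset (Function.mem_support.2 h))
  have h6 : tsupport (deriv (cutr r)) ⊆ tsupport (cutr r) :=
    closure_minimal support_deriv_subset (isClosed_tsupport _)
  have h7 : deriv (deriv (cutr r)) x = 0 := by
    by_contra h
    exact h4 (h6 (support_deriv_subset (Function.mem_support.2 h)))
  unfold hh
  rw [h5, h7]; simp

lemma hh_bound {A : ℝ} (hA : ∀ x, 3 * |deriv (deriv cut) x| + 2 * |deriv cut x| ≤ A) {r : ℝ}
    (hr : 1 ≤ r) (x : ℝ) : |hh phip (cutr r) x| ≤ A / r := by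
  have hr0 : 0 < r := by linarith
  by_cases hx : x ∈ Icc (-(2 * r)) (2 * r)
  · unfold hh
    rw [abs_neg, cutr_deriv, cutr_deriv2]
    have h1 : phip x ≤ 3 * r := (phip_le x).trans (by have := (abs_le.2 hx); linarith)
    have h2 := phip_deriv_le x
    have h3 := phip_pos x
    have h4 := hA (r⁻¹ * x)
    calc |phip x * (r⁻¹ ^ 2 * deriv (deriv cut) (r⁻¹ * x)) +
          2 * (deriv phip x * (r⁻¹ * deriv cut (r⁻¹ * x)))|
        ≤ |phip x * (r⁻¹ ^ 2 * deriv (deriv cut) (r⁻¹ * x))| +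
          |2 * (deriv phip x * (r⁻¹ * deriv cut (r⁻¹ * x)))| := abs_add_le _ _
      _ = phip x * (r⁻¹ ^ 2 * |deriv (deriv cut) (r⁻¹ * x)|) +
          2 * (|deriv phip x| * (r⁻¹ * |deriv cut (r⁻¹ * x)|)) := by
          rw [abs_mul, abs_mul, abs_mul, abs_mul, abs_mul, abs_of_pos h3,
            abs_of_pos (by positivity : 0 < r⁻¹ ^ 2), abs_of_pos (by positivity : 0 < r⁻¹),
            abs_of_pos (by norm_num : (0:ℝ) < 2)]
      _ ≤ (3 * r) * (r⁻¹ ^ 2 * |deriv (deriv cut) (r⁻¹ * x)|) +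
          2 * (1 * (r⁻¹ * |deriv cut (r⁻¹ * x)|)) := by gcongr
      _ = (3 * |deriv (deriv cut) (r⁻¹ * x)| + 2 * |deriv cut (r⁻¹ * x)|) / r := by
          field_simp
      _ ≤ A / r := by gcongr
  · have hA0 : 0 ≤ A := le_trans (by positivity) (hA 0)
    rw [hh_zero hr0 hx, abs_zero]
    positivity

/-- the function used as initial datum -/
noncomputable def f0 (x : ℝ) : ℂ := ((cut x : ℝ) : ℂ)

lemma f0_test : Test f0 := cut_test

lemma f0_norm (x : ℝ) : ‖f0 x‖ ≤ 1 := by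
  rw [f0, Complex.norm_real, Real.norm_eq_abs, abs_of_nonneg (cut_nonneg x)]
  exact cut_le_one x

lemma f0_zero (x : ℝ) (hx : x ∉ Icc (-2:ℝ) 2) : f0 x = 0 := by
  rw [f0, cut_eq_zero (fun h => hx ⟨h.1.le, h.2.le⟩)]; simp

lemma f0_L2 : ‖cc f0 f0_test.cont f0_test.2‖ ≤ 2 := by
  have h := norm_cc_le f0_test.cont f0_test.2 (A := 1) (ℓ := 2) (by norm_num) (by norm_num)
    f0_norm f0_zero
  have h2 : ‖cc f0 f0_test.cont f0_test.2‖ ^ 2 ≤ 2 ^ 2 := by linarith
  exact (abs_le_of_sq_le_sq' h2 (by norm_num)).2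

/-- polynomial lower bound. -/
lemma lower_bound : ∃ c > 0, ∀ t : ℝ, 1 ≤ t →
    c / t ^ 6 ≤ ‖W (Rg (ld phip)) 0 (t / 2) (cc f0 f0_test.cont f0_test.2)‖ ^ 2 := by
  obtain ⟨A, hA1, hA⟩ := cut_bounds
  refine ⟨1 / (2304 * A ^ 6), by positivity, fun t ht => ?_⟩
  have ht0 : 0 < t := by linarith
  set r : ℝ := 4 * A ^ 2 * t ^ 2 with hr
  have hr1 : 1 ≤ r := by
    have h1 : 1 ≤ A ^ 2 := one_le_pow₀ hA1
    have h2 : 1 ≤ t ^ 2 := one_le_pow₀ ht
    rw [hr]; nlinarith [mul_le_mul h1 h2 zero_le_one (by positivity)]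
  have hr0 : 0 < r := by linarith
  have T1 : Test (fun x => ((phip x * cutr r x : ℝ) : ℂ)) :=
    test_mul phip_contDiff phip_pos (cutr_contDiff r) (cutr_supp hr0)
  have T2 : Test (fun x => ((hh phip (cutr r) x : ℝ) : ℂ)) :=
    ofReal_test phip_contDiff (hh_contDiff phip_contDiff (cutr_contDiff r)) (hh_supp (cutr_supp hr0))
  have hR := resol_phi phip_contDiff phip_pos (cutr_contDiff r) (cutr_supp hr0) T1 T2
  set ψ : L2 := cc _ T1.cont T1.2 with hψ
  set h : L2 := cc _ T2.cont T2.2 with hh'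
  set f : L2 := cc f0 f0_test.cont f0_test.2 with hf
  have hRs : IsSelfAdjoint (Rg (ld phip)) := resol_selfAdjoint _
  have hs : spectrum ℝ (Rg (ld phip)) ⊆ Icc 0 1 := resol_spectrum _
  set T := W (Rg (ld phip)) 0 (t / 2) with hT
  have h1 := W_sub_le hRs hs (half_pos ht0) (ψ + h)
  rw [hR] at h1
  have h2 : ψ + h - ψ = h := by abel
  rw [h2] at h1
  -- norm of `h`
  have hhn : ‖h‖ ^ 2 ≤ (A / r) ^ 2 * (2 * (2 * r)) :=
    norm_cc_le T2.cont T2.2 (by positivity) (by positivity)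
      (fun x => by
        rw [Complex.norm_real, Real.norm_eq_abs]
        exact hh_bound hA hr1 x)
      (fun x hx => by rw [hh_zero hr0 hx]; simp)
  have hhn2 : ‖h‖ ≤ 1 / t := by
    have e : (A / r) ^ 2 * (2 * (2 * r)) = (1 / t) ^ 2 := by
      have hA0 : A ≠ 0 := by linarith
      rw [hr]; field_simp; norm_num
    rw [e] at hhn
    exact (abs_le_of_sq_le_sq' hhn (by positivity)).2
  -- norm of `ψ`
  have hψn : ‖ψ‖ ^ 2 ≤ (3 * r) ^ 2 * (2 * (2 * r)) :=
    norm_cc_le T1.cont T1.2 (by positivity) (by positivity)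
      (fun x => by
        rw [Complex.norm_real, Real.norm_eq_abs]
        by_cases hx : x ∈ Ioo (-(2 * r)) (2 * r)
        · have h3 : phip x ≤ 3 * r := (phip_le x).trans (by have := (abs_lt.2 hx); linarith)
          rw [abs_of_nonneg (mul_nonneg (phip_pos x).le
            (cut_nonneg (r⁻¹ * x)) : 0 ≤ phip x * cutr r x)]
          calc phip x * cutr r x ≤ phip x * 1 := by
                apply mul_le_mul_of_nonneg_left (cut_le_one _) (phip_pos x).le
            _ ≤ 3 * r := by rw [mul_one]; exact h3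
        · rw [cutr_zero hr0 hx]; simp; positivity)
      (fun x hx => by rw [cutr_zero hr0 (fun h => hx ⟨h.1.le, h.2.le⟩)]; simp)
  -- inner product
  have hin : 2 ≤ ‖inner ℂ f ψ‖ := by
    rw [hf, inner_cc]
    have e1 : ∫ x, (starRingEnd ℂ) (f0 x) * (ψ : ℝ → ℂ) x =
        ((∫ x, cut x * (phip x * cutr r x) : ℝ) : ℂ) := by
      rw [← integral_complex_ofReal]
      apply integral_congr_ae
      filter_upwards [cc_ae T1.cont T1.2] with x hx
      rw [hψ, hx, f0, Complex.conj_ofReal]; push_cast; rfl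
    rw [e1, Complex.norm_real, Real.norm_eq_abs]
    refine le_trans ?_ (le_abs_self _)
    have hci : Integrable (fun x => cut x * (phip x * cutr r x)) :=
      (cut_contDiff.continuous.mul (phip_contDiff.continuous.mul
        (cutr_contDiff r).continuous)).integrable_of_hasCompactSupport cut_supp.mul_right
    calc (2:ℝ) = ∫ _x in Icc (-1:ℝ) 1, (1:ℝ) := by
          rw [setIntegral_const, smul_eq_mul, Real.volume_real_Icc_of_le (by norm_num)]; norm_num
      _ ≤ ∫ x in Icc (-1:ℝ) 1, cut x * (phip x * cutr r x) := by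
          apply setIntegral_mono_on continuous_const.integrableOn_Icc hci.integrableOn
            measurableSet_Icc
          intro x hx
          have h3 : cutr r x = 1 := by
            apply cut_eq_one
            have h4 : r⁻¹ ≤ 1 := inv_le_one_of_one_le₀ hr1
            have h5 : 0 < r⁻¹ := by positivity
            refine abs_le.1 ?_
            rw [abs_mul, abs_of_pos h5]
            exact mul_le_one₀ h4 (abs_nonneg _) (abs_le.2 hx)
          rw [h3, cut_eq_one hx, one_mul, mul_one]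
          exact phip_one_le x
      _ ≤ ∫ x, cut x * (phip x * cutr r x) := by
          apply setIntegral_le_integral hci
          refine Eventually.of_forall fun x => ?_
          exact mul_nonneg (cut_nonneg _) (mul_nonneg (phip_pos x).le (cut_nonneg _))
  have hfn := f0_L2
  rw [← hf] at hfn
  have hTs : IsSelfAdjoint T := W_selfAdjoint _ _ _
  have hTf : inner ℂ (T f) ψ = inner ℂ f (T ψ) :=
    (ContinuousLinearMap.isSelfAdjoint_iff_isSymmetric.1 hTs) f ψ
  have h3 : 1 ≤ ‖inner ℂ (T f) ψ‖ := by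
    rw [hTf]
    have h4 : inner ℂ f (T ψ) = inner ℂ f ψ - inner ℂ f (ψ - T ψ) := by
      rw [inner_sub_right]; ring
    rw [h4]
    have h5 : ‖inner ℂ f (ψ - T ψ)‖ ≤ 2 * (t / 2 * (1 / t)) := by
      calc _ ≤ ‖f‖ * ‖ψ - T ψ‖ := norm_inner_le_norm _ _
        _ ≤ 2 * (t / 2 * (1 / t)) := by gcongr; exact h1.trans (by gcongr)
    have h6 : 2 * (t / 2 * (1 / t)) = 1 := by field_simp
    have h7 := norm_sub_norm_le (inner ℂ f ψ) (inner ℂ f (ψ - T ψ))
    linarith
  have h4 : 1 ≤ ‖T f‖ ^ 2 * ‖ψ‖ ^ 2 := by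
    have h5 : ‖inner ℂ (T f) ψ‖ ≤ ‖T f‖ * ‖ψ‖ := norm_inner_le_norm _ _
    rw [← mul_pow]
    exact one_le_pow₀ (h3.trans h5)
  have h5 : 1 ≤ ‖T f‖ ^ 2 * ((3 * r) ^ 2 * (2 * (2 * r))) := h4.trans (by gcongr)
  have h6 : (3 * r) ^ 2 * (2 * (2 * r)) = 2304 * A ^ 6 * t ^ 6 := by rw [hr]; ring
  rw [h6] at h5
  rw [div_div, div_le_iff₀ (by positivity)]
  exact h5

end Pool.Agent.R216.HK
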