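import Pool.Agent.R216.HK7
import Pool.Agent.R216.HK8

/-!
Schrödinger operators `H = -d²/dx² + V` on `L²(ℝ)`, defined by the closure of their quadratic form
on `C_c^∞(ℝ)`; their resolvent, heat semigroup and heat kernel; criticality and subcriticality.
-/

set_option autoImplicit false
set_option linter.unusedSectionVars false
open Set Filter Topology MeasureTheory
open scoped ContDiff

namespace Pool.Agent.R216.HK

/-- The sesquilinear form `∫ χ' conj ψ' + V χ conj ψ` of `-d²/dx² + V`. -/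
noncomputable def form (V : ℝ → ℝ) (χ ψ : ℝ → ℂ) : ℂ :=
  ∫ x, (deriv χ x * (starRingEnd ℂ) (deriv ψ x) + (V x : ℂ) * (χ x * (starRingEnd ℂ) (ψ x)))

/-- The quadratic form `∫ |ψ'|² + V |ψ|²` of `-d²/dx² + V`. -/
noncomputable def energy (V : ℝ → ℝ) (ψ : ℝ → ℂ) : ℝ :=
  ∫ x, (‖deriv ψ x‖ ^ 2 + V x * ‖ψ x‖ ^ 2)

/-- `R = (H + 1)⁻¹` for the self-adjoint operator `H` on `L²(ℝ)` associated with the closure of
`∫ |ψ'|² + V |ψ|²`, `ψ ∈ C_c^∞(ℝ)`: for every `f ∈ L²` the vector `R f` is the limit in `L²` of test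
functions `χ n` that form a Cauchy sequence for the quadratic form (so `R f` is in the domain of the
closed form), and the closed form satisfies `q(R f, ψ) + ⟨R f, ψ⟩ = ⟨f, ψ⟩` for all `ψ`. -/
def IsResolvent (V : ℝ → ℝ) (R : L2 →L[ℂ] L2) : Prop :=
  ∀ f : L2, ∃ χ : ℕ → ℝ → ℂ, (∀ n, Test (χ n)) ∧
    Tendsto (fun n => ∫ x, ‖χ n x - (R f : ℝ → ℂ) x‖ ^ 2) atTop (𝓝 0) ∧
    (∀ ε > 0, ∃ N, ∀ n ≥ N, ∀ m ≥ N, energy V (fun x => χ n x - χ m x) < ε) ∧
    ∀ ψ, Test ψ → Tendsto (fun n => form V (χ n) ψ + ∫ x, χ n x * (starRingEnd ℂ) (ψ x)) atTop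
      (𝓝 (∫ x, (f : ℝ → ℂ) x * (starRingEnd ℂ) (ψ x)))

/-- The function with `heatFn t ((h+1)⁻¹) = e^{-th}` for `h ≥ 0`. -/
noncomputable def heatFn (t s : ℝ) : ℝ := if 0 < s then Real.exp (-(t * (1 / s - 1))) else 0

/-- `e^{-tH}` as a continuous function of the bounded self-adjoint operator `R = (H+1)⁻¹`. -/
noncomputable def heat {E : Type*} [NormedAddCommGroup E] [InnerProductSpace ℂ E] [CompleteSpace E]
    (R : E →L[ℂ] E) (t : ℝ) : E →L[ℂ] E := cfc (heatFn t) R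

lemma heat_eq (R : L2 →L[ℂ] L2) (t : ℝ) : heat R t = W R 0 t := by
  unfold heat W
  congr 1
  funext s
  simp [heatFn, gp]

/-- potential with ground state `φ` -/
noncomputable def pot (φ : ℝ → ℝ) (x : ℝ) : ℝ := deriv (deriv φ) x / φ x

section Phi

variable {φ : ℝ → ℝ} (hφ : ContDiff ℝ ∞ φ) (hpos : ∀ x, 0 < φ x)

include hφ hpos

lemma pot_contDiff : ContDiff ℝ ∞ (pot φ) := by
  have h1 : ContDiff ℝ ∞ (deriv φ) := (contDiff_infty_iff_deriv.1 hφ).2
  have h2 : ContDiff ℝ ∞ (deriv (deriv φ)) := (contDiff_infty_iff_deriv.1 h1).2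
  exact h2.div hφ (fun x => (hpos x).ne')

lemma ld_hasDeriv (x : ℝ) : HasDerivAt (ld φ) (pot φ x - ld φ x ^ 2) x := by
  have h1 : ContDiff ℝ ∞ (deriv φ) := (contDiff_infty_iff_deriv.1 hφ).2
  have h2 : HasDerivAt (deriv φ) (deriv (deriv φ) x) x :=
    (h1.differentiable (by simp) x).hasDerivAt
  have h3 := h2.div (phi_hasDeriv hφ hpos x) (hpos x).ne'
  refine h3.congr_deriv ?_
  unfold pot ld
  have := (hpos x).ne'
  field_simp

lemma form_eq {χ ψ : ℝ → ℂ} (hχ : Test χ) (hψ : Test ψ) :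
    form (pot φ) χ ψ = ∫ x, D (ld φ) χ x * (starRingEnd ℂ) (D (ld φ) ψ x) := by
  have hld := ld_smooth hφ hpos
  have hpot := pot_contDiff hφ hpos
  have hcj : ∀ {g : ℝ → ℂ}, Continuous g → Continuous (fun x => (starRingEnd ℂ) (g x)) :=
    fun h => Complex.continuous_conj.comp h
  have hψd : ∀ x, HasDerivAt (fun x => (starRingEnd ℂ) (ψ x)) ((starRingEnd ℂ) (deriv ψ x)) x :=
    fun x => (hψ.diff x).hasDerivAt.star
  have hv : ∀ x, HasDerivAt (fun x => χ x * (starRingEnd ℂ) (ψ x))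
      (deriv χ x * (starRingEnd ℂ) (ψ x) + χ x * (starRingEnd ℂ) (deriv ψ x)) x :=
    fun x => (hχ.diff x).hasDerivAt.mul (hψd x)
  have hu : ∀ x, HasDerivAt (fun x => ((ld φ x : ℝ) : ℂ)) ((pot φ x - ld φ x ^ 2 : ℝ) : ℂ) x :=
    fun x => (ld_hasDeriv hφ hpos x).ofReal_comp
  have c1 : Continuous (fun x => ((ld φ x : ℝ) : ℂ)) := Complex.continuous_ofReal.comp hld.continuous
  have c2 : Continuous (fun x => ((pot φ x - ld φ x ^ 2 : ℝ) : ℂ)) :=
    Complex.continuous_ofReal.comp (hpot.continuous.sub (hld.continuous.pow 2))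
  have c3 : Continuous (fun x => χ x * (starRingEnd ℂ) (ψ x)) := hχ.cont.mul (hcj hψ.cont)
  have c4 : Continuous (fun x => deriv χ x * (starRingEnd ℂ) (ψ x) +
      χ x * (starRingEnd ℂ) (deriv ψ x)) :=
    (hχ.deriv_cont.mul (hcj hψ.cont)).add (hχ.cont.mul (hcj hψ.deriv_cont))
  have s3 : HasCompactSupport (fun x => χ x * (starRingEnd ℂ) (ψ x)) := hχ.2.mul_right
  have s4 : HasCompactSupport (fun x => deriv χ x * (starRingEnd ℂ) (ψ x) +
      χ x * (starRingEnd ℂ) (deriv ψ x)) := (hχ.2.deriv.mul_right).add hχ.2.mul_right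
  have i1 : Integrable (fun x => ((ld φ x : ℝ) : ℂ) * (deriv χ x * (starRingEnd ℂ) (ψ x) +
      χ x * (starRingEnd ℂ) (deriv ψ x))) := (c1.mul c4).integrable_of_hasCompactSupport s4.mul_left
  have i2 : Integrable (fun x => ((pot φ x - ld φ x ^ 2 : ℝ) : ℂ) *
      (χ x * (starRingEnd ℂ) (ψ x))) := (c2.mul c3).integrable_of_hasCompactSupport s3.mul_left
  have i3 : Integrable (fun x => ((ld φ x : ℝ) : ℂ) * (χ x * (starRingEnd ℂ) (ψ x))) :=
    (c1.mul c3).integrable_of_hasCompactSupport s3.mul_left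
  have h := integral_mul_deriv_eq_deriv_mul_of_integrable (u := fun x => ((ld φ x : ℝ) : ℂ))
    (v := fun x => χ x * (starRingEnd ℂ) (ψ x)) (fun x _ => hu x) (fun x _ => hv x) i1 i2 i3
  have cD : Continuous (fun x => D (ld φ) χ x * (starRingEnd ℂ) (D (ld φ) ψ x)) :=
    (D_cont hld.continuous hχ).mul (hcj (D_cont hld.continuous hψ))
  have iD : Integrable (fun x => D (ld φ) χ x * (starRingEnd ℂ) (D (ld φ) ψ x)) :=
    cD.integrable_of_hasCompactSupport (D_supp hχ).mul_right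
  unfold form
  have e1 : ∀ x, deriv χ x * (starRingEnd ℂ) (deriv ψ x) +
      (pot φ x : ℂ) * (χ x * (starRingEnd ℂ) (ψ x)) =
      D (ld φ) χ x * (starRingEnd ℂ) (D (ld φ) ψ x) +
      (((ld φ x : ℝ) : ℂ) * (deriv χ x * (starRingEnd ℂ) (ψ x) +
      χ x * (starRingEnd ℂ) (deriv ψ x)) + ((pot φ x - ld φ x ^ 2 : ℝ) : ℂ) *
      (χ x * (starRingEnd ℂ) (ψ x))) := by
    intro x
    simp only [D, map_sub, map_mul, Complex.conj_ofReal]
    push_cast
    ring
  have i12 : Integrable (fun x => ((ld φ x : ℝ) : ℂ) * (deriv χ x * (starRingEnd ℂ) (ψ x) +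
      χ x * (starRingEnd ℂ) (deriv ψ x)) + ((pot φ x - ld φ x ^ 2 : ℝ) : ℂ) *
      (χ x * (starRingEnd ℂ) (ψ x))) := i1.add i2
  simp_rw [e1]
  rw [integral_add iD i12, integral_add i1 i2, h]
  ring

lemma energy_eq {ψ : ℝ → ℂ} (hψ : Test ψ) :
    energy (pot φ) ψ = ∫ x, ‖D (ld φ) ψ x‖ ^ 2 := by
  have h := form_eq hφ hpos hψ hψ
  have h1 : form (pot φ) ψ ψ = ((energy (pot φ) ψ : ℝ) : ℂ) := by
    unfold form energy
    rw [← integral_complex_ofReal]
    congr 1; funext x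
    rw [Complex.mul_conj, Complex.mul_conj, Complex.normSq_eq_norm_sq, Complex.normSq_eq_norm_sq]
    push_cast; rfl
  have h2 : ∫ x, D (ld φ) ψ x * (starRingEnd ℂ) (D (ld φ) ψ x) =
      ((∫ x, ‖D (ld φ) ψ x‖ ^ 2 : ℝ) : ℂ) := by
    rw [← integral_complex_ofReal]
    congr 1; funext x
    rw [Complex.mul_conj, Complex.normSq_eq_norm_sq]
  rw [h1, h2] at h
  exact Complex.ofReal_injective h


lemma norm_sub_sq_of_ae {u v : L2} {g : ℝ → ℂ} (h : ∀ᵐ x, (u : ℝ → ℂ) x - (v : ℝ → ℂ) x = g x) :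
    ‖u - v‖ ^ 2 = ∫ x, ‖g x‖ ^ 2 := by
  rw [L2_norm_sq]
  apply integral_congr_ae
  filter_upwards [h, Lp.coeFn_sub u v] with x h1 h2
  rw [h2, Pi.sub_apply, h1]

lemma D_sub {g : ℝ → ℝ} {χ ψ : ℝ → ℂ} (hχ : Test χ) (hψ : Test ψ) (x : ℝ) :
    D g (fun x => χ x - ψ x) x = D g χ x - D g ψ x := by
  unfold D
  have : deriv (fun x => χ x - ψ x) x = deriv χ x - deriv ψ x :=
    ((hχ.diff x).hasDerivAt.sub (hψ.diff x).hasDerivAt).deriv
  rw [this]; ring

lemma inner_right_ae {u : L2} {g : ℝ → ℂ} (hu : (u : ℝ → ℂ) =ᵐ[volume] g) {ψ : ℝ → ℂ}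
    (h : Continuous ψ) (hs : HasCompactSupport ψ) :
    inner ℂ (cc ψ h hs) u = ∫ x, g x * (starRingEnd ℂ) (ψ x) := by
  rw [inner_cc]
  apply integral_congr_ae
  filter_upwards [hu] with x hx
  rw [hx, mul_comm]

/-- the compression of the projection is the resolvent. -/
lemma isResolvent_Rg : IsResolvent (pot φ) (Rg (ld φ)) := by
  intro f
  have hld := (ld_smooth hφ hpos).continuous
  set P := (K (ld φ)).starProjection (WithLp.toLp 2 (f, (0:L2))) with hP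
  have hPK : P ∈ K (ld φ) := (K (ld φ)).starProjection_apply_mem _
  have hPu : P.fst = Rg (ld φ) f := rfl
  have h1 : P ∈ closure (gr (ld φ) : Set (WithLp 2 (L2 × L2))) := hPK
  obtain ⟨w, hw, hlim⟩ := mem_closure_iff_seq_limit.1 h1
  choose χ hχ hχ1 hχ2 using hw
  have hfst : Tendsto (fun n => (w n).fst) atTop (𝓝 P.fst) :=
    ((WithLp.prod_continuous_ofLp 2 L2 L2).fst.tendsto P).comp hlim
  have hsnd : Tendsto (fun n => (w n).snd) atTop (𝓝 P.snd) :=
    ((WithLp.prod_continuous_ofLp 2 L2 L2).snd.tendsto P).comp hlim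
  refine ⟨χ, hχ, ?_, ?_, ?_⟩
  · have h2 : Tendsto (fun n => ‖(w n).fst - P.fst‖ ^ 2) atTop (𝓝 0) := by
      have := (tendsto_iff_norm_sub_tendsto_zero.1 hfst).pow 2
      simpa using this
    refine h2.congr fun n => ?_
    rw [hPu]
    apply norm_sub_sq_of_ae hφ hpos
    filter_upwards [hχ1 n] with x hx
    rw [hx]
  · intro ε hε
    have h2 : CauchySeq (fun n => (w n).snd) := hsnd.cauchySeq
    obtain ⟨N, hN⟩ := Metric.cauchySeq_iff.1 h2 (√ε) (Real.sqrt_pos.2 hε)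
    refine ⟨N, fun n hn m hm => ?_⟩
    have h3 := hN n hn m hm
    rw [dist_eq_norm] at h3
    have hT : Test (fun x => χ n x - χ m x) :=
      ⟨(hχ n).1.sub (hχ m).1, (hχ n).2.sub (hχ m).2⟩
    rw [energy_eq hφ hpos hT]
    have h4 : ‖(w n).snd - (w m).snd‖ ^ 2 = ∫ x, ‖D (ld φ) (fun x => χ n x - χ m x) x‖ ^ 2 := by
      apply norm_sub_sq_of_ae hφ hpos
      filter_upwards [hχ2 n, hχ2 m] with x h5 h6
      rw [h5, h6, D_sub hφ hpos (hχ n) (hχ m)]
    rw [← h4]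
    calc ‖(w n).snd - (w m).snd‖ ^ 2 < (√ε) ^ 2 := by
          apply pow_lt_pow_left₀ h3 (norm_nonneg _) (by norm_num)
      _ = ε := Real.sq_sqrt hε.le
  · intro ψ hψ
    have hspec := resol_spec (K (ld φ)) f _ (mem_K hld hψ)
    have h2 : Tendsto (fun n => inner ℂ (cc ψ hψ.cont hψ.2) (w n).fst +
        inner ℂ (cc (D (ld φ) ψ) (D_cont hld hψ) (D_supp hψ)) (w n).snd) atTop
        (𝓝 (inner ℂ (cc ψ hψ.cont hψ.2) P.fst +
        inner ℂ (cc (D (ld φ) ψ) (D_cont hld hψ) (D_supp hψ)) P.snd)) :=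
      (tendsto_const_nhds.inner hfst).add (tendsto_const_nhds.inner hsnd)
    have h3 : inner ℂ (cc ψ hψ.cont hψ.2) P.fst +
        inner ℂ (cc (D (ld φ) ψ) (D_cont hld hψ) (D_supp hψ)) P.snd =
        ∫ x, (f : ℝ → ℂ) x * (starRingEnd ℂ) (ψ x) := by
      rw [← inner_right_ae hφ hpos (EventuallyEq.refl _ (f : ℝ → ℂ)) hψ.cont hψ.2]
      exact hspec
    rw [h3] at h2
    refine h2.congr fun n => ?_
    rw [inner_right_ae hφ hpos (hχ1 n), inner_right_ae hφ hpos (hχ2 n), form_eq hφ hpos (hχ n) hψ]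
    ring

/-- uniqueness of the resolvent. -/
lemma isResolvent_unique {R : L2 →L[ℂ] L2} (hR : IsResolvent (pot φ) R) : R = Rg (ld φ) := by
  have hld := (ld_smooth hφ hpos).continuous
  ext1 f
  obtain ⟨χ, hχ, h1, h2, h3⟩ := hR f
  set u : ℕ → L2 := fun n => cc (χ n) (hχ n).cont (hχ n).2 with hu
  set p : ℕ → L2 := fun n => cc (D (ld φ) (χ n)) (D_cont hld (hχ n)) (D_supp (hχ n)) with hp
  have hu1 : ∀ n, (u n : ℝ → ℂ) =ᵐ[volume] χ n := fun n => cc_ae _ _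
  have hp1 : ∀ n, (p n : ℝ → ℂ) =ᵐ[volume] D (ld φ) (χ n) := fun n => cc_ae _ _
  have hulim : Tendsto u atTop (𝓝 (R f)) := by
    rw [tendsto_iff_norm_sub_tendsto_zero]
    have h4 : Tendsto (fun n => ‖u n - R f‖ ^ 2) atTop (𝓝 0) := by
      refine h1.congr fun n => ?_
      symm
      apply norm_sub_sq_of_ae hφ hpos
      filter_upwards [hu1 n] with x hx
      rw [hx]
    have h5 := h4.sqrt
    rw [Real.sqrt_zero] at h5
    refine h5.congr fun n => ?_
    rw [Real.sqrt_sq (norm_nonneg _)]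
  have hpc : CauchySeq p := by
    rw [Metric.cauchySeq_iff]
    intro ε hε
    obtain ⟨N, hN⟩ := h2 (ε ^ 2) (by positivity)
    refine ⟨N, fun n hn m hm => ?_⟩
    have h4 := hN n hn m hm
    have hT : Test (fun x => χ n x - χ m x) :=
      ⟨(hχ n).1.sub (hχ m).1, (hχ n).2.sub (hχ m).2⟩
    rw [energy_eq hφ hpos hT] at h4
    have h5 : ‖p n - p m‖ ^ 2 = ∫ x, ‖D (ld φ) (fun x => χ n x - χ m x) x‖ ^ 2 := by
      apply norm_sub_sq_of_ae hφ hpos
      filter_upwards [hp1 n, hp1 m] with x h5 h6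
      rw [h5, h6, D_sub hφ hpos (hχ n) (hχ m)]
    rw [← h5] at h4
    rw [dist_eq_norm]
    exact lt_of_pow_lt_pow_left₀ 2 hε.le h4
  obtain ⟨q, hq⟩ := cauchySeq_tendsto_of_complete hpc
  have hw : Tendsto (fun n => WithLp.toLp 2 (u n, p n)) atTop (𝓝 (WithLp.toLp 2 (R f, q))) :=
    ((WithLp.prod_continuous_toLp 2 L2 L2).tendsto (R f, q)).comp (hulim.prodMk_nhds hq)
  have hmem : WithLp.toLp 2 (R f, q) ∈ K (ld φ) := by
    have h4 : WithLp.toLp 2 (R f, q) ∈ closure (gr (ld φ) : Set (WithLp 2 (L2 × L2))) :=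
      mem_closure_of_tendsto hw (Eventually.of_forall fun n => mem_gr hld (hχ n))
    exact h4
  symm
  refine resol_eq_of_mem (K (ld φ)) hmem ?_
  set z : WithLp 2 (L2 × L2) := WithLp.toLp 2 (R f - f, q) with hz
  have key : ∀ w ∈ gr (ld φ), inner ℂ z w = 0 := by
    rintro w ⟨ψ, hψ, h5, h6⟩
    have e1 : w.fst = cc ψ hψ.cont hψ.2 := by
      apply Lp.ext
      filter_upwards [h5, cc_ae hψ.cont hψ.2] with x h7 h8
      rw [h7, h8]
    have e2 : w.snd = cc (D (ld φ) ψ) (D_cont hld hψ) (D_supp hψ) := by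
      apply Lp.ext
      filter_upwards [h6, cc_ae (D_cont hld hψ) (D_supp hψ)] with x h7 h8
      rw [h7, h8]
    have h7 : Tendsto (fun n => inner ℂ (cc ψ hψ.cont hψ.2) (u n) +
        inner ℂ (cc (D (ld φ) ψ) (D_cont hld hψ) (D_supp hψ)) (p n)) atTop
        (𝓝 (inner ℂ (cc ψ hψ.cont hψ.2) (R f) +
        inner ℂ (cc (D (ld φ) ψ) (D_cont hld hψ) (D_supp hψ)) q)) :=
      (tendsto_const_nhds.inner hulim).add (tendsto_const_nhds.inner hq)
    have h8 := h3 ψ hψ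
    have h9 : Tendsto (fun n => inner ℂ (cc ψ hψ.cont hψ.2) (u n) +
        inner ℂ (cc (D (ld φ) ψ) (D_cont hld hψ) (D_supp hψ)) (p n)) atTop
        (𝓝 (inner ℂ (cc ψ hψ.cont hψ.2) f)) := by
      rw [inner_right_ae hφ hpos (EventuallyEq.refl _ (f : ℝ → ℂ)) hψ.cont hψ.2]
      refine h8.congr fun n => ?_
      rw [inner_right_ae hφ hpos (hu1 n), inner_right_ae hφ hpos (hp1 n),
        form_eq hφ hpos (hχ n) hψ]
      ring
    have h10 := tendsto_nhds_unique h7 h9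
    have h11 : inner ℂ w z = 0 := by
      have e0 : inner ℂ w z = inner ℂ w.fst (R f - f) + inner ℂ w.snd q :=
        WithLp.prod_inner_apply _ _
      rw [e0, e1, e2, inner_sub_right]
      rw [← h10]; ring
    rw [← inner_conj_symm, h11, map_zero]
  intro w hw'
  have h7 := K_orth key w hw'
  have e0 : inner ℂ w z = inner ℂ w.fst (R f - f) + inner ℂ w.snd q := WithLp.prod_inner_apply _ _
  rw [← e0, ← inner_conj_symm, h7, map_zero]

end Phi

end Pool.Agent.R216.HK
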